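import Pool.Agent.helper14.NS.Q30e.All
import Pool.Agent.helper14.NS.BaseP
import Pool.Agent.helper14.NS.Q30e.Top

/-!
Generated: the piece Q30e, `30 ≤ e ≤ 45`, `2 ≤ e κ / 2`.
-/

namespace Pool.Agent.helper14.NS.Q30e

open Pool.Agent.helper31.EQ.R
open Pool.Agent.helper12.RS
open Pool.Agent.helper63.NF hiding TD
open Pool.Agent.helper4.NS
open Pool.Agent.helper14.NR
open Pool.Agent.helper71.FG (Ag)
open Pool.Agent.helper14.NS

theorem piece {e κ : ℝ} (h1 : (30 : ℝ) ≤ e) (h2 : e ≤ 45) (hκ : 0 < κ)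
    (hb1 : 2 ≤ e * κ / 2)
    (hd : 2 * (Real.cosh κ - 1) / Real.cosh (e * κ / 2) ^ (2 / e) < 4 ^ (1 / e) - 1)
    (far : FarX e κ (Ag e κ)) : Nonempty (RDataF e κ) :=
  pieceS_m certs (by decide +kernel) (by decide +kernel) (m2 := 1931567052095488) (m1 := -178447438577664) (m0 := 5548026101760)
    (b1 := 2199023255552) rfl ⟨rfl, by norm_num⟩ rfl (by linarith) hκ
    (inB_e (by norm_num) h1 h2 (by norm_num) (by norm_num))
    (le_trans (by norm_num) hb1) (top h1 h2 hd) far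

end Pool.Agent.helper14.NS.Q30e
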