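import Pool.Agent.helper14.NS.Q30e.PN2

/-!
Generated: certificates.
-/

namespace Pool.Agent.helper14.NS.Q30e

open Pool.Agent.helper31.IA (Z)
open Pool.Agent.helper31.IX (Op XOps runX Cov CovD cov_split covD_split)
open Pool.Agent.helper31.IC (TD)
open Pool.Agent.helper63.RG (reloc)
open Pool.Agent.helper63.NF hiding TD
open Pool.Agent.helper4.NS
open Pool.Agent.helper14.CF (xE covD_E)
open Pool.Agent.helper14.NR (share)

mutual
theorem A2_c0_t4 : CovD 1 gA2 [(27487371264, 3054501888), (137438953472, 137438953472), (2199023255552, 2199023255552)] :=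
  covD_E kA2_eq (.n 2 (.n 0 (.n 2 (.n 2 (.l 0) (.l 0)) (.n 2 (.l 0) (.l 0))) (.n 2 (.n 2 (.l 0) (.l 0)) (.n 2 (.l 0) (.l 0)))) (.n 2 (.n 2 (.l 0) (.l 0)) (.n 2 (.l 0) (.n 0 (.n 0 (.l 0) (.l 0)) (.l 0)))))
    [(27487371264, 3054501888), (137438953472, 137438953472), (2199023255552, 2199023255552)] rfl (by decide +kernel)
theorem A2_c0_t5 : CovD 1 gA2 [(27487371264, 3054501888), (137438953472, 137438953472), (6597069766656, 2199023255552)] :=
  covD_E kA2_eq (.n 2 (.n 2 (.n 1 (.n 2 (.n 0 (.l 1) (.l 1)) (.l 1)) (.n 2 (.n 2 (.n 0 (.l 1) (.n 0 (.l 0) (.l 0))) (.l 1)) (.l 1))) (.l 1)) (.l 1))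
    [(27487371264, 3054501888), (137438953472, 137438953472), (6597069766656, 2199023255552)] rfl (by decide +kernel)
end

mutual
theorem A2_c0_t7 : CovD 1 gA2 [(27487371264, 3054501888), (412316860416, 137438953472), (2199023255552, 2199023255552)] :=
  covD_E kA2_eq (.n 1 (.n 2 (.n 2 (.l 0) (.l 0)) (.n 2 (.l 0) (.l 0))) (.n 2 (.n 2 (.l 0) (.l 0)) (.n 2 (.l 0) (.l 0))))
    [(27487371264, 3054501888), (412316860416, 137438953472), (2199023255552, 2199023255552)] rfl (by decide +kernel)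
theorem A2_c0_t8 : CovD 1 gA2 [(27487371264, 3054501888), (412316860416, 137438953472), (6597069766656, 2199023255552)] :=
  covD_E kA2_eq (.n 2 (.n 2 (.n 0 (.n 2 (.n 0 (.n 2 (.l 0) (.l 1)) (.n 2 (.l 0) (.l 1))) (.l 1)) (.n 2 (.n 1 (.n 2 (.l 0) (.l 1)) (.l 0)) (.l 1))) (.l 1)) (.l 1))
    [(27487371264, 3054501888), (412316860416, 137438953472), (6597069766656, 2199023255552)] rfl (by decide +kernel)
end

mutual
theorem A2_c0_t11 : CovD 1 gA2 [(27487371264, 3054501888), (687194767360, 137438953472), (2199023255552, 2199023255552)] :=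
  covD_E kA2_eq (.n 1 (.n 2 (.n 2 (.l 0) (.l 0)) (.n 2 (.l 0) (.l 0))) (.n 2 (.n 2 (.l 0) (.l 0)) (.n 2 (.l 0) (.l 0))))
    [(27487371264, 3054501888), (687194767360, 137438953472), (2199023255552, 2199023255552)] rfl (by decide +kernel)
theorem A2_c0_t12 : CovD 1 gA2 [(27487371264, 3054501888), (687194767360, 137438953472), (6597069766656, 2199023255552)] :=
  covD_E kA2_eq (.n 2 (.n 0 (.n 2 (.n 2 (.l 0) (.n 1 (.l 1) (.n 0 (.l 0) (.l 0)))) (.l 1)) (.n 2 (.n 2 (.l 0) (.n 1 (.l 1) (.l 0))) (.l 1))) (.l 1))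
    [(27487371264, 3054501888), (687194767360, 137438953472), (6597069766656, 2199023255552)] rfl (by decide +kernel)
end

mutual
theorem A2_c0_t14 : CovD 1 gA2 [(27487371264, 3054501888), (893353197568, 68719476736), (4398046511104, 4398046511104)] :=
  covD_E kA2_eq (.n 2 (.n 2 (.n 2 (.l 0) (.l 0)) (.n 2 (.l 0) (.l 0))) (.n 2 (.n 0 (.n 2 (.l 0) (.l 1)) (.n 2 (.l 0) (.l 1))) (.l 1)))
    [(27487371264, 3054501888), (893353197568, 68719476736), (4398046511104, 4398046511104)] rfl (by decide +kernel)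
theorem A2_c0_t15 : CovD 1 gA2 [(27487371264, 3054501888), (1030792151040, 68719476736), (4398046511104, 4398046511104)] :=
  covD_E kA2_eq (.n 2 (.n 2 (.n 2 (.l 0) (.l 0)) (.n 2 (.l 0) (.l 0))) (.n 2 (.n 2 (.l 0) (.n 2 (.n 0 (.l 0) (.l 0)) (.l 1))) (.l 1)))
    [(27487371264, 3054501888), (1030792151040, 68719476736), (4398046511104, 4398046511104)] rfl (by decide +kernel)
end

mutual
theorem A2_c0_t18 : CovD 1 gA2 [(33596375040, 3054501888), (137438953472, 137438953472), (4398046511104, 4398046511104)] :=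
  covD_E kA2_eq (.n 2 (.n 2 (.n 2 (.n 2 (.l 0) (.l 0)) (.n 2 (.l 0) (.l 0))) (.n 2 (.n 2 (.l 0) (.l 0)) (.n 0 (.l 0) (.l 0)))) (.n 2 (.n 2 (.n 2 (.n 0 (.n 2 (.n 1 (.l 1) (.l 0)) (.l 1)) (.n 2 (.l 0) (.l 1))) (.l 1)) (.l 1)) (.l 1)))
    [(33596375040, 3054501888), (137438953472, 137438953472), (4398046511104, 4398046511104)] rfl (by decide +kernel)
theorem A2_c0_t19 : CovD 1 gA2 [(33596375040, 3054501888), (412316860416, 137438953472), (4398046511104, 4398046511104)] :=
  covD_E kA2_eq (.n 2 (.n 1 (.n 2 (.n 2 (.l 0) (.l 0)) (.n 2 (.l 0) (.l 0))) (.n 2 (.n 2 (.l 0) (.l 0)) (.n 2 (.l 0) (.l 0)))) (.n 2 (.n 2 (.n 0 (.n 2 (.n 0 (.l 0) (.l 0)) (.l 1)) (.n 2 (.l 0) (.l 1))) (.l 1)) (.l 1)))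
    [(33596375040, 3054501888), (412316860416, 137438953472), (4398046511104, 4398046511104)] rfl (by decide +kernel)
end

mutual
theorem A2_c0_t21 : CovD 1 gA2 [(33596375040, 3054501888), (687194767360, 137438953472), (4398046511104, 4398046511104)] :=
  covD_E kA2_eq (.n 2 (.n 0 (.n 2 (.n 2 (.l 0) (.l 0)) (.n 2 (.l 0) (.l 0))) (.n 2 (.n 2 (.l 0) (.l 0)) (.n 2 (.l 0) (.l 0)))) (.n 2 (.n 0 (.n 2 (.n 0 (.n 2 (.l 0) (.l 0)) (.l 0)) (.l 1)) (.n 2 (.l 0) (.l 1))) (.l 1)))
    [(33596375040, 3054501888), (687194767360, 137438953472), (4398046511104, 4398046511104)] rfl (by decide +kernel)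
theorem A2_c0_t22 : CovD 1 gA2 [(33596375040, 3054501888), (962072674304, 137438953472), (4398046511104, 4398046511104)] :=
  covD_E kA2_eq (.n 2 (.n 2 (.n 2 (.l 0) (.n 0 (.l 0) (.l 0))) (.n 0 (.n 2 (.l 0) (.l 0)) (.n 2 (.l 0) (.l 0)))) (.n 2 (.n 2 (.n 0 (.l 0) (.l 0)) (.n 2 (.n 0 (.l 0) (.l 0)) (.l 1))) (.n 0 (.l 1) (.l 1))))
    [(33596375040, 3054501888), (962072674304, 137438953472), (4398046511104, 4398046511104)] rfl (by decide +kernel)
end

mutual
theorem B2_c0_t2 : CovD 1 gB2 [(27487371264, 3054501888), (549755813888, 549755813888), (34359738368, 34359738368)] :=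
  covD_E kB2_eq (.n 2 (.n 2 (.n 2 (.n 2 (.l 1) (.l 1)) (.n 2 (.l 1) (.l 1))) (.n 0 (.n 2 (.l 1) (.l 1)) (.n 2 (.l 1) (.l 1)))) (.n 2 (.n 2 (.l 1) (.l 1)) (.n 2 (.l 1) (.l 1))))
    [(27487371264, 3054501888), (549755813888, 549755813888), (34359738368, 34359738368)] rfl (by decide +kernel)
theorem B2_c0_t3 : CovD 1 gB2 [(27487371264, 3054501888), (549755813888, 549755813888), (103079215104, 34359738368)] :=
  covD_E kB2_eq (.n 1 (.n 2 (.n 2 (.l 1) (.l 1)) (.n 2 (.l 1) (.l 1))) (.n 2 (.n 2 (.l 1) (.l 1)) (.n 0 (.l 1) (.l 1))))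
    [(27487371264, 3054501888), (549755813888, 549755813888), (103079215104, 34359738368)] rfl (by decide +kernel)
end

mutual
theorem B2_c0_t5 : CovD 1 gB2 [(33596375040, 3054501888), (549755813888, 549755813888), (34359738368, 34359738368)] :=
  covD_E kB2_eq (.n 2 (.n 2 (.n 0 (.n 2 (.l 1) (.l 1)) (.n 2 (.l 1) (.l 1))) (.n 2 (.n 0 (.l 1) (.l 1)) (.l 1))) (.n 2 (.n 2 (.l 1) (.l 1)) (.n 0 (.l 1) (.l 1))))
    [(33596375040, 3054501888), (549755813888, 549755813888), (34359738368, 34359738368)] rfl (by decide +kernel)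
theorem B2_c0_t6 : CovD 1 gB2 [(33596375040, 3054501888), (549755813888, 549755813888), (103079215104, 34359738368)] :=
  covD_E kB2_eq (.n 2 (.n 2 (.n 0 (.l 1) (.l 1)) (.l 1)) (.n 1 (.n 0 (.l 1) (.l 1)) (.l 1)))
    [(33596375040, 3054501888), (549755813888, 549755813888), (103079215104, 34359738368)] rfl (by decide +kernel)
end

mutual
theorem D2_c0_t3 : CovD 1 gD2 [(27487371264, 3054501888), (137438953472, 137438953472), (863610339328, 863610339328)] :=
  covD_E kD2_eq (.n 1 (.n 1 (.n 2 (.n 2 (.l 0) (.l 0)) (.n 2 (.l 0) (.l 0))) (.n 2 (.n 2 (.l 0) (.l 0)) (.n 2 (.l 0) (.l 0)))) (.n 2 (.n 1 (.n 2 (.l 0) (.l 0)) (.n 2 (.l 0) (.l 0))) (.n 2 (.n 1 (.l 0) (.l 0)) (.n 2 (.l 0) (.l 0)))))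
    [(27487371264, 3054501888), (137438953472, 137438953472), (863610339328, 863610339328)] rfl (by decide +kernel)
theorem D2_c0_t4 : CovD 1 gD2 [(27487371264, 3054501888), (412316860416, 137438953472), (863610339328, 863610339328)] :=
  covD_E kD2_eq (.n 1 (.n 2 (.n 2 (.n 0 (.l 0) (.l 0)) (.n 2 (.l 0) (.l 0))) (.n 2 (.n 2 (.l 0) (.l 0)) (.n 2 (.l 0) (.l 0)))) (.n 2 (.n 2 (.n 0 (.l 0) (.l 0)) (.n 2 (.l 0) (.l 0))) (.n 2 (.n 2 (.l 0) (.l 0)) (.n 2 (.l 0) (.l 0)))))
    [(27487371264, 3054501888), (412316860416, 137438953472), (863610339328, 863610339328)] rfl (by decide +kernel)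
end

mutual
theorem D2_c0_t7 : CovD 1 gD2 [(25960120320, 1527250944), (687194767360, 137438953472), (863610339328, 863610339328)] :=
  covD_E kD2_eq (.n 1 (.n 1 (.n 2 (.n 2 (.l 0) (.l 0)) (.n 2 (.l 0) (.l 0))) (.n 2 (.n 2 (.l 0) (.l 0)) (.n 2 (.l 0) (.l 0)))) (.n 1 (.n 2 (.n 2 (.l 0) (.l 0)) (.n 2 (.l 0) (.l 0))) (.n 2 (.n 2 (.l 0) (.l 0)) (.n 2 (.l 0) (.l 0)))))
    [(25960120320, 1527250944), (687194767360, 137438953472), (863610339328, 863610339328)] rfl (by decide +kernel)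
theorem D2_c0_t8 : CovD 1 gD2 [(25960120320, 1527250944), (962072674304, 137438953472), (863610339328, 863610339328)] :=
  covD_E kD2_eq (.n 1 (.n 2 (.n 0 (.n 2 (.l 0) (.l 0)) (.n 2 (.l 0) (.l 0))) (.n 2 (.n 2 (.l 0) (.l 0)) (.n 2 (.l 0) (.l 0)))) (.n 2 (.n 2 (.n 0 (.l 0) (.l 0)) (.n 2 (.l 0) (.l 0))) (.n 2 (.n 2 (.l 0) (.l 0)) (.n 2 (.l 0) (.l 0)))))
    [(25960120320, 1527250944), (962072674304, 137438953472), (863610339328, 863610339328)] rfl (by decide +kernel)
end

mutual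
theorem D2_c0_t10 : CovD 1 gD2 [(29014622208, 1527250944), (687194767360, 137438953472), (863610339328, 863610339328)] :=
  covD_E kD2_eq (.n 1 (.n 2 (.n 2 (.l 0) (.n 0 (.l 0) (.l 0))) (.n 0 (.n 2 (.l 0) (.l 0)) (.n 2 (.l 0) (.l 0)))) (.n 2 (.n 2 (.l 0) (.n 0 (.l 0) (.l 0))) (.n 1 (.n 2 (.l 0) (.l 0)) (.n 2 (.l 0) (.l 0)))))
    [(29014622208, 1527250944), (687194767360, 137438953472), (863610339328, 863610339328)] rfl (by decide +kernel)
theorem D2_c0_t11 : CovD 1 gD2 [(29014622208, 1527250944), (962072674304, 137438953472), (863610339328, 863610339328)] :=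
  covD_E kD2_eq (.n 2 (.n 2 (.n 2 (.l 0) (.n 0 (.l 0) (.l 0))) (.n 0 (.n 1 (.l 0) (.l 0)) (.n 1 (.l 0) (.l 0)))) (.n 0 (.n 2 (.n 2 (.l 0) (.l 0)) (.n 2 (.l 0) (.l 0))) (.n 2 (.n 2 (.l 0) (.l 0)) (.n 2 (.l 0) (.l 0)))))
    [(29014622208, 1527250944), (962072674304, 137438953472), (863610339328, 863610339328)] rfl (by decide +kernel)
end

mutual
theorem D2_c0_t14 : CovD 1 gD2 [(33596375040, 3054501888), (137438953472, 137438953472), (863610339328, 863610339328)] :=
  covD_E kD2_eq (.n 1 (.n 2 (.n 2 (.l 0) (.n 0 (.l 0) (.l 0))) (.n 1 (.n 2 (.l 0) (.l 0)) (.n 2 (.l 0) (.l 0)))) (.n 2 (.n 2 (.l 0) (.n 0 (.l 0) (.l 0))) (.n 1 (.n 2 (.l 0) (.l 0)) (.n 2 (.l 0) (.l 0)))))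
    [(33596375040, 3054501888), (137438953472, 137438953472), (863610339328, 863610339328)] rfl (by decide +kernel)
theorem D2_c0_t15 : CovD 1 gD2 [(33596375040, 3054501888), (412316860416, 137438953472), (863610339328, 863610339328)] :=
  covD_E kD2_eq (.n 0 (.n 2 (.n 1 (.n 2 (.l 0) (.l 0)) (.n 2 (.l 0) (.l 0))) (.n 2 (.n 2 (.l 0) (.l 0)) (.n 2 (.l 0) (.l 0)))) (.n 2 (.n 1 (.n 2 (.l 0) (.l 0)) (.n 2 (.l 0) (.l 0))) (.n 2 (.n 1 (.l 0) (.l 0)) (.n 2 (.l 0) (.l 0)))))
    [(33596375040, 3054501888), (412316860416, 137438953472), (863610339328, 863610339328)] rfl (by decide +kernel)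
end

mutual
theorem D2_c0_t17 : CovD 1 gD2 [(33596375040, 3054501888), (687194767360, 137438953472), (863610339328, 863610339328)] :=
  covD_E kD2_eq (.n 1 (.n 2 (.n 2 (.n 0 (.l 0) (.l 0)) (.n 2 (.l 0) (.l 0))) (.n 2 (.n 2 (.l 0) (.l 0)) (.n 2 (.l 0) (.l 0)))) (.n 2 (.n 2 (.n 0 (.l 0) (.l 0)) (.n 2 (.l 0) (.l 0))) (.n 2 (.n 2 (.l 0) (.l 0)) (.n 2 (.l 0) (.l 0)))))
    [(33596375040, 3054501888), (687194767360, 137438953472), (863610339328, 863610339328)] rfl (by decide +kernel)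
theorem D2_c0_t19 : CovD 1 gD2 [(33596375040, 3054501888), (962072674304, 137438953472), (431805169664, 431805169664)] :=
  covD_E kD2_eq (.n 2 (.n 0 (.n 1 (.l 0) (.l 0)) (.n 1 (.l 0) (.l 0))) (.n 1 (.n 2 (.l 0) (.l 0)) (.n 2 (.l 0) (.n 0 (.l 0) (.l 0)))))
    [(33596375040, 3054501888), (962072674304, 137438953472), (431805169664, 431805169664)] rfl (by decide +kernel)
end

mutual
theorem D2_c0_t20 : CovD 1 gD2 [(33596375040, 3054501888), (962072674304, 137438953472), (1295415508992, 431805169664)] :=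
  covD_E kD2_eq (.n 0 (.n 0 (.n 2 (.n 1 (.l 0) (.l 0)) (.n 2 (.l 0) (.l 0))) (.n 1 (.n 2 (.l 0) (.l 0)) (.n 2 (.l 0) (.l 0)))) (.n 2 (.n 2 (.l 0) (.l 0)) (.n 2 (.l 0) (.l 0))))
    [(33596375040, 3054501888), (962072674304, 137438953472), (1295415508992, 431805169664)] rfl (by decide +kernel)
theorem E2_c0_t4 : CovD 1 gE2 [(30541873152, 6109003776), (274877906944, 274877906944), (107951292416, 107951292416)] :=
  covD_E kE2_eq (.n 2 (.l 1) (.n 1 (.l 1) (.l 1)))
    [(30541873152, 6109003776), (274877906944, 274877906944), (107951292416, 107951292416)] rfl (by decide +kernel)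
end

mutual
theorem E2_c0_t5 : CovD 1 gE2 [(30541873152, 6109003776), (274877906944, 274877906944), (323853877248, 107951292416)] :=
  covD_E kE2_eq (.n 0 (.n 1 (.n 1 (.n 2 (.l 0) (.l 0)) (.n 2 (.l 0) (.l 0))) (.n 1 (.n 2 (.l 0) (.l 0)) (.n 2 (.l 0) (.l 0)))) (.n 2 (.n 2 (.l 1) (.n 1 (.l 0) (.l 0))) (.n 0 (.n 1 (.l 0) (.l 0)) (.n 1 (.l 0) (.l 0)))))
    [(30541873152, 6109003776), (274877906944, 274877906944), (323853877248, 107951292416)] rfl (by decide +kernel)
theorem E2_c0_t7 : CovD 1 gE2 [(27487371264, 3054501888), (274877906944, 274877906944), (647707754496, 215902584832)] :=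
  covD_E kE2_eq (.n 1 (.n 1 (.n 0 (.n 2 (.l 0) (.l 0)) (.n 2 (.l 0) (.l 0))) (.n 2 (.n 2 (.l 0) (.l 0)) (.n 0 (.l 0) (.l 0)))) (.n 1 (.n 2 (.n 2 (.l 0) (.l 0)) (.n 0 (.l 0) (.l 0))) (.n 2 (.n 2 (.l 0) (.l 0)) (.n 0 (.l 0) (.l 0)))))
    [(27487371264, 3054501888), (274877906944, 274877906944), (647707754496, 215902584832)] rfl (by decide +kernel)
end

mutual
theorem E2_c0_t8 : CovD 1 gE2 [(33596375040, 3054501888), (274877906944, 274877906944), (647707754496, 215902584832)] :=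
  covD_E kE2_eq (.n 1 (.n 1 (.n 2 (.n 0 (.l 0) (.l 0)) (.l 0)) (.n 2 (.n 0 (.l 0) (.l 0)) (.l 0))) (.n 0 (.n 2 (.n 2 (.l 0) (.l 0)) (.n 1 (.l 0) (.l 0))) (.n 2 (.n 2 (.l 0) (.l 0)) (.n 1 (.l 0) (.l 0)))))
    [(33596375040, 3054501888), (274877906944, 274877906944), (647707754496, 215902584832)] rfl (by decide +kernel)
theorem E2_c0_t10 : CovD 1 gE2 [(30541873152, 6109003776), (137438953472, 137438953472), (1295415508992, 431805169664)] :=
  covD_E kE2_eq (.n 0 (.n 1 (.n 2 (.n 2 (.l 0) (.l 0)) (.n 2 (.l 0) (.l 0))) (.n 2 (.n 2 (.l 0) (.l 0)) (.n 2 (.l 0) (.l 0)))) (.n 1 (.n 2 (.n 2 (.l 0) (.l 0)) (.n 2 (.l 0) (.l 0))) (.n 2 (.n 2 (.l 0) (.l 0)) (.n 2 (.l 0) (.l 0)))))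
    [(30541873152, 6109003776), (137438953472, 137438953472), (1295415508992, 431805169664)] rfl (by decide +kernel)
end

mutual
theorem E2_c0_t12 : CovD 1 gE2 [(30541873152, 6109003776), (343597383680, 68719476736), (1295415508992, 431805169664)] :=
  covD_E kE2_eq (.n 0 (.n 2 (.n 0 (.n 2 (.l 0) (.l 0)) (.n 2 (.l 0) (.l 0))) (.n 2 (.n 0 (.l 0) (.l 0)) (.l 0))) (.n 2 (.n 2 (.l 0) (.l 0)) (.n 2 (.l 0) (.l 0))))
    [(30541873152, 6109003776), (343597383680, 68719476736), (1295415508992, 431805169664)] rfl (by decide +kernel)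
theorem E2_c0_t13 : CovD 1 gE2 [(30541873152, 6109003776), (481036337152, 68719476736), (1295415508992, 431805169664)] :=
  covD_E kE2_eq (.n 0 (.n 0 (.n 2 (.n 2 (.l 0) (.l 0)) (.n 2 (.l 0) (.l 0))) (.n 2 (.n 2 (.l 0) (.l 0)) (.n 2 (.l 0) (.l 0)))) (.n 2 (.n 2 (.n 0 (.l 0) (.l 0)) (.l 0)) (.n 2 (.l 0) (.l 0))))
    [(30541873152, 6109003776), (481036337152, 68719476736), (1295415508992, 431805169664)] rfl (by decide +kernel)
end

mutual
theorem E2_c0_t18 : CovD 1 gE2 [(27487371264, 3054501888), (824633720832, 274877906944), (107951292416, 107951292416)] :=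
  covD_E kE2_eq (.n 2 (.l 1) (.n 1 (.l 1) (.l 1)))
    [(27487371264, 3054501888), (824633720832, 274877906944), (107951292416, 107951292416)] rfl (by decide +kernel)
theorem E2_c0_t19 : CovD 1 gE2 [(27487371264, 3054501888), (824633720832, 274877906944), (323853877248, 107951292416)] :=
  covD_E kE2_eq (.n 0 (.n 1 (.n 1 (.n 2 (.l 0) (.l 0)) (.n 2 (.l 0) (.l 0))) (.n 2 (.n 2 (.l 0) (.l 0)) (.n 1 (.l 0) (.l 0)))) (.n 2 (.n 2 (.l 1) (.n 1 (.l 0) (.l 0))) (.n 1 (.n 0 (.l 0) (.l 0)) (.n 1 (.l 0) (.l 0)))))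
    [(27487371264, 3054501888), (824633720832, 274877906944), (323853877248, 107951292416)] rfl (by decide +kernel)
end

mutual
theorem E2_c0_t21 : CovD 1 gE2 [(27487371264, 3054501888), (687194767360, 137438953472), (647707754496, 215902584832)] :=
  covD_E kE2_eq (.n 1 (.n 2 (.n 2 (.l 0) (.l 0)) (.n 0 (.l 0) (.l 0))) (.n 2 (.n 2 (.n 0 (.l 0) (.l 0)) (.l 0)) (.n 2 (.l 0) (.l 0))))
    [(27487371264, 3054501888), (687194767360, 137438953472), (647707754496, 215902584832)] rfl (by decide +kernel)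
theorem E2_c0_t22 : CovD 1 gE2 [(27487371264, 3054501888), (962072674304, 137438953472), (647707754496, 215902584832)] :=
  covD_E kE2_eq (.n 0 (.n 0 (.n 2 (.n 2 (.l 0) (.l 0)) (.n 1 (.l 0) (.l 0))) (.n 2 (.n 2 (.l 0) (.l 0)) (.n 1 (.l 0) (.l 0)))) (.n 2 (.n 0 (.n 2 (.l 0) (.l 0)) (.n 2 (.l 0) (.l 0))) (.n 2 (.l 0) (.l 0))))
    [(27487371264, 3054501888), (962072674304, 137438953472), (647707754496, 215902584832)] rfl (by decide +kernel)
end

mutual
theorem E2_c0_t24 : CovD 1 gE2 [(33596375040, 3054501888), (824633720832, 274877906944), (215902584832, 215902584832)] :=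
  covD_E kE2_eq (.n 2 (.n 2 (.l 1) (.l 1)) (.n 1 (.n 2 (.l 1) (.n 1 (.l 0) (.l 0))) (.n 2 (.l 1) (.n 0 (.n 0 (.l 0) (.l 0)) (.n 0 (.l 0) (.l 0))))))
    [(33596375040, 3054501888), (824633720832, 274877906944), (215902584832, 215902584832)] rfl (by decide +kernel)
theorem E2_c0_t26 : CovD 1 gE2 [(32069124096, 1527250944), (824633720832, 274877906944), (647707754496, 215902584832)] :=
  covD_E kE2_eq (.n 1 (.n 2 (.n 2 (.l 0) (.l 0)) (.n 1 (.l 0) (.l 0))) (.n 2 (.n 2 (.n 0 (.l 0) (.l 0)) (.l 0)) (.n 2 (.l 0) (.l 0))))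
    [(32069124096, 1527250944), (824633720832, 274877906944), (647707754496, 215902584832)] rfl (by decide +kernel)
end

mutual
theorem E2_c0_t27 : CovD 1 gE2 [(35123625984, 1527250944), (824633720832, 274877906944), (647707754496, 215902584832)] :=
  covD_E kE2_eq (.n 1 (.n 2 (.n 2 (.l 0) (.l 0)) (.n 1 (.l 0) (.l 0))) (.n 2 (.n 2 (.l 0) (.l 0)) (.n 1 (.l 0) (.l 0))))
    [(35123625984, 1527250944), (824633720832, 274877906944), (647707754496, 215902584832)] rfl (by decide +kernel)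
theorem E2_c0_t30 : CovD 1 gE2 [(30541873152, 6109003776), (618475290624, 68719476736), (1295415508992, 431805169664)] :=
  covD_E kE2_eq (.n 0 (.n 0 (.n 2 (.n 2 (.l 0) (.l 0)) (.n 2 (.l 0) (.l 0))) (.n 2 (.n 2 (.l 0) (.l 0)) (.n 2 (.l 0) (.l 0)))) (.n 2 (.n 0 (.n 2 (.l 0) (.l 0)) (.n 2 (.l 0) (.l 0))) (.n 2 (.n 0 (.l 0) (.l 0)) (.l 0))))
    [(30541873152, 6109003776), (618475290624, 68719476736), (1295415508992, 431805169664)] rfl (by decide +kernel)
end

mutual
theorem E2_c0_t31 : CovD 1 gE2 [(30541873152, 6109003776), (755914244096, 68719476736), (1295415508992, 431805169664)] :=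
  covD_E kE2_eq (.n 0 (.n 0 (.n 2 (.n 2 (.l 0) (.l 0)) (.n 2 (.l 0) (.l 0))) (.n 2 (.n 2 (.l 0) (.l 0)) (.n 2 (.l 0) (.l 0)))) (.n 2 (.n 0 (.n 2 (.l 0) (.l 0)) (.n 2 (.l 0) (.l 0))) (.n 2 (.n 0 (.l 0) (.l 0)) (.l 0))))
    [(30541873152, 6109003776), (755914244096, 68719476736), (1295415508992, 431805169664)] rfl (by decide +kernel)
theorem E2_c0_t34 : CovD 1 gE2 [(27487371264, 3054501888), (893353197568, 68719476736), (1295415508992, 431805169664)] :=
  covD_E kE2_eq (.n 0 (.n 2 (.n 2 (.n 0 (.l 0) (.l 0)) (.l 0)) (.n 2 (.l 0) (.l 0))) (.n 2 (.n 2 (.l 0) (.l 0)) (.n 2 (.l 0) (.l 0))))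
    [(27487371264, 3054501888), (893353197568, 68719476736), (1295415508992, 431805169664)] rfl (by decide +kernel)
end

mutual
theorem E2_c0_t35 : CovD 1 gE2 [(33596375040, 3054501888), (893353197568, 68719476736), (1295415508992, 431805169664)] :=
  covD_E kE2_eq (.n 0 (.n 2 (.n 2 (.l 0) (.l 0)) (.n 2 (.l 0) (.l 0))) (.n 2 (.n 2 (.l 0) (.l 0)) (.n 2 (.l 0) (.l 0))))
    [(33596375040, 3054501888), (893353197568, 68719476736), (1295415508992, 431805169664)] rfl (by decide +kernel)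
theorem E2_c0_t37 : CovD 1 gE2 [(27487371264, 3054501888), (1030792151040, 68719476736), (1295415508992, 431805169664)] :=
  covD_E kE2_eq (.n 0 (.n 2 (.n 2 (.n 0 (.l 0) (.l 0)) (.l 0)) (.n 2 (.l 0) (.l 0))) (.n 2 (.n 2 (.l 0) (.l 0)) (.n 2 (.l 0) (.l 0))))
    [(27487371264, 3054501888), (1030792151040, 68719476736), (1295415508992, 431805169664)] rfl (by decide +kernel)
end

theorem E2_c0_t38 : CovD 1 gE2 [(33596375040, 3054501888), (1030792151040, 68719476736), (1295415508992, 431805169664)] :=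
  covD_E kE2_eq (.n 0 (.n 2 (.n 2 (.l 0) (.l 0)) (.n 2 (.l 0) (.l 0))) (.n 2 (.n 2 (.l 0) (.l 0)) (.n 2 (.l 0) (.l 0))))
    [(33596375040, 3054501888), (1030792151040, 68719476736), (1295415508992, 431805169664)] rfl (by decide +kernel)

theorem A2_c0_t3 : CovD 1 gA2 [(27487371264, 3054501888), (137438953472, 137438953472), (4398046511104, 4398046511104)] :=
  covD_split 2 (by decide +kernel) A2_c0_t4 A2_c0_t5

theorem A2_c0_t6 : CovD 1 gA2 [(27487371264, 3054501888), (412316860416, 137438953472), (4398046511104, 4398046511104)] :=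
  covD_split 2 (by decide +kernel) A2_c0_t7 A2_c0_t8

theorem A2_c0_t2 : CovD 1 gA2 [(27487371264, 3054501888), (274877906944, 274877906944), (4398046511104, 4398046511104)] :=
  covD_split 1 (by decide +kernel) A2_c0_t3 A2_c0_t6

theorem A2_c0_t10 : CovD 1 gA2 [(27487371264, 3054501888), (687194767360, 137438953472), (4398046511104, 4398046511104)] :=
  covD_split 2 (by decide +kernel) A2_c0_t11 A2_c0_t12

theorem A2_c0_t13 : CovD 1 gA2 [(27487371264, 3054501888), (962072674304, 137438953472), (4398046511104, 4398046511104)] :=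
  covD_split 1 (by decide +kernel) A2_c0_t14 A2_c0_t15

theorem A2_c0_t9 : CovD 1 gA2 [(27487371264, 3054501888), (824633720832, 274877906944), (4398046511104, 4398046511104)] :=
  covD_split 1 (by decide +kernel) A2_c0_t10 A2_c0_t13

theorem A2_c0_t1 : CovD 1 gA2 [(27487371264, 3054501888), (549755813888, 549755813888), (4398046511104, 4398046511104)] :=
  covD_split 1 (by decide +kernel) A2_c0_t2 A2_c0_t9

theorem A2_c0_t17 : CovD 1 gA2 [(33596375040, 3054501888), (274877906944, 274877906944), (4398046511104, 4398046511104)] :=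
  covD_split 1 (by decide +kernel) A2_c0_t18 A2_c0_t19

theorem A2_c0_t20 : CovD 1 gA2 [(33596375040, 3054501888), (824633720832, 274877906944), (4398046511104, 4398046511104)] :=
  covD_split 1 (by decide +kernel) A2_c0_t21 A2_c0_t22

theorem A2_c0_t16 : CovD 1 gA2 [(33596375040, 3054501888), (549755813888, 549755813888), (4398046511104, 4398046511104)] :=
  covD_split 1 (by decide +kernel) A2_c0_t17 A2_c0_t20

theorem A2_c0 : CovD 1 gA2 [(30541873152, 6109003776), (549755813888, 549755813888), (4398046511104, 4398046511104)] :=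
  covD_split 0 (by decide +kernel) A2_c0_t1 A2_c0_t16

theorem B2_c0_t1 : CovD 1 gB2 [(27487371264, 3054501888), (549755813888, 549755813888), (68719476736, 68719476736)] :=
  covD_split 2 (by decide +kernel) B2_c0_t2 B2_c0_t3

theorem B2_c0_t4 : CovD 1 gB2 [(33596375040, 3054501888), (549755813888, 549755813888), (68719476736, 68719476736)] :=
  covD_split 2 (by decide +kernel) B2_c0_t5 B2_c0_t6

theorem B2_c0 : CovD 1 gB2 [(30541873152, 6109003776), (549755813888, 549755813888), (68719476736, 68719476736)] :=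
  covD_split 0 (by decide +kernel) B2_c0_t1 B2_c0_t4

theorem D2_c0_t2 : CovD 1 gD2 [(27487371264, 3054501888), (274877906944, 274877906944), (863610339328, 863610339328)] :=
  covD_split 1 (by decide +kernel) D2_c0_t3 D2_c0_t4

theorem D2_c0_t6 : CovD 1 gD2 [(25960120320, 1527250944), (824633720832, 274877906944), (863610339328, 863610339328)] :=
  covD_split 1 (by decide +kernel) D2_c0_t7 D2_c0_t8

theorem D2_c0_t9 : CovD 1 gD2 [(29014622208, 1527250944), (824633720832, 274877906944), (863610339328, 863610339328)] :=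
  covD_split 1 (by decide +kernel) D2_c0_t10 D2_c0_t11

theorem D2_c0_t5 : CovD 1 gD2 [(27487371264, 3054501888), (824633720832, 274877906944), (863610339328, 863610339328)] :=
  covD_split 0 (by decide +kernel) D2_c0_t6 D2_c0_t9

theorem D2_c0_t1 : CovD 1 gD2 [(27487371264, 3054501888), (549755813888, 549755813888), (863610339328, 863610339328)] :=
  covD_split 1 (by decide +kernel) D2_c0_t2 D2_c0_t5

theorem D2_c0_t13 : CovD 1 gD2 [(33596375040, 3054501888), (274877906944, 274877906944), (863610339328, 863610339328)] :=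
  covD_split 1 (by decide +kernel) D2_c0_t14 D2_c0_t15

theorem D2_c0_t18 : CovD 1 gD2 [(33596375040, 3054501888), (962072674304, 137438953472), (863610339328, 863610339328)] :=
  covD_split 2 (by decide +kernel) D2_c0_t19 D2_c0_t20

theorem D2_c0_t16 : CovD 1 gD2 [(33596375040, 3054501888), (824633720832, 274877906944), (863610339328, 863610339328)] :=
  covD_split 1 (by decide +kernel) D2_c0_t17 D2_c0_t18

theorem D2_c0_t12 : CovD 1 gD2 [(33596375040, 3054501888), (549755813888, 549755813888), (863610339328, 863610339328)] :=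
  covD_split 1 (by decide +kernel) D2_c0_t13 D2_c0_t16

theorem D2_c0 : CovD 1 gD2 [(30541873152, 6109003776), (549755813888, 549755813888), (863610339328, 863610339328)] :=
  covD_split 0 (by decide +kernel) D2_c0_t1 D2_c0_t12

theorem E2_c0_t3 : CovD 1 gE2 [(30541873152, 6109003776), (274877906944, 274877906944), (215902584832, 215902584832)] :=
  covD_split 2 (by decide +kernel) E2_c0_t4 E2_c0_t5

theorem E2_c0_t6 : CovD 1 gE2 [(30541873152, 6109003776), (274877906944, 274877906944), (647707754496, 215902584832)] :=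
  covD_split 0 (by decide +kernel) E2_c0_t7 E2_c0_t8

theorem E2_c0_t2 : CovD 1 gE2 [(30541873152, 6109003776), (274877906944, 274877906944), (431805169664, 431805169664)] :=
  covD_split 2 (by decide +kernel) E2_c0_t3 E2_c0_t6

theorem E2_c0_t11 : CovD 1 gE2 [(30541873152, 6109003776), (412316860416, 137438953472), (1295415508992, 431805169664)] :=
  covD_split 1 (by decide +kernel) E2_c0_t12 E2_c0_t13

theorem E2_c0_t9 : CovD 1 gE2 [(30541873152, 6109003776), (274877906944, 274877906944), (1295415508992, 431805169664)] :=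
  covD_split 1 (by decide +kernel) E2_c0_t10 E2_c0_t11

theorem E2_c0_t1 : CovD 1 gE2 [(30541873152, 6109003776), (274877906944, 274877906944), (863610339328, 863610339328)] :=
  covD_split 2 (by decide +kernel) E2_c0_t2 E2_c0_t9

theorem E2_c0_t17 : CovD 1 gE2 [(27487371264, 3054501888), (824633720832, 274877906944), (215902584832, 215902584832)] :=
  covD_split 2 (by decide +kernel) E2_c0_t18 E2_c0_t19

theorem E2_c0_t20 : CovD 1 gE2 [(27487371264, 3054501888), (824633720832, 274877906944), (647707754496, 215902584832)] :=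
  covD_split 1 (by decide +kernel) E2_c0_t21 E2_c0_t22

theorem E2_c0_t16 : CovD 1 gE2 [(27487371264, 3054501888), (824633720832, 274877906944), (431805169664, 431805169664)] :=
  covD_split 2 (by decide +kernel) E2_c0_t17 E2_c0_t20

theorem E2_c0_t25 : CovD 1 gE2 [(33596375040, 3054501888), (824633720832, 274877906944), (647707754496, 215902584832)] :=
  covD_split 0 (by decide +kernel) E2_c0_t26 E2_c0_t27

theorem E2_c0_t23 : CovD 1 gE2 [(33596375040, 3054501888), (824633720832, 274877906944), (431805169664, 431805169664)] :=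
  covD_split 2 (by decide +kernel) E2_c0_t24 E2_c0_t25

theorem E2_c0_t15 : CovD 1 gE2 [(30541873152, 6109003776), (824633720832, 274877906944), (431805169664, 431805169664)] :=
  covD_split 0 (by decide +kernel) E2_c0_t16 E2_c0_t23

theorem E2_c0_t29 : CovD 1 gE2 [(30541873152, 6109003776), (687194767360, 137438953472), (1295415508992, 431805169664)] :=
  covD_split 1 (by decide +kernel) E2_c0_t30 E2_c0_t31

theorem E2_c0_t33 : CovD 1 gE2 [(30541873152, 6109003776), (893353197568, 68719476736), (1295415508992, 431805169664)] :=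
  covD_split 0 (by decide +kernel) E2_c0_t34 E2_c0_t35

theorem E2_c0_t36 : CovD 1 gE2 [(30541873152, 6109003776), (1030792151040, 68719476736), (1295415508992, 431805169664)] :=
  covD_split 0 (by decide +kernel) E2_c0_t37 E2_c0_t38

theorem E2_c0_t32 : CovD 1 gE2 [(30541873152, 6109003776), (962072674304, 137438953472), (1295415508992, 431805169664)] :=
  covD_split 1 (by decide +kernel) E2_c0_t33 E2_c0_t36

theorem E2_c0_t28 : CovD 1 gE2 [(30541873152, 6109003776), (824633720832, 274877906944), (1295415508992, 431805169664)] :=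
  covD_split 1 (by decide +kernel) E2_c0_t29 E2_c0_t32

theorem E2_c0_t14 : CovD 1 gE2 [(30541873152, 6109003776), (824633720832, 274877906944), (863610339328, 863610339328)] :=
  covD_split 2 (by decide +kernel) E2_c0_t15 E2_c0_t28

theorem E2_c0 : CovD 1 gE2 [(30541873152, 6109003776), (549755813888, 549755813888), (863610339328, 863610339328)] :=
  covD_split 1 (by decide +kernel) E2_c0_t1 E2_c0_t14

end Pool.Agent.helper14.NS.Q30e
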