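import Pool.Agent.helper14.NS.Q30e.PN4

/-!
Generated: certificates.
-/

namespace Pool.Agent.helper14.NS.Q30e

open Pool.Agent.helper31.IA (Z)
open Pool.Agent.helper31.IX (Op XOps runX Cov CovD cov_split covD_split)
open Pool.Agent.helper31.IC (TD)
open Pool.Agent.helper63.RG (reloc)
open Pool.Agent.helper63.NF hiding TD
open Pool.Agent.helper4.NS
open Pool.Agent.helper14.CF (xE covD_E)
open Pool.Agent.helper14.NR (share)

mutual
theorem A4_c0_t4 : CovD 1 gA4 [(27487371264, 3054501888), (137438953472, 137438953472), (2199023255552, 2199023255552)] :=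
  covD_E kA4_eq (.n 1 (.n 2 (.n 0 (.n 2 (.l 0) (.l 0)) (.n 2 (.l 0) (.l 0))) (.n 2 (.n 0 (.l 0) (.l 0)) (.l 0))) (.n 2 (.n 2 (.l 0) (.l 0)) (.n 2 (.l 0) (.l 0))))
    [(27487371264, 3054501888), (137438953472, 137438953472), (2199023255552, 2199023255552)] rfl (by decide +kernel)
theorem A4_c0_t8 : CovD 1 gA4 [(25960120320, 1527250944), (68719476736, 68719476736), (5497558138880, 1099511627776)] :=
  covD_E kA4_eq (.n 2 (.n 0 (.n 0 (.n 2 (.l 0) (.l 0)) (.l 0)) (.l 0)) (.n 2 (.n 0 (.n 1 (.l 1) (.n 2 (.n 0 (.l 0) (.l 0)) (.l 1))) (.n 2 (.n 0 (.n 0 (.l 0) (.l 0)) (.l 0)) (.l 1))) (.l 1)))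
    [(25960120320, 1527250944), (68719476736, 68719476736), (5497558138880, 1099511627776)] rfl (by decide +kernel)
end

mutual
theorem A4_c0_t9 : CovD 1 gA4 [(25960120320, 1527250944), (206158430208, 68719476736), (5497558138880, 1099511627776)] :=
  covD_E kA4_eq (.n 2 (.l 0) (.n 2 (.n 0 (.n 0 (.n 0 (.n 2 (.l 0) (.l 0)) (.l 0)) (.l 0)) (.l 0)) (.n 2 (.n 0 (.l 1) (.n 0 (.l 1) (.l 0))) (.l 1))))
    [(25960120320, 1527250944), (206158430208, 68719476736), (5497558138880, 1099511627776)] rfl (by decide +kernel)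
theorem A4_c0_t10 : CovD 1 gA4 [(29014622208, 1527250944), (137438953472, 137438953472), (5497558138880, 1099511627776)] :=
  covD_E kA4_eq (.n 2 (.l 0) (.n 0 (.n 1 (.n 2 (.n 1 (.n 2 (.l 0) (.l 1)) (.l 0)) (.l 1)) (.n 1 (.n 2 (.l 0) (.n 0 (.l 1) (.l 0))) (.l 0))) (.n 1 (.n 2 (.l 0) (.n 0 (.l 1) (.n 1 (.l 1) (.l 0)))) (.l 0))))
    [(29014622208, 1527250944), (137438953472, 137438953472), (5497558138880, 1099511627776)] rfl (by decide +kernel)
end

mutual
theorem A4_c0_t11 : CovD 1 gA4 [(27487371264, 3054501888), (137438953472, 137438953472), (7696581394432, 1099511627776)] :=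
  covD_E kA4_eq (.n 2 (.n 0 (.l 1) (.n 2 (.n 0 (.l 1) (.n 2 (.l 1) (.l 1))) (.l 1))) (.l 1))
    [(27487371264, 3054501888), (137438953472, 137438953472), (7696581394432, 1099511627776)] rfl (by decide +kernel)
theorem A4_c0_t13 : CovD 1 gA4 [(27487371264, 3054501888), (412316860416, 137438953472), (2199023255552, 2199023255552)] :=
  covD_E kA4_eq (.n 1 (.n 2 (.n 2 (.l 0) (.l 0)) (.n 2 (.l 0) (.l 0))) (.n 2 (.n 2 (.l 0) (.l 0)) (.n 2 (.l 0) (.l 0))))
    [(27487371264, 3054501888), (412316860416, 137438953472), (2199023255552, 2199023255552)] rfl (by decide +kernel)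
end

mutual
theorem A4_c0_t15 : CovD 1 gA4 [(27487371264, 3054501888), (412316860416, 137438953472), (5497558138880, 1099511627776)] :=
  covD_E kA4_eq (.n 1 (.n 2 (.l 0) (.n 0 (.n 0 (.n 2 (.l 0) (.n 2 (.l 0) (.l 0))) (.l 0)) (.l 0))) (.n 2 (.l 0) (.l 0)))
    [(27487371264, 3054501888), (412316860416, 137438953472), (5497558138880, 1099511627776)] rfl (by decide +kernel)
theorem A4_c0_t17 : CovD 1 gA4 [(25960120320, 1527250944), (412316860416, 137438953472), (7696581394432, 1099511627776)] :=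
  covD_E kA4_eq (.n 2 (.n 1 (.n 2 (.n 0 (.l 1) (.n 1 (.l 1) (.l 0))) (.l 1)) (.n 2 (.l 0) (.n 0 (.n 0 (.l 1) (.l 1)) (.l 0)))) (.n 2 (.l 1) (.l 1)))
    [(25960120320, 1527250944), (412316860416, 137438953472), (7696581394432, 1099511627776)] rfl (by decide +kernel)
end

mutual
theorem A4_c0_t18 : CovD 1 gA4 [(29014622208, 1527250944), (412316860416, 137438953472), (7696581394432, 1099511627776)] :=
  covD_E kA4_eq (.n 1 (.n 2 (.n 2 (.l 0) (.n 0 (.l 1) (.l 0))) (.l 1)) (.n 2 (.l 0) (.n 2 (.l 0) (.l 1))))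
    [(29014622208, 1527250944), (412316860416, 137438953472), (7696581394432, 1099511627776)] rfl (by decide +kernel)
theorem A4_c0_t21 : CovD 1 gA4 [(27487371264, 3054501888), (618475290624, 68719476736), (4398046511104, 4398046511104)] :=
  covD_E kA4_eq (.n 2 (.n 2 (.n 2 (.l 0) (.l 0)) (.n 2 (.l 0) (.l 0))) (.n 2 (.n 2 (.l 0) (.l 0)) (.n 0 (.n 2 (.l 0) (.n 0 (.n 2 (.l 0) (.l 1)) (.l 0))) (.n 0 (.l 0) (.l 0)))))
    [(27487371264, 3054501888), (618475290624, 68719476736), (4398046511104, 4398046511104)] rfl (by decide +kernel)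
end

mutual
theorem A4_c0_t22 : CovD 1 gA4 [(27487371264, 3054501888), (755914244096, 68719476736), (4398046511104, 4398046511104)] :=
  covD_E kA4_eq (.n 2 (.n 2 (.n 2 (.l 0) (.l 0)) (.n 2 (.l 0) (.l 0))) (.n 2 (.n 2 (.l 0) (.l 0)) (.n 2 (.l 0) (.l 0))))
    [(27487371264, 3054501888), (755914244096, 68719476736), (4398046511104, 4398046511104)] rfl (by decide +kernel)
theorem A4_c0_t23 : CovD 1 gA4 [(27487371264, 3054501888), (962072674304, 137438953472), (4398046511104, 4398046511104)] :=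
  covD_E kA4_eq (.n 1 (.n 2 (.n 2 (.n 2 (.l 0) (.l 0)) (.n 2 (.l 0) (.l 0))) (.n 2 (.n 2 (.l 0) (.l 0)) (.n 2 (.l 0) (.l 0)))) (.n 2 (.n 2 (.n 2 (.l 0) (.l 0)) (.n 2 (.l 0) (.l 0))) (.n 0 (.n 2 (.l 0) (.l 0)) (.n 2 (.l 0) (.l 0)))))
    [(27487371264, 3054501888), (962072674304, 137438953472), (4398046511104, 4398046511104)] rfl (by decide +kernel)
end

mutual
theorem A4_c0_t27 : CovD 1 gA4 [(33596375040, 3054501888), (137438953472, 137438953472), (2199023255552, 2199023255552)] :=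
  covD_E kA4_eq (.n 2 (.n 2 (.n 1 (.l 0) (.l 0)) (.n 2 (.l 0) (.l 0))) (.n 1 (.n 2 (.l 0) (.l 0)) (.n 2 (.l 0) (.l 0))))
    [(33596375040, 3054501888), (137438953472, 137438953472), (2199023255552, 2199023255552)] rfl (by decide +kernel)
theorem A4_c0_t29 : CovD 1 gA4 [(32069124096, 1527250944), (137438953472, 137438953472), (6597069766656, 2199023255552)] :=
  covD_E kA4_eq (.n 2 (.n 2 (.l 0) (.n 1 (.n 0 (.n 2 (.l 0) (.n 2 (.l 0) (.l 1))) (.l 0)) (.l 0))) (.n 2 (.n 1 (.n 0 (.l 1) (.n 2 (.l 1) (.l 1))) (.n 2 (.l 0) (.n 0 (.l 1) (.l 0)))) (.l 1)))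
    [(32069124096, 1527250944), (137438953472, 137438953472), (6597069766656, 2199023255552)] rfl (by decide +kernel)
end

mutual
theorem A4_c0_t30 : CovD 1 gA4 [(35123625984, 1527250944), (137438953472, 137438953472), (6597069766656, 2199023255552)] :=
  covD_E kA4_eq (.n 2 (.n 2 (.l 0) (.l 0)) (.n 1 (.n 2 (.n 2 (.l 0) (.n 0 (.l 1) (.l 0))) (.l 1)) (.n 2 (.l 0) (.n 0 (.l 1) (.l 0)))))
    [(35123625984, 1527250944), (137438953472, 137438953472), (6597069766656, 2199023255552)] rfl (by decide +kernel)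
theorem A4_c0_t32 : CovD 1 gA4 [(32069124096, 1527250944), (412316860416, 137438953472), (4398046511104, 4398046511104)] :=
  covD_E kA4_eq (.n 2 (.n 2 (.n 2 (.l 0) (.l 0)) (.n 2 (.l 0) (.l 0))) (.n 2 (.n 2 (.l 0) (.l 0)) (.n 2 (.l 0) (.n 1 (.n 2 (.l 0) (.l 1)) (.l 0)))))
    [(32069124096, 1527250944), (412316860416, 137438953472), (4398046511104, 4398046511104)] rfl (by decide +kernel)
end

mutual
theorem A4_c0_t33 : CovD 1 gA4 [(35123625984, 1527250944), (412316860416, 137438953472), (4398046511104, 4398046511104)] :=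
  covD_E kA4_eq (.n 2 (.n 2 (.n 2 (.l 0) (.l 0)) (.n 2 (.l 0) (.l 0))) (.n 2 (.n 2 (.l 0) (.l 0)) (.n 2 (.l 0) (.l 0))))
    [(35123625984, 1527250944), (412316860416, 137438953472), (4398046511104, 4398046511104)] rfl (by decide +kernel)
theorem A4_c0_t35 : CovD 1 gA4 [(33596375040, 3054501888), (687194767360, 137438953472), (4398046511104, 4398046511104)] :=
  covD_E kA4_eq (.n 2 (.n 2 (.n 2 (.l 0) (.n 0 (.l 0) (.l 0))) (.n 0 (.n 2 (.l 0) (.l 0)) (.n 2 (.l 0) (.l 0)))) (.n 0 (.n 1 (.n 2 (.l 0) (.l 0)) (.n 2 (.l 0) (.l 0))) (.n 1 (.n 2 (.l 0) (.l 0)) (.n 2 (.l 0) (.l 0)))))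
    [(33596375040, 3054501888), (687194767360, 137438953472), (4398046511104, 4398046511104)] rfl (by decide +kernel)
end

mutual
theorem A4_c0_t36 : CovD 1 gA4 [(33596375040, 3054501888), (962072674304, 137438953472), (4398046511104, 4398046511104)] :=
  covD_E kA4_eq (.n 2 (.n 2 (.n 2 (.l 0) (.l 0)) (.n 0 (.n 1 (.l 0) (.l 0)) (.n 1 (.l 0) (.l 0)))) (.n 0 (.n 1 (.n 2 (.l 0) (.l 0)) (.n 2 (.l 0) (.l 0))) (.n 0 (.n 2 (.l 0) (.l 0)) (.n 2 (.l 0) (.l 0)))))
    [(33596375040, 3054501888), (962072674304, 137438953472), (4398046511104, 4398046511104)] rfl (by decide +kernel)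
theorem B4_c0_t2 : CovD 1 gB4 [(27487371264, 3054501888), (274877906944, 274877906944), (68719476736, 68719476736)] :=
  covD_E kB4_eq (.n 2 (.n 2 (.n 0 (.n 2 (.l 1) (.l 1)) (.n 2 (.l 1) (.l 1))) (.n 2 (.n 0 (.l 1) (.l 1)) (.l 1))) (.n 2 (.n 2 (.l 1) (.l 1)) (.n 0 (.n 2 (.l 1) (.l 1)) (.n 1 (.l 1) (.n 2 (.l 1) (.l 1))))))
    [(27487371264, 3054501888), (274877906944, 274877906944), (68719476736, 68719476736)] rfl (by decide +kernel)
end

mutual
theorem B4_c0_t4 : CovD 1 gB4 [(27487371264, 3054501888), (824633720832, 274877906944), (34359738368, 34359738368)] :=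
  covD_E kB4_eq (.n 2 (.n 2 (.n 2 (.l 1) (.l 1)) (.n 0 (.l 1) (.l 1))) (.n 2 (.n 2 (.l 1) (.l 1)) (.n 1 (.l 1) (.n 2 (.l 1) (.l 1)))))
    [(27487371264, 3054501888), (824633720832, 274877906944), (34359738368, 34359738368)] rfl (by decide +kernel)
theorem B4_c0_t7 : CovD 1 gB4 [(25960120320, 1527250944), (824633720832, 274877906944), (85899345920, 17179869184)] :=
  covD_E kB4_eq (.n 2 (.n 2 (.l 1) (.l 1)) (.n 1 (.l 1) (.n 1 (.n 0 (.l 1) (.l 1)) (.l 0))))
    [(25960120320, 1527250944), (824633720832, 274877906944), (85899345920, 17179869184)] rfl (by decide +kernel)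
end

mutual
theorem B4_c0_t8 : CovD 1 gB4 [(25960120320, 1527250944), (824633720832, 274877906944), (120259084288, 17179869184)] :=
  covD_E kB4_eq (.n 1 (.n 2 (.n 2 (.l 1) (.l 1)) (.n 0 (.n 1 (.l 1) (.n 1 (.l 1) (.l 0))) (.n 1 (.l 1) (.l 0)))) (.n 0 (.n 2 (.l 0) (.l 0)) (.n 1 (.l 0) (.l 0))))
    [(25960120320, 1527250944), (824633720832, 274877906944), (120259084288, 17179869184)] rfl (by decide +kernel)
theorem B4_c0_t9 : CovD 1 gB4 [(29014622208, 1527250944), (824633720832, 274877906944), (103079215104, 34359738368)] :=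
  covD_E kB4_eq (.n 1 (.n 2 (.n 2 (.l 1) (.l 1)) (.n 1 (.n 2 (.l 1) (.n 2 (.l 1) (.l 0))) (.n 2 (.n 2 (.l 0) (.l 0)) (.l 0)))) (.n 1 (.n 2 (.n 2 (.l 1) (.l 0)) (.l 0)) (.n 2 (.n 2 (.l 0) (.l 0)) (.l 0))))
    [(29014622208, 1527250944), (824633720832, 274877906944), (103079215104, 34359738368)] rfl (by decide +kernel)
end

mutual
theorem B4_c0_t12 : CovD 1 gB4 [(33596375040, 3054501888), (274877906944, 274877906944), (34359738368, 34359738368)] :=
  covD_E kB4_eq (.n 2 (.n 2 (.l 1) (.l 1)) (.n 2 (.l 1) (.l 1)))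
    [(33596375040, 3054501888), (274877906944, 274877906944), (34359738368, 34359738368)] rfl (by decide +kernel)
theorem B4_c0_t13 : CovD 1 gB4 [(33596375040, 3054501888), (274877906944, 274877906944), (103079215104, 34359738368)] :=
  covD_E kB4_eq (.n 2 (.n 2 (.l 1) (.n 0 (.l 1) (.l 1))) (.n 1 (.n 2 (.l 1) (.l 1)) (.n 0 (.n 2 (.l 1) (.n 1 (.l 1) (.n 0 (.l 1) (.l 0)))) (.n 0 (.n 2 (.l 1) (.n 1 (.l 1) (.l 0))) (.n 1 (.n 2 (.l 1) (.l 0)) (.l 0))))))
    [(33596375040, 3054501888), (274877906944, 274877906944), (103079215104, 34359738368)] rfl (by decide +kernel)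
end

mutual
theorem B4_c0_t15 : CovD 1 gB4 [(33596375040, 3054501888), (687194767360, 137438953472), (68719476736, 68719476736)] :=
  covD_E kB4_eq (.n 2 (.n 2 (.n 2 (.l 1) (.l 1)) (.n 2 (.l 1) (.n 0 (.l 1) (.l 1)))) (.n 0 (.n 2 (.n 2 (.l 1) (.n 1 (.l 1) (.l 0))) (.n 2 (.n 2 (.l 0) (.l 0)) (.l 0))) (.n 2 (.n 2 (.n 1 (.l 1) (.l 0)) (.l 0)) (.n 1 (.l 0) (.l 0)))))
    [(33596375040, 3054501888), (687194767360, 137438953472), (68719476736, 68719476736)] rfl (by decide +kernel)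
theorem B4_c0_t17 : CovD 1 gB4 [(33596375040, 3054501888), (962072674304, 137438953472), (34359738368, 34359738368)] :=
  covD_E kB4_eq (.n 2 (.n 2 (.n 2 (.l 1) (.l 1)) (.n 0 (.l 1) (.n 1 (.l 1) (.l 0)))) (.n 0 (.n 1 (.n 2 (.l 1) (.l 1)) (.n 2 (.l 0) (.l 0))) (.n 2 (.l 0) (.l 0))))
    [(33596375040, 3054501888), (962072674304, 137438953472), (34359738368, 34359738368)] rfl (by decide +kernel)
end

mutual
theorem B4_c0_t18 : CovD 1 gB4 [(33596375040, 3054501888), (962072674304, 137438953472), (103079215104, 34359738368)] :=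
  covD_E kB4_eq (.n 0 (.n 2 (.n 2 (.l 0) (.l 0)) (.n 1 (.l 0) (.l 0))) (.n 2 (.n 2 (.l 0) (.l 0)) (.n 0 (.l 0) (.l 0))))
    [(33596375040, 3054501888), (962072674304, 137438953472), (103079215104, 34359738368)] rfl (by decide +kernel)
theorem D4_c0_t3 : CovD 1 gD4 [(27487371264, 3054501888), (137438953472, 137438953472), (863610339328, 863610339328)] :=
  covD_E kD4_eq (.n 1 (.n 1 (.n 2 (.n 2 (.l 0) (.l 0)) (.n 2 (.l 0) (.l 0))) (.n 2 (.n 2 (.l 0) (.l 0)) (.n 2 (.l 0) (.l 0)))) (.n 2 (.n 0 (.n 2 (.l 0) (.l 0)) (.n 2 (.l 0) (.l 0))) (.n 2 (.n 1 (.l 0) (.l 0)) (.n 2 (.l 0) (.l 0)))))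
    [(27487371264, 3054501888), (137438953472, 137438953472), (863610339328, 863610339328)] rfl (by decide +kernel)
end

mutual
theorem D4_c0_t4 : CovD 1 gD4 [(27487371264, 3054501888), (412316860416, 137438953472), (863610339328, 863610339328)] :=
  covD_E kD4_eq (.n 1 (.n 2 (.n 2 (.n 0 (.l 0) (.l 0)) (.n 2 (.l 0) (.l 0))) (.n 2 (.n 2 (.l 0) (.l 0)) (.n 2 (.l 0) (.l 0)))) (.n 2 (.n 2 (.n 0 (.l 0) (.l 0)) (.n 2 (.l 0) (.l 0))) (.n 2 (.n 2 (.l 0) (.l 0)) (.n 2 (.l 0) (.l 0)))))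
    [(27487371264, 3054501888), (412316860416, 137438953472), (863610339328, 863610339328)] rfl (by decide +kernel)
theorem D4_c0_t7 : CovD 1 gD4 [(25960120320, 1527250944), (687194767360, 137438953472), (863610339328, 863610339328)] :=
  covD_E kD4_eq (.n 0 (.n 2 (.n 1 (.n 2 (.l 0) (.l 0)) (.n 2 (.l 0) (.l 0))) (.n 2 (.n 2 (.l 0) (.l 0)) (.n 2 (.l 0) (.l 0)))) (.n 2 (.n 1 (.n 2 (.l 0) (.l 0)) (.n 2 (.l 0) (.l 0))) (.n 2 (.n 2 (.l 0) (.l 0)) (.n 2 (.l 0) (.l 0)))))
    [(25960120320, 1527250944), (687194767360, 137438953472), (863610339328, 863610339328)] rfl (by decide +kernel)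
end

mutual
theorem D4_c0_t8 : CovD 1 gD4 [(25960120320, 1527250944), (962072674304, 137438953472), (863610339328, 863610339328)] :=
  covD_E kD4_eq (.n 1 (.n 2 (.n 0 (.n 2 (.l 0) (.l 0)) (.n 2 (.l 0) (.l 0))) (.n 2 (.n 2 (.l 0) (.l 0)) (.n 2 (.l 0) (.l 0)))) (.n 2 (.n 2 (.n 0 (.l 0) (.l 0)) (.n 2 (.l 0) (.l 0))) (.n 2 (.n 2 (.l 0) (.l 0)) (.n 2 (.l 0) (.l 0)))))
    [(25960120320, 1527250944), (962072674304, 137438953472), (863610339328, 863610339328)] rfl (by decide +kernel)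
theorem D4_c0_t10 : CovD 1 gD4 [(29014622208, 1527250944), (687194767360, 137438953472), (863610339328, 863610339328)] :=
  covD_E kD4_eq (.n 1 (.n 2 (.n 2 (.l 0) (.n 0 (.l 0) (.l 0))) (.n 1 (.n 2 (.l 0) (.l 0)) (.n 2 (.l 0) (.l 0)))) (.n 2 (.n 2 (.l 0) (.n 0 (.l 0) (.l 0))) (.n 1 (.n 2 (.l 0) (.l 0)) (.n 2 (.l 0) (.l 0)))))
    [(29014622208, 1527250944), (687194767360, 137438953472), (863610339328, 863610339328)] rfl (by decide +kernel)
end

mutual
theorem D4_c0_t11 : CovD 1 gD4 [(29014622208, 1527250944), (962072674304, 137438953472), (863610339328, 863610339328)] :=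
  covD_E kD4_eq (.n 2 (.n 2 (.n 2 (.l 0) (.n 0 (.l 0) (.l 0))) (.n 0 (.n 1 (.l 0) (.l 0)) (.n 1 (.l 0) (.l 0)))) (.n 0 (.n 2 (.n 2 (.l 0) (.l 0)) (.n 2 (.l 0) (.l 0))) (.n 2 (.n 2 (.l 0) (.l 0)) (.n 2 (.l 0) (.l 0)))))
    [(29014622208, 1527250944), (962072674304, 137438953472), (863610339328, 863610339328)] rfl (by decide +kernel)
theorem D4_c0_t14 : CovD 1 gD4 [(33596375040, 3054501888), (137438953472, 137438953472), (863610339328, 863610339328)] :=
  covD_E kD4_eq (.n 1 (.n 2 (.n 2 (.l 0) (.n 0 (.l 0) (.l 0))) (.n 0 (.n 2 (.l 0) (.l 0)) (.n 2 (.l 0) (.l 0)))) (.n 2 (.n 2 (.l 0) (.n 0 (.l 0) (.l 0))) (.n 1 (.n 2 (.l 0) (.l 0)) (.n 2 (.l 0) (.l 0)))))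
    [(33596375040, 3054501888), (137438953472, 137438953472), (863610339328, 863610339328)] rfl (by decide +kernel)
end

mutual
theorem D4_c0_t15 : CovD 1 gD4 [(33596375040, 3054501888), (412316860416, 137438953472), (863610339328, 863610339328)] :=
  covD_E kD4_eq (.n 0 (.n 2 (.n 1 (.n 2 (.l 0) (.l 0)) (.n 2 (.l 0) (.l 0))) (.n 2 (.n 2 (.l 0) (.l 0)) (.n 2 (.l 0) (.l 0)))) (.n 2 (.n 1 (.n 2 (.l 0) (.l 0)) (.n 2 (.l 0) (.l 0))) (.n 2 (.n 2 (.l 0) (.l 0)) (.n 2 (.l 0) (.l 0)))))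
    [(33596375040, 3054501888), (412316860416, 137438953472), (863610339328, 863610339328)] rfl (by decide +kernel)
theorem D4_c0_t17 : CovD 1 gD4 [(33596375040, 3054501888), (687194767360, 137438953472), (863610339328, 863610339328)] :=
  covD_E kD4_eq (.n 1 (.n 2 (.n 2 (.n 0 (.l 0) (.l 0)) (.n 2 (.l 0) (.l 0))) (.n 2 (.n 2 (.l 0) (.l 0)) (.n 2 (.l 0) (.l 0)))) (.n 2 (.n 2 (.n 0 (.l 0) (.l 0)) (.n 2 (.l 0) (.l 0))) (.n 2 (.n 2 (.l 0) (.l 0)) (.n 2 (.l 0) (.l 0)))))
    [(33596375040, 3054501888), (687194767360, 137438953472), (863610339328, 863610339328)] rfl (by decide +kernel)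
end

mutual
theorem D4_c0_t19 : CovD 1 gD4 [(32069124096, 1527250944), (962072674304, 137438953472), (863610339328, 863610339328)] :=
  covD_E kD4_eq (.n 2 (.n 2 (.n 2 (.l 0) (.l 0)) (.n 0 (.n 1 (.l 0) (.l 0)) (.n 1 (.l 0) (.l 0)))) (.n 0 (.n 2 (.n 2 (.l 0) (.l 0)) (.n 2 (.l 0) (.l 0))) (.n 2 (.n 2 (.l 0) (.l 0)) (.n 2 (.l 0) (.l 0)))))
    [(32069124096, 1527250944), (962072674304, 137438953472), (863610339328, 863610339328)] rfl (by decide +kernel)
theorem D4_c0_t20 : CovD 1 gD4 [(35123625984, 1527250944), (962072674304, 137438953472), (863610339328, 863610339328)] :=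
  covD_E kD4_eq (.n 2 (.n 2 (.n 1 (.l 0) (.l 0)) (.n 2 (.l 0) (.l 0))) (.n 2 (.n 2 (.l 0) (.n 0 (.l 0) (.l 0))) (.n 2 (.l 0) (.l 0))))
    [(35123625984, 1527250944), (962072674304, 137438953472), (863610339328, 863610339328)] rfl (by decide +kernel)
end

theorem A4_c0_t7 : CovD 1 gA4 [(25960120320, 1527250944), (137438953472, 137438953472), (5497558138880, 1099511627776)] :=
  covD_split 1 (by decide +kernel) A4_c0_t8 A4_c0_t9

theorem A4_c0_t6 : CovD 1 gA4 [(27487371264, 3054501888), (137438953472, 137438953472), (5497558138880, 1099511627776)] :=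
  covD_split 0 (by decide +kernel) A4_c0_t7 A4_c0_t10

theorem A4_c0_t5 : CovD 1 gA4 [(27487371264, 3054501888), (137438953472, 137438953472), (6597069766656, 2199023255552)] :=
  covD_split 2 (by decide +kernel) A4_c0_t6 A4_c0_t11

theorem A4_c0_t3 : CovD 1 gA4 [(27487371264, 3054501888), (137438953472, 137438953472), (4398046511104, 4398046511104)] :=
  covD_split 2 (by decide +kernel) A4_c0_t4 A4_c0_t5

theorem A4_c0_t16 : CovD 1 gA4 [(27487371264, 3054501888), (412316860416, 137438953472), (7696581394432, 1099511627776)] :=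
  covD_split 0 (by decide +kernel) A4_c0_t17 A4_c0_t18

theorem A4_c0_t14 : CovD 1 gA4 [(27487371264, 3054501888), (412316860416, 137438953472), (6597069766656, 2199023255552)] :=
  covD_split 2 (by decide +kernel) A4_c0_t15 A4_c0_t16

theorem A4_c0_t12 : CovD 1 gA4 [(27487371264, 3054501888), (412316860416, 137438953472), (4398046511104, 4398046511104)] :=
  covD_split 2 (by decide +kernel) A4_c0_t13 A4_c0_t14

theorem A4_c0_t2 : CovD 1 gA4 [(27487371264, 3054501888), (274877906944, 274877906944), (4398046511104, 4398046511104)] :=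
  covD_split 1 (by decide +kernel) A4_c0_t3 A4_c0_t12

theorem A4_c0_t20 : CovD 1 gA4 [(27487371264, 3054501888), (687194767360, 137438953472), (4398046511104, 4398046511104)] :=
  covD_split 1 (by decide +kernel) A4_c0_t21 A4_c0_t22

theorem A4_c0_t19 : CovD 1 gA4 [(27487371264, 3054501888), (824633720832, 274877906944), (4398046511104, 4398046511104)] :=
  covD_split 1 (by decide +kernel) A4_c0_t20 A4_c0_t23

theorem A4_c0_t1 : CovD 1 gA4 [(27487371264, 3054501888), (549755813888, 549755813888), (4398046511104, 4398046511104)] :=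
  covD_split 1 (by decide +kernel) A4_c0_t2 A4_c0_t19

theorem A4_c0_t28 : CovD 1 gA4 [(33596375040, 3054501888), (137438953472, 137438953472), (6597069766656, 2199023255552)] :=
  covD_split 0 (by decide +kernel) A4_c0_t29 A4_c0_t30

theorem A4_c0_t26 : CovD 1 gA4 [(33596375040, 3054501888), (137438953472, 137438953472), (4398046511104, 4398046511104)] :=
  covD_split 2 (by decide +kernel) A4_c0_t27 A4_c0_t28

theorem A4_c0_t31 : CovD 1 gA4 [(33596375040, 3054501888), (412316860416, 137438953472), (4398046511104, 4398046511104)] :=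
  covD_split 0 (by decide +kernel) A4_c0_t32 A4_c0_t33

theorem A4_c0_t25 : CovD 1 gA4 [(33596375040, 3054501888), (274877906944, 274877906944), (4398046511104, 4398046511104)] :=
  covD_split 1 (by decide +kernel) A4_c0_t26 A4_c0_t31

theorem A4_c0_t34 : CovD 1 gA4 [(33596375040, 3054501888), (824633720832, 274877906944), (4398046511104, 4398046511104)] :=
  covD_split 1 (by decide +kernel) A4_c0_t35 A4_c0_t36

theorem A4_c0_t24 : CovD 1 gA4 [(33596375040, 3054501888), (549755813888, 549755813888), (4398046511104, 4398046511104)] :=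
  covD_split 1 (by decide +kernel) A4_c0_t25 A4_c0_t34

theorem A4_c0 : CovD 1 gA4 [(30541873152, 6109003776), (549755813888, 549755813888), (4398046511104, 4398046511104)] :=
  covD_split 0 (by decide +kernel) A4_c0_t1 A4_c0_t24

theorem B4_c0_t6 : CovD 1 gB4 [(25960120320, 1527250944), (824633720832, 274877906944), (103079215104, 34359738368)] :=
  covD_split 2 (by decide +kernel) B4_c0_t7 B4_c0_t8

theorem B4_c0_t5 : CovD 1 gB4 [(27487371264, 3054501888), (824633720832, 274877906944), (103079215104, 34359738368)] :=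
  covD_split 0 (by decide +kernel) B4_c0_t6 B4_c0_t9

theorem B4_c0_t3 : CovD 1 gB4 [(27487371264, 3054501888), (824633720832, 274877906944), (68719476736, 68719476736)] :=
  covD_split 2 (by decide +kernel) B4_c0_t4 B4_c0_t5

theorem B4_c0_t1 : CovD 1 gB4 [(27487371264, 3054501888), (549755813888, 549755813888), (68719476736, 68719476736)] :=
  covD_split 1 (by decide +kernel) B4_c0_t2 B4_c0_t3

theorem B4_c0_t11 : CovD 1 gB4 [(33596375040, 3054501888), (274877906944, 274877906944), (68719476736, 68719476736)] :=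
  covD_split 2 (by decide +kernel) B4_c0_t12 B4_c0_t13

theorem B4_c0_t16 : CovD 1 gB4 [(33596375040, 3054501888), (962072674304, 137438953472), (68719476736, 68719476736)] :=
  covD_split 2 (by decide +kernel) B4_c0_t17 B4_c0_t18

theorem B4_c0_t14 : CovD 1 gB4 [(33596375040, 3054501888), (824633720832, 274877906944), (68719476736, 68719476736)] :=
  covD_split 1 (by decide +kernel) B4_c0_t15 B4_c0_t16

theorem B4_c0_t10 : CovD 1 gB4 [(33596375040, 3054501888), (549755813888, 549755813888), (68719476736, 68719476736)] :=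
  covD_split 1 (by decide +kernel) B4_c0_t11 B4_c0_t14

theorem B4_c0 : CovD 1 gB4 [(30541873152, 6109003776), (549755813888, 549755813888), (68719476736, 68719476736)] :=
  covD_split 0 (by decide +kernel) B4_c0_t1 B4_c0_t10

theorem D4_c0_t2 : CovD 1 gD4 [(27487371264, 3054501888), (274877906944, 274877906944), (863610339328, 863610339328)] :=
  covD_split 1 (by decide +kernel) D4_c0_t3 D4_c0_t4

theorem D4_c0_t6 : CovD 1 gD4 [(25960120320, 1527250944), (824633720832, 274877906944), (863610339328, 863610339328)] :=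
  covD_split 1 (by decide +kernel) D4_c0_t7 D4_c0_t8

theorem D4_c0_t9 : CovD 1 gD4 [(29014622208, 1527250944), (824633720832, 274877906944), (863610339328, 863610339328)] :=
  covD_split 1 (by decide +kernel) D4_c0_t10 D4_c0_t11

theorem D4_c0_t5 : CovD 1 gD4 [(27487371264, 3054501888), (824633720832, 274877906944), (863610339328, 863610339328)] :=
  covD_split 0 (by decide +kernel) D4_c0_t6 D4_c0_t9

theorem D4_c0_t1 : CovD 1 gD4 [(27487371264, 3054501888), (549755813888, 549755813888), (863610339328, 863610339328)] :=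
  covD_split 1 (by decide +kernel) D4_c0_t2 D4_c0_t5

theorem D4_c0_t13 : CovD 1 gD4 [(33596375040, 3054501888), (274877906944, 274877906944), (863610339328, 863610339328)] :=
  covD_split 1 (by decide +kernel) D4_c0_t14 D4_c0_t15

theorem D4_c0_t18 : CovD 1 gD4 [(33596375040, 3054501888), (962072674304, 137438953472), (863610339328, 863610339328)] :=
  covD_split 0 (by decide +kernel) D4_c0_t19 D4_c0_t20

theorem D4_c0_t16 : CovD 1 gD4 [(33596375040, 3054501888), (824633720832, 274877906944), (863610339328, 863610339328)] :=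
  covD_split 1 (by decide +kernel) D4_c0_t17 D4_c0_t18

theorem D4_c0_t12 : CovD 1 gD4 [(33596375040, 3054501888), (549755813888, 549755813888), (863610339328, 863610339328)] :=
  covD_split 1 (by decide +kernel) D4_c0_t13 D4_c0_t16

theorem D4_c0 : CovD 1 gD4 [(30541873152, 6109003776), (549755813888, 549755813888), (863610339328, 863610339328)] :=
  covD_split 0 (by decide +kernel) D4_c0_t1 D4_c0_t12

end Pool.Agent.helper14.NS.Q30e
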