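import Pool.Agent.helper14.NS.Q30e.PN4

/-!
Generated: certificates.
-/

namespace Pool.Agent.helper14.NS.Q30e

open Pool.Agent.helper31.IA (Z)
open Pool.Agent.helper31.IX (Op XOps runX Cov CovD cov_split covD_split)
open Pool.Agent.helper31.IC (TD)
open Pool.Agent.helper63.RG (reloc)
open Pool.Agent.helper63.NF hiding TD
open Pool.Agent.helper4.NS
open Pool.Agent.helper14.CF (xE covD_E)
open Pool.Agent.helper14.NR (share)

mutual
theorem E4_c0_t3 : CovD 1 gE4 [(30541873152, 6109003776), (137438953472, 137438953472), (431805169664, 431805169664)] :=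
  covD_E kE4_eq (.n 2 (.n 2 (.l 1) (.l 1)) (.n 0 (.n 2 (.n 2 (.l 1) (.n 1 (.l 0) (.l 1))) (.n 1 (.n 2 (.l 0) (.l 0)) (.n 2 (.l 0) (.l 0)))) (.n 2 (.l 1) (.n 1 (.n 2 (.l 1) (.l 0)) (.l 1)))))
    [(30541873152, 6109003776), (137438953472, 137438953472), (431805169664, 431805169664)] rfl (by decide +kernel)
theorem E4_c0_t5 : CovD 1 gE4 [(27487371264, 3054501888), (137438953472, 137438953472), (1295415508992, 431805169664)] :=
  covD_E kE4_eq (.n 1 (.n 2 (.n 2 (.n 0 (.l 0) (.l 0)) (.l 0)) (.n 2 (.l 0) (.l 0))) (.n 2 (.n 2 (.l 0) (.l 0)) (.n 2 (.l 0) (.l 0))))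
    [(27487371264, 3054501888), (137438953472, 137438953472), (1295415508992, 431805169664)] rfl (by decide +kernel)
end

mutual
theorem E4_c0_t6 : CovD 1 gE4 [(33596375040, 3054501888), (137438953472, 137438953472), (1295415508992, 431805169664)] :=
  covD_E kE4_eq (.n 1 (.n 2 (.n 2 (.l 0) (.l 0)) (.n 2 (.l 0) (.l 0))) (.n 2 (.n 2 (.n 0 (.l 0) (.l 0)) (.l 0)) (.n 2 (.l 0) (.l 0))))
    [(33596375040, 3054501888), (137438953472, 137438953472), (1295415508992, 431805169664)] rfl (by decide +kernel)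
theorem E4_c0_t8 : CovD 1 gE4 [(30541873152, 6109003776), (412316860416, 137438953472), (431805169664, 431805169664)] :=
  covD_E kE4_eq (.n 2 (.n 2 (.l 1) (.n 0 (.l 1) (.l 1))) (.n 0 (.n 1 (.n 2 (.l 1) (.n 2 (.n 0 (.l 0) (.l 0)) (.l 0))) (.n 2 (.l 1) (.n 2 (.n 0 (.l 0) (.l 0)) (.l 0)))) (.n 2 (.l 1) (.n 0 (.l 1) (.l 1)))))
    [(30541873152, 6109003776), (412316860416, 137438953472), (431805169664, 431805169664)] rfl (by decide +kernel)
end

mutual
theorem E4_c0_t10 : CovD 1 gE4 [(30541873152, 6109003776), (343597383680, 68719476736), (1295415508992, 431805169664)] :=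
  covD_E kE4_eq (.n 0 (.n 2 (.n 0 (.n 2 (.l 0) (.l 0)) (.n 2 (.l 0) (.l 0))) (.n 2 (.l 0) (.l 0))) (.n 2 (.n 2 (.n 2 (.l 0) (.l 0)) (.l 0)) (.n 2 (.l 0) (.l 0))))
    [(30541873152, 6109003776), (343597383680, 68719476736), (1295415508992, 431805169664)] rfl (by decide +kernel)
theorem E4_c0_t11 : CovD 1 gE4 [(30541873152, 6109003776), (481036337152, 68719476736), (1295415508992, 431805169664)] :=
  covD_E kE4_eq (.n 0 (.n 2 (.n 0 (.n 2 (.l 0) (.l 0)) (.n 2 (.l 0) (.l 0))) (.n 2 (.n 0 (.l 0) (.l 0)) (.l 0))) (.n 2 (.n 0 (.n 2 (.l 0) (.l 0)) (.n 2 (.l 1) (.l 0))) (.n 2 (.l 0) (.l 0))))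
    [(30541873152, 6109003776), (481036337152, 68719476736), (1295415508992, 431805169664)] rfl (by decide +kernel)
end

mutual
theorem E4_c0_t14 : CovD 1 gE4 [(30541873152, 6109003776), (824633720832, 274877906944), (215902584832, 215902584832)] :=
  covD_E kE4_eq (.n 2 (.n 2 (.l 1) (.n 1 (.l 1) (.l 1))) (.n 1 (.n 2 (.l 1) (.l 1)) (.n 2 (.l 1) (.n 0 (.l 1) (.l 1)))))
    [(30541873152, 6109003776), (824633720832, 274877906944), (215902584832, 215902584832)] rfl (by decide +kernel)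
theorem E4_c0_t15 : CovD 1 gE4 [(30541873152, 6109003776), (824633720832, 274877906944), (647707754496, 215902584832)] :=
  covD_E kE4_eq (.n 0 (.n 1 (.n 2 (.n 1 (.l 1) (.l 1)) (.n 0 (.n 2 (.l 1) (.n 0 (.l 0) (.l 0))) (.n 0 (.l 1) (.l 1)))) (.n 1 (.n 2 (.l 1) (.l 1)) (.n 2 (.l 1) (.l 1)))) (.n 1 (.n 2 (.l 1) (.l 1)) (.n 2 (.l 1) (.l 1))))
    [(30541873152, 6109003776), (824633720832, 274877906944), (647707754496, 215902584832)] rfl (by decide +kernel)
end

mutual
theorem E4_c0_t19 : CovD 1 gE4 [(25960120320, 1527250944), (687194767360, 137438953472), (1295415508992, 431805169664)] :=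
  covD_E kE4_eq (.n 1 (.n 2 (.n 2 (.l 0) (.l 0)) (.n 2 (.l 0) (.l 0))) (.n 2 (.n 2 (.l 0) (.l 0)) (.n 2 (.l 0) (.l 0))))
    [(25960120320, 1527250944), (687194767360, 137438953472), (1295415508992, 431805169664)] rfl (by decide +kernel)
theorem E4_c0_t20 : CovD 1 gE4 [(25960120320, 1527250944), (962072674304, 137438953472), (1295415508992, 431805169664)] :=
  covD_E kE4_eq (.n 1 (.n 2 (.n 2 (.n 0 (.l 0) (.l 0)) (.l 0)) (.n 2 (.l 0) (.l 0))) (.n 2 (.n 0 (.n 2 (.l 0) (.l 0)) (.n 2 (.l 1) (.l 0))) (.n 2 (.l 0) (.l 0))))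
    [(25960120320, 1527250944), (962072674304, 137438953472), (1295415508992, 431805169664)] rfl (by decide +kernel)
end

mutual
theorem E4_c0_t22 : CovD 1 gE4 [(29014622208, 1527250944), (687194767360, 137438953472), (1295415508992, 431805169664)] :=
  covD_E kE4_eq (.n 1 (.n 2 (.n 2 (.l 0) (.l 0)) (.n 2 (.l 0) (.l 0))) (.n 2 (.n 2 (.n 0 (.l 0) (.l 0)) (.l 0)) (.n 2 (.l 0) (.l 0))))
    [(29014622208, 1527250944), (687194767360, 137438953472), (1295415508992, 431805169664)] rfl (by decide +kernel)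
theorem E4_c0_t23 : CovD 1 gE4 [(29014622208, 1527250944), (962072674304, 137438953472), (1295415508992, 431805169664)] :=
  covD_E kE4_eq (.n 1 (.n 2 (.n 2 (.l 1) (.l 0)) (.n 2 (.l 0) (.l 0))) (.n 2 (.n 2 (.l 1) (.n 0 (.l 0) (.l 0))) (.n 2 (.l 0) (.l 0))))
    [(29014622208, 1527250944), (962072674304, 137438953472), (1295415508992, 431805169664)] rfl (by decide +kernel)
end

mutual
theorem E4_c0_t25 : CovD 1 gE4 [(33596375040, 3054501888), (687194767360, 137438953472), (1295415508992, 431805169664)] :=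
  covD_E kE4_eq (.n 1 (.n 2 (.n 2 (.n 2 (.l 1) (.l 1)) (.n 0 (.l 0) (.l 0))) (.n 2 (.n 0 (.l 0) (.l 0)) (.l 0))) (.n 2 (.n 2 (.l 1) (.n 0 (.l 0) (.l 1))) (.n 0 (.n 2 (.l 0) (.l 0)) (.n 2 (.l 0) (.l 0)))))
    [(33596375040, 3054501888), (687194767360, 137438953472), (1295415508992, 431805169664)] rfl (by decide +kernel)
theorem E4_c0_t26 : CovD 1 gE4 [(33596375040, 3054501888), (962072674304, 137438953472), (1295415508992, 431805169664)] :=
  covD_E kE4_eq (.n 2 (.n 2 (.l 1) (.n 0 (.n 0 (.n 1 (.l 0) (.l 0)) (.l 1)) (.l 1))) (.n 0 (.n 1 (.n 2 (.l 0) (.l 0)) (.n 2 (.l 0) (.l 0))) (.n 1 (.n 2 (.l 0) (.l 0)) (.n 2 (.l 1) (.l 0)))))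
    [(33596375040, 3054501888), (962072674304, 137438953472), (1295415508992, 431805169664)] rfl (by decide +kernel)
end

theorem E4_c0_t4 : CovD 1 gE4 [(30541873152, 6109003776), (137438953472, 137438953472), (1295415508992, 431805169664)] :=
  covD_split 0 (by decide +kernel) E4_c0_t5 E4_c0_t6

theorem E4_c0_t2 : CovD 1 gE4 [(30541873152, 6109003776), (137438953472, 137438953472), (863610339328, 863610339328)] :=
  covD_split 2 (by decide +kernel) E4_c0_t3 E4_c0_t4

theorem E4_c0_t9 : CovD 1 gE4 [(30541873152, 6109003776), (412316860416, 137438953472), (1295415508992, 431805169664)] :=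
  covD_split 1 (by decide +kernel) E4_c0_t10 E4_c0_t11

theorem E4_c0_t7 : CovD 1 gE4 [(30541873152, 6109003776), (412316860416, 137438953472), (863610339328, 863610339328)] :=
  covD_split 2 (by decide +kernel) E4_c0_t8 E4_c0_t9

theorem E4_c0_t1 : CovD 1 gE4 [(30541873152, 6109003776), (274877906944, 274877906944), (863610339328, 863610339328)] :=
  covD_split 1 (by decide +kernel) E4_c0_t2 E4_c0_t7

theorem E4_c0_t13 : CovD 1 gE4 [(30541873152, 6109003776), (824633720832, 274877906944), (431805169664, 431805169664)] :=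
  covD_split 2 (by decide +kernel) E4_c0_t14 E4_c0_t15

theorem E4_c0_t18 : CovD 1 gE4 [(25960120320, 1527250944), (824633720832, 274877906944), (1295415508992, 431805169664)] :=
  covD_split 1 (by decide +kernel) E4_c0_t19 E4_c0_t20

theorem E4_c0_t21 : CovD 1 gE4 [(29014622208, 1527250944), (824633720832, 274877906944), (1295415508992, 431805169664)] :=
  covD_split 1 (by decide +kernel) E4_c0_t22 E4_c0_t23

theorem E4_c0_t17 : CovD 1 gE4 [(27487371264, 3054501888), (824633720832, 274877906944), (1295415508992, 431805169664)] :=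
  covD_split 0 (by decide +kernel) E4_c0_t18 E4_c0_t21

theorem E4_c0_t24 : CovD 1 gE4 [(33596375040, 3054501888), (824633720832, 274877906944), (1295415508992, 431805169664)] :=
  covD_split 1 (by decide +kernel) E4_c0_t25 E4_c0_t26

theorem E4_c0_t16 : CovD 1 gE4 [(30541873152, 6109003776), (824633720832, 274877906944), (1295415508992, 431805169664)] :=
  covD_split 0 (by decide +kernel) E4_c0_t17 E4_c0_t24

theorem E4_c0_t12 : CovD 1 gE4 [(30541873152, 6109003776), (824633720832, 274877906944), (863610339328, 863610339328)] :=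
  covD_split 2 (by decide +kernel) E4_c0_t13 E4_c0_t16

theorem E4_c0 : CovD 1 gE4 [(30541873152, 6109003776), (549755813888, 549755813888), (863610339328, 863610339328)] :=
  covD_split 1 (by decide +kernel) E4_c0_t1 E4_c0_t12

end Pool.Agent.helper14.NS.Q30e
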