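import Pool.Agent.helper14.NS.Q30e.PZ

/-!
Generated: certificates.
-/

namespace Pool.Agent.helper14.NS.Q30e

open Pool.Agent.helper31.IA (Z)
open Pool.Agent.helper31.IX (Op XOps runX Cov CovD cov_split covD_split)
open Pool.Agent.helper31.IC (TD)
open Pool.Agent.helper63.RG (reloc)
open Pool.Agent.helper63.NF hiding TD
open Pool.Agent.helper4.NS
open Pool.Agent.helper14.CF (xE covD_E)
open Pool.Agent.helper14.NR (share)

mutual
theorem Z_c0_t5 : CovD 1 gZ [(27487371264, 3054501888), (68719476736, 68719476736), (178643795968, 178643795968)] :=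
  covD_E kZ_eq (.n 0 (.n 2 (.n 2 (.l 0) (.l 0)) (.n 2 (.l 0) (.l 0))) (.n 2 (.n 2 (.l 0) (.l 0)) (.n 2 (.l 0) (.l 0))))
    [(27487371264, 3054501888), (68719476736, 68719476736), (178643795968, 178643795968)] rfl (by decide +kernel)
theorem Z_c0_t6 : CovD 1 gZ [(27487371264, 3054501888), (68719476736, 68719476736), (535931387904, 178643795968)] :=
  covD_E kZ_eq (.n 2 (.n 0 (.n 2 (.l 0) (.l 0)) (.n 2 (.l 0) (.l 0))) (.n 2 (.n 0 (.l 0) (.l 0)) (.n 2 (.l 0) (.n 2 (.l 0) (.n 0 (.n 1 (.n 2 (.l 0) (.l 0)) (.l 0)) (.n 2 (.l 0) (.n 0 (.l 0) (.n 0 (.l 0) (.l 0)))))))))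
    [(27487371264, 3054501888), (68719476736, 68719476736), (535931387904, 178643795968)] rfl (by decide +kernel)
end

mutual
theorem Z_c0_t7 : CovD 1 gZ [(27487371264, 3054501888), (206158430208, 68719476736), (357287591936, 357287591936)] :=
  covD_E kZ_eq (.n 2 (.n 2 (.n 2 (.l 0) (.l 0)) (.n 2 (.l 0) (.l 0))) (.n 2 (.n 2 (.l 0) (.l 0)) (.n 2 (.l 0) (.n 2 (.l 0) (.n 2 (.l 0) (.n 0 (.l 0) (.l 0)))))))
    [(27487371264, 3054501888), (206158430208, 68719476736), (357287591936, 357287591936)] rfl (by decide +kernel)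
theorem Z_c0_t8 : CovD 1 gZ [(27487371264, 3054501888), (412316860416, 137438953472), (357287591936, 357287591936)] :=
  covD_E kZ_eq (.n 2 (.n 2 (.n 2 (.l 0) (.l 0)) (.n 2 (.l 0) (.l 0))) (.n 2 (.n 0 (.n 2 (.l 0) (.l 0)) (.n 2 (.l 0) (.l 0))) (.n 2 (.n 0 (.l 0) (.l 0)) (.n 2 (.l 0) (.n 2 (.l 0) (.n 0 (.n 0 (.l 0) (.l 0)) (.l 0)))))))
    [(27487371264, 3054501888), (412316860416, 137438953472), (357287591936, 357287591936)] rfl (by decide +kernel)
end

mutual
theorem Z_c0_t10 : CovD 1 gZ [(27487371264, 3054501888), (687194767360, 137438953472), (357287591936, 357287591936)] :=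
  covD_E kZ_eq (.n 2 (.n 2 (.l 0) (.n 0 (.l 0) (.l 0))) (.n 2 (.n 2 (.l 0) (.l 0)) (.n 2 (.l 0) (.n 2 (.l 0) (.n 1 (.l 0) (.l 0))))))
    [(27487371264, 3054501888), (687194767360, 137438953472), (357287591936, 357287591936)] rfl (by decide +kernel)
theorem Z_c0_t11 : CovD 1 gZ [(27487371264, 3054501888), (962072674304, 137438953472), (357287591936, 357287591936)] :=
  covD_E kZ_eq (.n 2 (.n 2 (.l 0) (.l 0)) (.n 2 (.n 0 (.l 0) (.l 0)) (.n 2 (.l 0) (.n 2 (.l 0) (.n 1 (.l 0) (.l 0))))))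
    [(27487371264, 3054501888), (962072674304, 137438953472), (357287591936, 357287591936)] rfl (by decide +kernel)
end

mutual
theorem Z_c0_t16 : CovD 1 gZ [(33596375040, 3054501888), (68719476736, 68719476736), (178643795968, 178643795968)] :=
  covD_E kZ_eq (.n 2 (.n 2 (.l 0) (.l 0)) (.n 2 (.l 0) (.l 0)))
    [(33596375040, 3054501888), (68719476736, 68719476736), (178643795968, 178643795968)] rfl (by decide +kernel)
theorem Z_c0_t18 : CovD 1 gZ [(33596375040, 3054501888), (68719476736, 68719476736), (446609489920, 89321897984)] :=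
  covD_E kZ_eq (.n 2 (.l 0) (.l 0))
    [(33596375040, 3054501888), (68719476736, 68719476736), (446609489920, 89321897984)] rfl (by decide +kernel)
end

mutual
theorem Z_c0_t20 : CovD 1 gZ [(32069124096, 1527250944), (68719476736, 68719476736), (625253285888, 89321897984)] :=
  covD_E kZ_eq (.n 2 (.l 0) (.n 2 (.l 0) (.n 2 (.l 0) (.n 2 (.l 0) (.n 1 (.n 2 (.l 0) (.n 0 (.l 0) (.l 0))) (.l 0))))))
    [(32069124096, 1527250944), (68719476736, 68719476736), (625253285888, 89321897984)] rfl (by decide +kernel)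
theorem Z_c0_t21 : CovD 1 gZ [(35123625984, 1527250944), (68719476736, 68719476736), (625253285888, 89321897984)] :=
  covD_E kZ_eq (.n 2 (.l 0) (.n 2 (.l 0) (.n 2 (.l 0) (.n 2 (.l 0) (.n 2 (.l 0) (.n 1 (.n 2 (.l 0) (.n 1 (.n 0 (.l 0) (.n 2 (.l 0) (.n 0 (.l 0) (.n 2 (.l 0) (.l 0))))) (.l 0))) (.l 0)))))))
    [(35123625984, 1527250944), (68719476736, 68719476736), (625253285888, 89321897984)] rfl (by decide +kernel)
end

mutual
theorem Z_c0_t22 : CovD 1 gZ [(33596375040, 3054501888), (206158430208, 68719476736), (357287591936, 357287591936)] :=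
  covD_E kZ_eq (.n 2 (.n 0 (.n 2 (.l 0) (.l 0)) (.n 2 (.l 0) (.l 0))) (.n 2 (.n 2 (.l 0) (.l 0)) (.n 2 (.l 0) (.n 2 (.l 0) (.n 2 (.l 0) (.n 1 (.n 2 (.l 0) (.l 0)) (.l 0)))))))
    [(33596375040, 3054501888), (206158430208, 68719476736), (357287591936, 357287591936)] rfl (by decide +kernel)
theorem Z_c0_t23 : CovD 1 gZ [(33596375040, 3054501888), (412316860416, 137438953472), (357287591936, 357287591936)] :=
  covD_E kZ_eq (.n 2 (.n 1 (.n 2 (.l 0) (.l 0)) (.n 2 (.l 0) (.l 0))) (.n 2 (.n 2 (.l 0) (.l 0)) (.n 2 (.n 0 (.l 0) (.l 0)) (.n 2 (.l 0) (.n 2 (.l 0) (.n 0 (.l 0) (.l 0)))))))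
    [(33596375040, 3054501888), (412316860416, 137438953472), (357287591936, 357287591936)] rfl (by decide +kernel)
end

mutual
theorem Z_c0_t24 : CovD 1 gZ [(33596375040, 3054501888), (824633720832, 274877906944), (357287591936, 357287591936)] :=
  covD_E kZ_eq (.n 1 (.n 2 (.n 2 (.l 0) (.l 0)) (.n 2 (.n 2 (.l 0) (.l 0)) (.n 2 (.l 0) (.n 2 (.l 0) (.n 0 (.l 0) (.l 0)))))) (.n 2 (.n 2 (.l 0) (.l 0)) (.n 2 (.l 0) (.n 2 (.l 0) (.n 2 (.l 0) (.n 0 (.l 0) (.l 0)))))))
    [(33596375040, 3054501888), (824633720832, 274877906944), (357287591936, 357287591936)] rfl (by decide +kernel)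
theorem T_c0 : CovD 1 gT [(30541873152, 6109003776), (549755813888, 549755813888)] :=
  covD_E kT_eq (.n 1 (.n 1 (.n 0 (.l 0) (.l 0)) (.l 0)) (.n 0 (.n 1 (.l 0) (.l 0)) (.n 1 (.l 0) (.l 0))))
    [(30541873152, 6109003776), (549755813888, 549755813888)] rfl (by decide +kernel)
end

theorem S_c0 : CovD 0 gS [(30541873152, 6109003776), (549755813888, 549755813888)] :=
  covD_E kS_eq (.n 0 (.l 0) (.l 0))
    [(30541873152, 6109003776), (549755813888, 549755813888)] rfl (by decide +kernel)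

theorem Z_c0_t4 : CovD 1 gZ [(27487371264, 3054501888), (68719476736, 68719476736), (357287591936, 357287591936)] :=
  covD_split 2 (by decide +kernel) Z_c0_t5 Z_c0_t6

theorem Z_c0_t3 : CovD 1 gZ [(27487371264, 3054501888), (137438953472, 137438953472), (357287591936, 357287591936)] :=
  covD_split 1 (by decide +kernel) Z_c0_t4 Z_c0_t7

theorem Z_c0_t2 : CovD 1 gZ [(27487371264, 3054501888), (274877906944, 274877906944), (357287591936, 357287591936)] :=
  covD_split 1 (by decide +kernel) Z_c0_t3 Z_c0_t8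

theorem Z_c0_t9 : CovD 1 gZ [(27487371264, 3054501888), (824633720832, 274877906944), (357287591936, 357287591936)] :=
  covD_split 1 (by decide +kernel) Z_c0_t10 Z_c0_t11

theorem Z_c0_t1 : CovD 1 gZ [(27487371264, 3054501888), (549755813888, 549755813888), (357287591936, 357287591936)] :=
  covD_split 1 (by decide +kernel) Z_c0_t2 Z_c0_t9

theorem Z_c0_t19 : CovD 1 gZ [(33596375040, 3054501888), (68719476736, 68719476736), (625253285888, 89321897984)] :=
  covD_split 0 (by decide +kernel) Z_c0_t20 Z_c0_t21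

theorem Z_c0_t17 : CovD 1 gZ [(33596375040, 3054501888), (68719476736, 68719476736), (535931387904, 178643795968)] :=
  covD_split 2 (by decide +kernel) Z_c0_t18 Z_c0_t19

theorem Z_c0_t15 : CovD 1 gZ [(33596375040, 3054501888), (68719476736, 68719476736), (357287591936, 357287591936)] :=
  covD_split 2 (by decide +kernel) Z_c0_t16 Z_c0_t17

theorem Z_c0_t14 : CovD 1 gZ [(33596375040, 3054501888), (137438953472, 137438953472), (357287591936, 357287591936)] :=
  covD_split 1 (by decide +kernel) Z_c0_t15 Z_c0_t22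

theorem Z_c0_t13 : CovD 1 gZ [(33596375040, 3054501888), (274877906944, 274877906944), (357287591936, 357287591936)] :=
  covD_split 1 (by decide +kernel) Z_c0_t14 Z_c0_t23

theorem Z_c0_t12 : CovD 1 gZ [(33596375040, 3054501888), (549755813888, 549755813888), (357287591936, 357287591936)] :=
  covD_split 1 (by decide +kernel) Z_c0_t13 Z_c0_t24

theorem Z_c0 : CovD 1 gZ [(30541873152, 6109003776), (549755813888, 549755813888), (357287591936, 357287591936)] :=
  covD_split 0 (by decide +kernel) Z_c0_t1 Z_c0_t12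

end Pool.Agent.helper14.NS.Q30e
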