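import Pool.Agent.helper14.NS.Q30e.Tab
import Pool.Agent.helper14.NR.Share

/-!
Generated: programs and compiled forms.
-/

namespace Pool.Agent.helper14.NS.Q30e

open Pool.Agent.helper31.IA (Z)
open Pool.Agent.helper31.IX (Op XOps runX Cov CovD cov_split covD_split)
open Pool.Agent.helper31.IC (TD)
open Pool.Agent.helper63.RG (reloc)
open Pool.Agent.helper63.NF hiding TD
open Pool.Agent.helper4.NS
open Pool.Agent.helper14.CF (xE covD_E)
open Pool.Agent.helper14.NR (share)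

def p_Z_0 : List Op := [
  .const ⟨1099511627776, 0, 0, 0⟩,
  .scale ⟨1931567052095488, 0, 0, 0⟩ 1,
  .const ⟨0, 178447438577664, 0, 0⟩,
  .add 1 0,
  .mul 0 4,
  .const ⟨5548026101760, 0, 0, 0⟩,
  .add 1 0,
  .mul 8 0,
  .const ⟨2199023255552, 0, 0, 0⟩,
  .add 1 0,
  .mul 10 0,
  .scale ⟨2199023255552, 0, 0, 0⟩ 0,
  .exp 1,
  .neg 2,
  .exp 0,
  .mul 2 2,
  .mul 1 1,
  .mul 0 0,
  .add 2 1,
  .scale ⟨549755813888, 0, 0, 0⟩ 0,
  .scale ⟨2199023255552, 0, 0, 0⟩ 10,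
  .mul 10 10,
  .lt 0 68719476736,
  .scale ⟨9162596898, 0, 0, 0⟩ 0,
  .const ⟨183251937962, 0, 0, 0⟩,
  .add 1 0,
  .mul 0 3,
  .const ⟨1099511627776, 0, 0, 0⟩,
  .add 1 0,
  .const ⟨65536, 0, 0, 0⟩,
  .rball 1 0,
  .mul 9 0,
  .add 18 16,
  .scale ⟨549755813888, 0, 0, 0⟩ 0,
  .mul 2 0,
  .mul 3 3,
  .mul 35 0,
  .mul 2 2,
  .mul 37 0,
  .neg 17,
  .exp 0,
  .add 0 39,
  .pos 0,
  .log 0,
  .const ⟨30601641984, 0, 0, 0⟩,
  .sub 43 0,
  .const ⟨3238405341184, 0, 0, 0⟩,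
  .sub 35 0,
  .mul 0 0,
  .mul 0 1,
  .mul 4 2,
  .mul 5 5,
  .scale ⟨14712609536, 0, 0, 0⟩ 4,
  .scale ⟨0, 68899072, 0, 0⟩ 4,
  .add 1 0,
  .scale ⟨0, 24440896, 0, 0⟩ 5,
  .add 1 0,
  .scale ⟨604664106688, 0, 0, 0⟩ 11,
  .add 1 0,
  .scale ⟨0, 64963541632, 0, 0⟩ 8,
  .add 1 0,
  .scale ⟨2861906048, 0, 0, 0⟩ 9,
  .add 1 0,
  .const ⟨582892747904, 0, 0, 0⟩,
  .add 1 0,
  .scale ⟨0, 290691712, 0, 0⟩ 17,
  .scale ⟨71127296, 0, 0, 0⟩ 17,
  .add 1 0,
  .scale ⟨9005936640, 0, 0, 0⟩ 22,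
  .add 1 0,
  .scale ⟨25968023104, 0, 0, 0⟩ 19,
  .add 1 0,
  .const ⟨0, 2951279872, 0, 0⟩,
  .add 1 0,
  .scale ⟨0, 114479872, 0, 0⟩ 26,
  .scale ⟨0, 1242112, 0, 0⟩ 26,
  .add 1 0,
  .scale ⟨0, 5675819520, 0, 0⟩ 31,
  .add 1 0,
  .const ⟨61567552, 0, 0, 0⟩,
  .add 1 0,
  .scale ⟨11835776, 0, 0, 0⟩ 33,
  .scale ⟨120670592, 0, 0, 0⟩ 36,
  .add 1 0,
  .const ⟨11992128, 0, 0, 0⟩,
  .add 1 0,
  .scale ⟨0, 375744, 0, 0⟩ 38,
  .const ⟨0, 1483520, 0, 0⟩,
  .add 1 0,
  .scale ⟨0, 0, 1099511627776, 0⟩ 89,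
  .scale ⟨549755813888, 0, 0, 0⟩ 0,
  .add 0 88,
  .inv 0,
  .mul 3 0,
  .scale ⟨238564289238720, 0, 0, 0⟩ 0,
  .const ⟨276138396116672, 0, 0, 0⟩,
  .add 1 0,
  .mul 3 0,
  .const ⟨0, 102360050371136, 0, 0⟩,
  .add 1 0,
  .mul 6 0,
  .const ⟨256982200839680, 0, 0, 0⟩,
  .add 1 0,
  .mul 9 0,
  .const ⟨0, 41863264241280, 0, 0⟩,
  .add 1 0,
  .mul 12 0,
  .const ⟨21442023585920, 0, 0, 0⟩,
  .add 1 0,
  .mul 15 0,
  .scale ⟨3475182744192, 0, 0, 0⟩ 62,
  .scale ⟨1154854475259072, 0, 0, 0⟩ 65,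
  .add 1 0,
  .const ⟨13826506603328, 0, 0, 0⟩,
  .add 1 0,
  .add 5 0,
  .mul 22 0,
  .scale ⟨2329324129408, 0, 0, 0⟩ 69,
  .scale ⟨0, 224014616909504, 0, 0⟩ 72,
  .add 1 0,
  .const ⟨0, 6076074816512, 0, 0⟩,
  .add 1 0,
  .add 5 0,
  .mul 29 0,
  .scale ⟨833285547584, 0, 0, 0⟩ 76,
  .scale ⟨454424979078976, 0, 0, 0⟩ 79,
  .add 1 0,
  .const ⟨1932884460736, 0, 0, 0⟩,
  .add 1 0,
  .add 5 0,
  .mul 36 0,
  .scale ⟨1052665380352, 0, 0, 0⟩ 83,
  .scale ⟨22628889024832, 0, 0, 0⟩ 86,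
  .add 1 0,
  .const ⟨456079685184, 0, 0, 0⟩,
  .add 1 0,
  .add 5 0,
  .mul 43 0,
  .scale ⟨72890060672, 0, 0, 0⟩ 90,
  .scale ⟨22706173166784, 0, 0, 0⟩ 93,
  .add 1 0,
  .const ⟨917152529152, 0, 0, 0⟩,
  .add 1 0,
  .add 5 0,
  .mul 50 0,
  .scale ⟨0, 123410999424, 0, 0⟩ 97,
  .scale ⟨0, 9437078427264, 0, 0⟩ 100,
  .add 1 0,
  .const ⟨3629267093056, 0, 0, 0⟩,
  .add 1 0,
  .add 5 0,
  .mul 57 0,
  .scale ⟨163253794432, 0, 0, 0⟩ 104,
  .scale ⟨1257151104, 0, 0, 0⟩ 104,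
  .add 1 0,
  .scale ⟨15028122578304, 0, 0, 0⟩ 109,
  .add 1 0,
  .scale ⟨5091964182400, 0, 0, 0⟩ 106,
  .add 1 0,
  .scale ⟨0, 38342093167104, 0, 0⟩ 107,
  .add 1 0,
  .const ⟨410123870592, 0, 0, 0⟩,
  .add 1 0,
  .mul 0 151,
  .add 12 0,
  .mul 163 163,
  .scale ⟨5703716569088, 0, 0, 0⟩ 0,
  .const ⟨1726576852992, 0, 0, 0⟩,
  .add 1 0,
  .scale ⟨4398046511104, 0, 0, 0⟩ 157,
  .mul 76 1,
  .scale ⟨4398046511104, 0, 0, 0⟩ 0,
  .add 2 0,
  .scale ⟨0, 12138643456, 0, 0⟩ 125,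
  .scale ⟨7588937728, 0, 0, 0⟩ 125,
  .add 1 0,
  .scale ⟨18969264128, 0, 0, 0⟩ 126,
  .add 1 0,
  .scale ⟨236195741696, 0, 0, 0⟩ 132,
  .add 1 0,
  .scale ⟨4062110416896, 0, 0, 0⟩ 129,
  .add 1 0,
  .const ⟨194506719232, 0, 0, 0⟩,
  .add 1 0,
  .scale ⟨2611340115968, 0, 0, 0⟩ 170,
  .neg 0,
  .exp 0,
  .mul 3 0,
  .mul 0 15,
  .scale ⟨549755813888, 0, 0, 0⟩ 16,
  .add 0 187,
  .pos 0,
  .inv 0,
  .mul 3 0,
  .neg 28,
  .exp 0,
  .add 0 192,
  .pos 0,
  .log 0,
  .mul 4 198,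
  .sub 195 0,
  .pos 0,
  .log 0,
  .mul 5 2,
  .add 0 198,
  .pos 0,
  .log 0,
  .sub 6 0,
  .add 192 160,
  .sub 1 0,
  .mul 0 204,
  .exp 0,
  .sub 5 8,
  .add 0 44,
  .mul 0 208,
  .exp 0,
  .mul 179 179,
  .scale ⟨274877906944, 0, 0, 0⟩ 0,
  .mul 48 0,
  .scale ⟨1649267441664, 0, 0, 0⟩ 0,
  .add 0 213,
  .mul 48 0,
  .mul 218 0,
  .scale ⟨0, 0, 1099511627776, 0⟩ 0,
  .mul 0 0,
  .sub 7 0,
  .mul 14 14,
  .mul 0 1,
  .mul 58 0,
  .scale ⟨4398046511104, 0, 0, 0⟩ 0,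
  .sub 223 0,
  .pos 0,
  .log 0,
  .scale ⟨549755813888, 0, 0, 0⟩ 0,
  .exp 0,
  .mul 228 7,
  .mul 17 19,
  .scale ⟨2199023255552, 0, 0, 0⟩ 10,
  .add 1 0,
  .mul 3 0,
  .mul 15 5,
  .mul 28 0,
  .add 2 0,
  .mul 26 0,
  .scale ⟨4398046511104, 0, 0, 0⟩ 0,
  .mul 238 0,
  .add 0 238,
  .pos 0,
  .log 0,
  .scale ⟨549755813888, 0, 0, 0⟩ 0,
  .exp 0,
  .add 0 242,
  .pos 0,
  .inv 0,
  .mul 7 0,
  .scale ⟨549755813888, 0, 0, 0⟩ 210,
  .sub 1 0,
  .const ⟨11097121751040, 0, 0, 0⟩,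
  .add 212 0,
  .pos 0,
  .mul 2 2,
  .sub 0 214,
  .inv 2,
  .mul 1 0,
  .lt 0 1099510579200,
  .mul 254 48,
  .mul 0 37,
  .scale ⟨2199023255552, 0, 0, 0⟩ 0,
  .sub 29 0,
  .pos 0,
  .add 245 243,
  .mul 41 0,
  .mul 260 0,
  .add 0 241,
  .pos 0,
  .inv 0,
  .mul 243 3,
  .add 0 226,
  .mul 2 0,
  .pos 266,
  .inv 266,
  .sub 19 1,
  .mul 0 1,
  .add 9 235,
  .mul 253 8,
  .inv 1,
  .mul 1 0,
  .mul 0 4,
  .mul 274 0,
  .add 0 274,
  .scale ⟨0, 15781003264, 0, 0⟩ 230,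
  .scale ⟨44905725952, 0, 0, 0⟩ 230,
  .add 1 0,
  .scale ⟨0, 942538752, 0, 0⟩ 231,
  .add 1 0,
  .scale ⟨3633058545664, 0, 0, 0⟩ 237,
  .add 1 0,
  .scale ⟨7676985344000, 0, 0, 0⟩ 234,
  .add 1 0,
  .const ⟨750449852416, 0, 0, 0⟩,
  .add 1 0,
  .scale ⟨2199023255552, 0, 0, 0⟩ 13,
  .inv 12,
  .mul 16 0,
  .mul 2 0,
  .mul 275 275,
  .inv 5,
  .mul 1 0,
  .mul 3 0,
  .lt 0 1099510579200,
  .mul 295 47,
  .add 0 276,
  .pos 0,
  .inv 0,
  .mul 281 0,
  .sub 51 265,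
  .add 283 2,
  .mul 1 0,
  .mul 3 0,
  .mul 286 269,
  .scale ⟨2199023255552, 0, 0, 0⟩ 0,
  .add 2 0,
  .scale ⟨0, 31112743092224, 0, 0⟩ 262,
  .const ⟨0, 1731945562112, 0, 0⟩,
  .add 1 0,
  .sub 3 0,
  .pos 0,
  .inv 0,
  .scale ⟨31362867265536, 0, 0, 0⟩ 0,
  .add 2 0,
  .pos 0,
  .inv 0,
  .scale ⟨0, 64369071232, 0, 0⟩ 268,
  .scale ⟨0, 5430128471936, 0, 0⟩ 271,
  .add 1 0,
  .const ⟨0, 181700100736, 0, 0⟩,
  .add 1 0,
  .scale ⟨0, 348998969728, 0, 0⟩ 273,
  .scale ⟨11253687058304, 0, 0, 0⟩ 276,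
  .add 1 0,
  .const ⟨131946631488, 0, 0, 0⟩,
  .add 1 0,
  .mul 13 0,
  .add 6 0,
  .mul 0 12,
  .scale ⟨0, 704, 0, 0⟩ 21,
  .const ⟨61696, 0, 0, 0⟩,
  .add 1 0,
  .mul 24 0,
  .add 0 244,
  .mul 26 0,
  .add 0 249,
  .mul 28 0,
  .add 0 256,
  .mul 30 0,
  .add 0 265,
  .mul 32 0,
  .add 12 276,
  .add 1 0,
  .mul 38 0,
  .add 0 321,
  .neg 0,
  .exp 0,
  .add 0 344,
  .pos 0,
  .log 0,
  .add 184 152,
  .sub 0 1,
  .scale ⟨549755813888, 0, 0, 0⟩ 108,
  .mul 0 83,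
  .sub 2 0,
  .exp 0,
  .scale ⟨0, 22519218176, 0, 0⟩ 261,
  .const ⟨0, 12586254336, 0, 0⟩,
  .add 1 0,
  .mul 264 0,
  .const ⟨0, 33565573120, 0, 0⟩,
  .add 1 0,
  .mul 267 0,
  .scale ⟨0, 14529658880, 0, 0⟩ 314,
  .scale ⟨715249614848, 0, 0, 0⟩ 317,
  .add 1 0,
  .const ⟨33502527488, 0, 0, 0⟩,
  .add 1 0,
  .add 5 0,
  .mul 274 0,
  .scale ⟨3975938048, 0, 0, 0⟩ 321,
  .scale ⟨3773030858752, 0, 0, 0⟩ 324,
  .add 1 0,
  .const ⟨98021736448, 0, 0, 0⟩,
  .add 1 0,
  .add 5 0,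
  .mul 281 0,
  .scale ⟨39986200576, 0, 0, 0⟩ 328,
  .scale ⟨6602555392, 0, 0, 0⟩ 328,
  .add 1 0,
  .scale ⟨3908441407488, 0, 0, 0⟩ 333,
  .add 1 0,
  .scale ⟨2651797716992, 0, 0, 0⟩ 330,
  .add 1 0,
  .scale ⟨52465028038656, 0, 0, 0⟩ 331,
  .add 1 0,
  .const ⟨1138795675648, 0, 0, 0⟩,
  .add 1 0,
  .add 11 0,
  .inv 199,
  .mul 0 198,
  .scale ⟨989453090816, 0, 0, 0⟩ 140,
  .add 0 388,
  .pos 0,
  .scale ⟨0, 182059008, 0, 0⟩ 344,
  .scale ⟨262144, 0, 0, 0⟩ 344,
  .add 1 0,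
  .scale ⟨0, 65536, 0, 0⟩ 345,
  .add 1 0,
  .scale ⟨0, 19265617920, 0, 0⟩ 351,
  .add 1 0,
  .scale ⟨0, 6488326144, 0, 0⟩ 348,
  .add 1 0,
  .const ⟨65432190976, 0, 0, 0⟩,
  .add 1 0,
  .scale ⟨1374389534720, 0, 0, 0⟩ 389,
  .neg 0,
  .exp 0,
  .mul 3 0,
  .scale ⟨2199023255552, 0, 0, 0⟩ 0,
  .add 158 372,
  .mul 1 0,
  .inv 18,
  .mul 1 0,
  .const ⟨0, 0, 0, 0⟩,
  .mul 25 58,
  .mul 0 67,
  .mul 3 25,
  .mul 1 0,
  .rball 4 0,
  .sub 415 30,
  .mul 420 0,
  .sub 417 65,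
  .mul 0 31,
  .mul 34 0,
  .add 3 0,
  .add 0 6,
  .lt 0 1099510579200]

set_option maxRecDepth 1000000 in
noncomputable def c_Z_0 {α : Type} (cst : Z → α) (add sub mul : α → α → α) (scale : Z → α → α)
    (neg inv exp log : α → α) (ok : α → Bool) (isPos : Nat → α → Bool) (isLt : α → Nat → Bool)
    (ball : Nat → α → α) (rball : α → α → α) : List α → Bool
  | [x0, x1, x2, x3] =>
  let v0 := cst ⟨1099511627776, 0, 0, 0⟩; ok v0 && (
  let v1 := scale ⟨1931567052095488, 0, 0, 0⟩ x0; ok v1 && (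
  let v2 := cst ⟨0, 178447438577664, 0, 0⟩; ok v2 && (
  let v3 := add v1 v2; ok v3 && (
  let v4 := mul v3 x0; ok v4 && (
  let v5 := cst ⟨5548026101760, 0, 0, 0⟩; ok v5 && (
  let v6 := add v4 v5; ok v6 && (
  let v7 := mul x1 v6; ok v7 && (
  let v8 := cst ⟨2199023255552, 0, 0, 0⟩; ok v8 && (
  let v9 := add v7 v8; ok v9 && (
  let v10 := mul x0 v9; ok v10 && (
  let v11 := scale ⟨2199023255552, 0, 0, 0⟩ v10; ok v11 && (
  let v12 := exp v10; ok v12 && (
  let v13 := neg v10; ok v13 && (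
  let v14 := exp v13; ok v14 && (
  let v15 := mul v12 v12; ok v15 && (
  let v16 := mul v14 v14; ok v16 && (
  let v17 := mul v16 v16; ok v17 && (
  let v18 := add v15 v16; ok v18 && (
  let v19 := scale ⟨549755813888, 0, 0, 0⟩ v18; ok v19 && (
  let v20 := scale ⟨2199023255552, 0, 0, 0⟩ v9; ok v20 && (
  let v21 := mul v10 v10; ok v21 && (
  isLt v21 68719476736 && (
  let v22 := scale ⟨9162596898, 0, 0, 0⟩ v21; ok v22 && (
  let v23 := cst ⟨183251937962, 0, 0, 0⟩; ok v23 && (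
  let v24 := add v22 v23; ok v24 && (
  let v25 := mul v24 v21; ok v25 && (
  let v26 := cst ⟨1099511627776, 0, 0, 0⟩; ok v26 && (
  let v27 := add v25 v26; ok v27 && (
  let v28 := cst ⟨65536, 0, 0, 0⟩; ok v28 && (
  let v29 := rball v27 v28; ok v29 && (
  let v30 := mul v20 v29; ok v30 && (
  let v31 := add v12 v14; ok v31 && (
  let v32 := scale ⟨549755813888, 0, 0, 0⟩ v31; ok v32 && (
  let v33 := mul v30 v32; ok v33 && (
  let v34 := mul v30 v30; ok v34 && (
  let v35 := mul x0 v34; ok v35 && (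
  let v36 := mul v33 v33; ok v36 && (
  let v37 := mul x0 v36; ok v37 && (
  let v38 := neg v20; ok v38 && (
  let v39 := exp v38; ok v39 && (
  let v40 := add v39 v0; ok v40 && (
  isPos 3 v40 && (
  let v41 := log v40; ok v41 && (
  let v42 := cst ⟨30601641984, 0, 0, 0⟩; ok v42 && (
  let v43 := sub x0 v42; ok v43 && (
  let v44 := cst ⟨3238405341184, 0, 0, 0⟩; ok v44 && (
  let v45 := sub v9 v44; ok v45 && (
  let v46 := mul v45 v45; ok v46 && (
  let v47 := mul v46 v45; ok v47 && (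
  let v48 := mul v43 v45; ok v48 && (
  let v49 := mul v43 v43; ok v49 && (
  let v50 := scale ⟨14712609536, 0, 0, 0⟩ v45; ok v50 && (
  let v51 := scale ⟨0, 68899072, 0, 0⟩ v46; ok v51 && (
  let v52 := add v50 v51; ok v52 && (
  let v53 := scale ⟨0, 24440896, 0, 0⟩ v47; ok v53 && (
  let v54 := add v52 v53; ok v54 && (
  let v55 := scale ⟨604664106688, 0, 0, 0⟩ v43; ok v55 && (
  let v56 := add v54 v55; ok v56 && (
  let v57 := scale ⟨0, 64963541632, 0, 0⟩ v48; ok v57 && (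
  let v58 := add v56 v57; ok v58 && (
  let v59 := scale ⟨2861906048, 0, 0, 0⟩ v49; ok v59 && (
  let v60 := add v58 v59; ok v60 && (
  let v61 := cst ⟨582892747904, 0, 0, 0⟩; ok v61 && (
  let v62 := add v60 v61; ok v62 && (
  let v63 := scale ⟨0, 290691712, 0, 0⟩ v45; ok v63 && (
  let v64 := scale ⟨71127296, 0, 0, 0⟩ v46; ok v64 && (
  let v65 := add v63 v64; ok v65 && (
  let v66 := scale ⟨9005936640, 0, 0, 0⟩ v43; ok v66 && (
  let v67 := add v65 v66; ok v67 && (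
  let v68 := scale ⟨25968023104, 0, 0, 0⟩ v48; ok v68 && (
  let v69 := add v67 v68; ok v69 && (
  let v70 := cst ⟨0, 2951279872, 0, 0⟩; ok v70 && (
  let v71 := add v69 v70; ok v71 && (
  let v72 := scale ⟨0, 114479872, 0, 0⟩ v45; ok v72 && (
  let v73 := scale ⟨0, 1242112, 0, 0⟩ v46; ok v73 && (
  let v74 := add v72 v73; ok v74 && (
  let v75 := scale ⟨0, 5675819520, 0, 0⟩ v43; ok v75 && (
  let v76 := add v74 v75; ok v76 && (
  let v77 := cst ⟨61567552, 0, 0, 0⟩; ok v77 && (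
  let v78 := add v76 v77; ok v78 && (
  let v79 := scale ⟨11835776, 0, 0, 0⟩ v45; ok v79 && (
  let v80 := scale ⟨120670592, 0, 0, 0⟩ v43; ok v80 && (
  let v81 := add v79 v80; ok v81 && (
  let v82 := cst ⟨11992128, 0, 0, 0⟩; ok v82 && (
  let v83 := add v81 v82; ok v83 && (
  let v84 := scale ⟨0, 375744, 0, 0⟩ v45; ok v84 && (
  let v85 := cst ⟨0, 1483520, 0, 0⟩; ok v85 && (
  let v86 := add v84 v85; ok v86 && (
  let v87 := scale ⟨0, 0, 1099511627776, 0⟩ x2; ok v87 && (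
  let v88 := scale ⟨549755813888, 0, 0, 0⟩ v87; ok v88 && (
  let v89 := add v88 v0; ok v89 && (
  let v90 := inv v89; ok v90 && (
  let v91 := mul v87 v90; ok v91 && (
  let v92 := scale ⟨238564289238720, 0, 0, 0⟩ v91; ok v92 && (
  let v93 := cst ⟨276138396116672, 0, 0, 0⟩; ok v93 && (
  let v94 := add v92 v93; ok v94 && (
  let v95 := mul v91 v94; ok v95 && (
  let v96 := cst ⟨0, 102360050371136, 0, 0⟩; ok v96 && (
  let v97 := add v95 v96; ok v97 && (
  let v98 := mul v91 v97; ok v98 && (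
  let v99 := cst ⟨256982200839680, 0, 0, 0⟩; ok v99 && (
  let v100 := add v98 v99; ok v100 && (
  let v101 := mul v91 v100; ok v101 && (
  let v102 := cst ⟨0, 41863264241280, 0, 0⟩; ok v102 && (
  let v103 := add v101 v102; ok v103 && (
  let v104 := mul v91 v103; ok v104 && (
  let v105 := cst ⟨21442023585920, 0, 0, 0⟩; ok v105 && (
  let v106 := add v104 v105; ok v106 && (
  let v107 := mul v91 v106; ok v107 && (
  let v108 := scale ⟨3475182744192, 0, 0, 0⟩ v45; ok v108 && (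
  let v109 := scale ⟨1154854475259072, 0, 0, 0⟩ v43; ok v109 && (
  let v110 := add v108 v109; ok v110 && (
  let v111 := cst ⟨13826506603328, 0, 0, 0⟩; ok v111 && (
  let v112 := add v110 v111; ok v112 && (
  let v113 := add v107 v112; ok v113 && (
  let v114 := mul v91 v113; ok v114 && (
  let v115 := scale ⟨2329324129408, 0, 0, 0⟩ v45; ok v115 && (
  let v116 := scale ⟨0, 224014616909504, 0, 0⟩ v43; ok v116 && (
  let v117 := add v115 v116; ok v117 && (
  let v118 := cst ⟨0, 6076074816512, 0, 0⟩; ok v118 && (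
  let v119 := add v117 v118; ok v119 && (
  let v120 := add v114 v119; ok v120 && (
  let v121 := mul v91 v120; ok v121 && (
  let v122 := scale ⟨833285547584, 0, 0, 0⟩ v45; ok v122 && (
  let v123 := scale ⟨454424979078976, 0, 0, 0⟩ v43; ok v123 && (
  let v124 := add v122 v123; ok v124 && (
  let v125 := cst ⟨1932884460736, 0, 0, 0⟩; ok v125 && (
  let v126 := add v124 v125; ok v126 && (
  let v127 := add v121 v126; ok v127 && (
  let v128 := mul v91 v127; ok v128 && (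
  let v129 := scale ⟨1052665380352, 0, 0, 0⟩ v45; ok v129 && (
  let v130 := scale ⟨22628889024832, 0, 0, 0⟩ v43; ok v130 && (
  let v131 := add v129 v130; ok v131 && (
  let v132 := cst ⟨456079685184, 0, 0, 0⟩; ok v132 && (
  let v133 := add v131 v132; ok v133 && (
  let v134 := add v128 v133; ok v134 && (
  let v135 := mul v91 v134; ok v135 && (
  let v136 := scale ⟨72890060672, 0, 0, 0⟩ v45; ok v136 && (
  let v137 := scale ⟨22706173166784, 0, 0, 0⟩ v43; ok v137 && (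
  let v138 := add v136 v137; ok v138 && (
  let v139 := cst ⟨917152529152, 0, 0, 0⟩; ok v139 && (
  let v140 := add v138 v139; ok v140 && (
  let v141 := add v135 v140; ok v141 && (
  let v142 := mul v91 v141; ok v142 && (
  let v143 := scale ⟨0, 123410999424, 0, 0⟩ v45; ok v143 && (
  let v144 := scale ⟨0, 9437078427264, 0, 0⟩ v43; ok v144 && (
  let v145 := add v143 v144; ok v145 && (
  let v146 := cst ⟨3629267093056, 0, 0, 0⟩; ok v146 && (
  let v147 := add v145 v146; ok v147 && (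
  let v148 := add v142 v147; ok v148 && (
  let v149 := mul v91 v148; ok v149 && (
  let v150 := scale ⟨163253794432, 0, 0, 0⟩ v45; ok v150 && (
  let v151 := scale ⟨1257151104, 0, 0, 0⟩ v46; ok v151 && (
  let v152 := add v150 v151; ok v152 && (
  let v153 := scale ⟨15028122578304, 0, 0, 0⟩ v43; ok v153 && (
  let v154 := add v152 v153; ok v154 && (
  let v155 := scale ⟨5091964182400, 0, 0, 0⟩ v48; ok v155 && (
  let v156 := add v154 v155; ok v156 && (
  let v157 := scale ⟨0, 38342093167104, 0, 0⟩ v49; ok v157 && (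
  let v158 := add v156 v157; ok v158 && (
  let v159 := cst ⟨410123870592, 0, 0, 0⟩; ok v159 && (
  let v160 := add v158 v159; ok v160 && (
  let v161 := mul v160 v9; ok v161 && (
  let v162 := add v149 v161; ok v162 && (
  let v163 := mul x0 x0; ok v163 && (
  let v164 := scale ⟨5703716569088, 0, 0, 0⟩ v163; ok v164 && (
  let v165 := cst ⟨1726576852992, 0, 0, 0⟩; ok v165 && (
  let v166 := add v164 v165; ok v166 && (
  let v167 := scale ⟨4398046511104, 0, 0, 0⟩ v9; ok v167 && (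
  let v168 := mul v91 v166; ok v168 && (
  let v169 := scale ⟨4398046511104, 0, 0, 0⟩ v168; ok v169 && (
  let v170 := add v167 v169; ok v170 && (
  let v171 := scale ⟨0, 12138643456, 0, 0⟩ v45; ok v171 && (
  let v172 := scale ⟨7588937728, 0, 0, 0⟩ v46; ok v172 && (
  let v173 := add v171 v172; ok v173 && (
  let v174 := scale ⟨18969264128, 0, 0, 0⟩ v47; ok v174 && (
  let v175 := add v173 v174; ok v175 && (
  let v176 := scale ⟨236195741696, 0, 0, 0⟩ v43; ok v176 && (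
  let v177 := add v175 v176; ok v177 && (
  let v178 := scale ⟨4062110416896, 0, 0, 0⟩ v48; ok v178 && (
  let v179 := add v177 v178; ok v179 && (
  let v180 := cst ⟨194506719232, 0, 0, 0⟩; ok v180 && (
  let v181 := add v179 v180; ok v181 && (
  let v182 := scale ⟨2611340115968, 0, 0, 0⟩ v11; ok v182 && (
  let v183 := neg v182; ok v183 && (
  let v184 := exp v183; ok v184 && (
  let v185 := mul v181 v184; ok v185 && (
  let v186 := mul v185 v170; ok v186 && (
  let v187 := scale ⟨549755813888, 0, 0, 0⟩ v170; ok v187 && (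
  let v188 := add v187 v0; ok v188 && (
  isPos 3 v188 && (
  let v189 := inv v188; ok v189 && (
  let v190 := mul v186 v189; ok v190 && (
  let v191 := neg v162; ok v191 && (
  let v192 := exp v191; ok v192 && (
  let v193 := add v192 v0; ok v193 && (
  isPos 3 v193 && (
  let v194 := log v193; ok v194 && (
  let v195 := mul v190 x3; ok v195 && (
  let v196 := sub v0 v195; ok v196 && (
  isPos 3 v196 && (
  let v197 := log v196; ok v197 && (
  let v198 := mul v192 v195; ok v198 && (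
  let v199 := add v198 v0; ok v199 && (
  isPos 3 v199 && (
  let v200 := log v199; ok v200 && (
  let v201 := sub v194 v200; ok v201 && (
  let v202 := add v9 v41; ok v202 && (
  let v203 := sub v201 v202; ok v203 && (
  let v204 := mul v203 x0; ok v204 && (
  let v205 := exp v204; ok v205 && (
  let v206 := sub v200 v197; ok v206 && (
  let v207 := add v206 v162; ok v207 && (
  let v208 := mul v207 x0; ok v208 && (
  let v209 := exp v208; ok v209 && (
  let v210 := mul v30 v30; ok v210 && (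
  let v211 := scale ⟨274877906944, 0, 0, 0⟩ v210; ok v211 && (
  let v212 := mul v163 v211; ok v212 && (
  let v213 := scale ⟨1649267441664, 0, 0, 0⟩ v212; ok v213 && (
  let v214 := add v213 v0; ok v214 && (
  let v215 := mul v166 v214; ok v215 && (
  let v216 := mul x2 v215; ok v216 && (
  let v217 := scale ⟨0, 0, 1099511627776, 0⟩ v216; ok v217 && (
  let v218 := mul v217 v217; ok v218 && (
  let v219 := sub v211 v218; ok v219 && (
  let v220 := mul v205 v205; ok v220 && (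
  let v221 := mul v220 v219; ok v221 && (
  let v222 := mul v163 v221; ok v222 && (
  let v223 := scale ⟨4398046511104, 0, 0, 0⟩ v222; ok v223 && (
  let v224 := sub v0 v223; ok v224 && (
  isPos 3 v224 && (
  let v225 := log v224; ok v225 && (
  let v226 := scale ⟨549755813888, 0, 0, 0⟩ v225; ok v226 && (
  let v227 := exp v226; ok v227 && (
  let v228 := mul x0 v220; ok v228 && (
  let v229 := mul v211 v209; ok v229 && (
  let v230 := scale ⟨2199023255552, 0, 0, 0⟩ v219; ok v230 && (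
  let v231 := add v229 v230; ok v231 && (
  let v232 := mul v228 v231; ok v232 && (
  let v233 := mul v217 v227; ok v233 && (
  let v234 := mul v205 v233; ok v234 && (
  let v235 := add v232 v234; ok v235 && (
  let v236 := mul v209 v235; ok v236 && (
  let v237 := scale ⟨4398046511104, 0, 0, 0⟩ v236; ok v237 && (
  let v238 := mul x0 v237; ok v238 && (
  let v239 := add v238 v0; ok v239 && (
  isPos 3 v239 && (
  let v240 := log v239; ok v240 && (
  let v241 := scale ⟨549755813888, 0, 0, 0⟩ v240; ok v241 && (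
  let v242 := exp v241; ok v242 && (
  let v243 := add v242 v0; ok v243 && (
  isPos 3 v243 && (
  let v244 := inv v243; ok v244 && (
  let v245 := mul v237 v244; ok v245 && (
  let v246 := scale ⟨549755813888, 0, 0, 0⟩ v35; ok v246 && (
  let v247 := sub v245 v246; ok v247 && (
  let v248 := cst ⟨11097121751040, 0, 0, 0⟩; ok v248 && (
  let v249 := add v36 v248; ok v249 && (
  isPos 3 v249 && (
  let v250 := mul v247 v247; ok v250 && (
  let v251 := sub v250 v36; ok v251 && (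
  let v252 := inv v249; ok v252 && (
  let v253 := mul v251 v252; ok v253 && (
  isLt v253 1099510579200 && (
  let v254 := mul x0 v205; ok v254 && (
  let v255 := mul v254 v217; ok v255 && (
  let v256 := scale ⟨2199023255552, 0, 0, 0⟩ v255; ok v256 && (
  let v257 := sub v227 v256; ok v257 && (
  isPos 3 v257 && (
  let v258 := add v12 v14; ok v258 && (
  let v259 := mul v217 v258; ok v259 && (
  let v260 := mul x0 v259; ok v260 && (
  let v261 := add v260 v19; ok v261 && (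
  isPos 3 v261 && (
  let v262 := inv v261; ok v262 && (
  let v263 := mul v19 v259; ok v263 && (
  let v264 := add v263 v37; ok v264 && (
  let v265 := mul v262 v264; ok v265 && (
  isPos 3 x0 && (
  let v266 := inv x0; ok v266 && (
  let v267 := sub v247 v265; ok v267 && (
  let v268 := mul v267 v266; ok v268 && (
  let v269 := add v259 v33; ok v269 && (
  let v270 := mul v16 v261; ok v270 && (
  let v271 := inv v269; ok v271 && (
  let v272 := mul v270 v271; ok v272 && (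
  let v273 := mul v272 v268; ok v273 && (
  let v274 := mul x0 v273; ok v274 && (
  let v275 := add v274 v0; ok v275 && (
  let v276 := scale ⟨0, 15781003264, 0, 0⟩ v45; ok v276 && (
  let v277 := scale ⟨44905725952, 0, 0, 0⟩ v46; ok v277 && (
  let v278 := add v276 v277; ok v278 && (
  let v279 := scale ⟨0, 942538752, 0, 0⟩ v47; ok v279 && (
  let v280 := add v278 v279; ok v280 && (
  let v281 := scale ⟨3633058545664, 0, 0, 0⟩ v43; ok v281 && (
  let v282 := add v280 v281; ok v282 && (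
  let v283 := scale ⟨7676985344000, 0, 0, 0⟩ v48; ok v283 && (
  let v284 := add v282 v283; ok v284 && (
  let v285 := cst ⟨750449852416, 0, 0, 0⟩; ok v285 && (
  let v286 := add v284 v285; ok v286 && (
  let v287 := scale ⟨2199023255552, 0, 0, 0⟩ v273; ok v287 && (
  let v288 := inv v275; ok v288 && (
  let v289 := mul v272 v288; ok v289 && (
  let v290 := mul v287 v289; ok v290 && (
  let v291 := mul v15 v15; ok v291 && (
  let v292 := inv v286; ok v292 && (
  let v293 := mul v291 v292; ok v293 && (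
  let v294 := mul v290 v293; ok v294 && (
  isLt v294 1099510579200 && (
  let v295 := mul x0 v247; ok v295 && (
  let v296 := add v295 v19; ok v296 && (
  isPos 3 v296 && (
  let v297 := inv v296; ok v297 && (
  let v298 := mul v16 v297; ok v298 && (
  let v299 := sub v247 v33; ok v299 && (
  let v300 := add v16 v297; ok v300 && (
  let v301 := mul v299 v300; ok v301 && (
  let v302 := mul v298 v301; ok v302 && (
  let v303 := mul v16 v33; ok v303 && (
  let v304 := scale ⟨2199023255552, 0, 0, 0⟩ v303; ok v304 && (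
  let v305 := add v302 v304; ok v305 && (
  let v306 := scale ⟨0, 31112743092224, 0, 0⟩ v43; ok v306 && (
  let v307 := cst ⟨0, 1731945562112, 0, 0⟩; ok v307 && (
  let v308 := add v306 v307; ok v308 && (
  let v309 := sub v305 v308; ok v309 && (
  isPos 3 v309 && (
  let v310 := inv v309; ok v310 && (
  let v311 := scale ⟨31362867265536, 0, 0, 0⟩ v310; ok v311 && (
  let v312 := add v309 v311; ok v312 && (
  isPos 3 v312 && (
  let v313 := inv v312; ok v313 && (
  let v314 := scale ⟨0, 64369071232, 0, 0⟩ v45; ok v314 && (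
  let v315 := scale ⟨0, 5430128471936, 0, 0⟩ v43; ok v315 && (
  let v316 := add v314 v315; ok v316 && (
  let v317 := cst ⟨0, 181700100736, 0, 0⟩; ok v317 && (
  let v318 := add v316 v317; ok v318 && (
  let v319 := scale ⟨0, 348998969728, 0, 0⟩ v45; ok v319 && (
  let v320 := scale ⟨11253687058304, 0, 0, 0⟩ v43; ok v320 && (
  let v321 := add v319 v320; ok v321 && (
  let v322 := cst ⟨131946631488, 0, 0, 0⟩; ok v322 && (
  let v323 := add v321 v322; ok v323 && (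
  let v324 := mul v310 v323; ok v324 && (
  let v325 := add v318 v324; ok v325 && (
  let v326 := mul v325 v313; ok v326 && (
  let v327 := scale ⟨0, 704, 0, 0⟩ v305; ok v327 && (
  let v328 := cst ⟨61696, 0, 0, 0⟩; ok v328 && (
  let v329 := add v327 v328; ok v329 && (
  let v330 := mul v305 v329; ok v330 && (
  let v331 := add v330 v86; ok v331 && (
  let v332 := mul v305 v331; ok v332 && (
  let v333 := add v332 v83; ok v333 && (
  let v334 := mul v305 v333; ok v334 && (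
  let v335 := add v334 v78; ok v335 && (
  let v336 := mul v305 v335; ok v336 && (
  let v337 := add v336 v71; ok v337 && (
  let v338 := mul v305 v337; ok v338 && (
  let v339 := add v326 v62; ok v339 && (
  let v340 := add v338 v339; ok v340 && (
  let v341 := mul v302 v340; ok v341 && (
  let v342 := add v341 v20; ok v342 && (
  let v343 := neg v342; ok v343 && (
  let v344 := exp v343; ok v344 && (
  let v345 := add v344 v0; ok v345 && (
  isPos 3 v345 && (
  let v346 := log v345; ok v346 && (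
  let v347 := add v162 v194; ok v347 && (
  let v348 := sub v347 v346; ok v348 && (
  let v349 := scale ⟨549755813888, 0, 0, 0⟩ v240; ok v349 && (
  let v350 := mul v349 v266; ok v350 && (
  let v351 := sub v348 v350; ok v351 && (
  let v352 := exp v351; ok v352 && (
  let v353 := scale ⟨0, 22519218176, 0, 0⟩ v91; ok v353 && (
  let v354 := cst ⟨0, 12586254336, 0, 0⟩; ok v354 && (
  let v355 := add v353 v354; ok v355 && (
  let v356 := mul v91 v355; ok v356 && (
  let v357 := cst ⟨0, 33565573120, 0, 0⟩; ok v357 && (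
  let v358 := add v356 v357; ok v358 && (
  let v359 := mul v91 v358; ok v359 && (
  let v360 := scale ⟨0, 14529658880, 0, 0⟩ v45; ok v360 && (
  let v361 := scale ⟨715249614848, 0, 0, 0⟩ v43; ok v361 && (
  let v362 := add v360 v361; ok v362 && (
  let v363 := cst ⟨33502527488, 0, 0, 0⟩; ok v363 && (
  let v364 := add v362 v363; ok v364 && (
  let v365 := add v359 v364; ok v365 && (
  let v366 := mul v91 v365; ok v366 && (
  let v367 := scale ⟨3975938048, 0, 0, 0⟩ v45; ok v367 && (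
  let v368 := scale ⟨3773030858752, 0, 0, 0⟩ v43; ok v368 && (
  let v369 := add v367 v368; ok v369 && (
  let v370 := cst ⟨98021736448, 0, 0, 0⟩; ok v370 && (
  let v371 := add v369 v370; ok v371 && (
  let v372 := add v366 v371; ok v372 && (
  let v373 := mul v91 v372; ok v373 && (
  let v374 := scale ⟨39986200576, 0, 0, 0⟩ v45; ok v374 && (
  let v375 := scale ⟨6602555392, 0, 0, 0⟩ v46; ok v375 && (
  let v376 := add v374 v375; ok v376 && (
  let v377 := scale ⟨3908441407488, 0, 0, 0⟩ v43; ok v377 && (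
  let v378 := add v376 v377; ok v378 && (
  let v379 := scale ⟨2651797716992, 0, 0, 0⟩ v48; ok v379 && (
  let v380 := add v378 v379; ok v380 && (
  let v381 := scale ⟨52465028038656, 0, 0, 0⟩ v49; ok v381 && (
  let v382 := add v380 v381; ok v382 && (
  let v383 := cst ⟨1138795675648, 0, 0, 0⟩; ok v383 && (
  let v384 := add v382 v383; ok v384 && (
  let v385 := add v373 v384; ok v385 && (
  let v386 := inv v186; ok v386 && (
  let v387 := mul v386 v188; ok v387 && (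
  let v388 := scale ⟨989453090816, 0, 0, 0⟩ v247; ok v388 && (
  let v389 := add v388 v0; ok v389 && (
  isPos 3 v389 && (
  let v390 := scale ⟨0, 182059008, 0, 0⟩ v45; ok v390 && (
  let v391 := scale ⟨262144, 0, 0, 0⟩ v46; ok v391 && (
  let v392 := add v390 v391; ok v392 && (
  let v393 := scale ⟨0, 65536, 0, 0⟩ v47; ok v393 && (
  let v394 := add v392 v393; ok v394 && (
  let v395 := scale ⟨0, 19265617920, 0, 0⟩ v43; ok v395 && (
  let v396 := add v394 v395; ok v396 && (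
  let v397 := scale ⟨0, 6488326144, 0, 0⟩ v48; ok v397 && (
  let v398 := add v396 v397; ok v398 && (
  let v399 := cst ⟨65432190976, 0, 0, 0⟩; ok v399 && (
  let v400 := add v398 v399; ok v400 && (
  let v401 := scale ⟨1374389534720, 0, 0, 0⟩ v11; ok v401 && (
  let v402 := neg v401; ok v402 && (
  let v403 := exp v402; ok v403 && (
  let v404 := mul v400 v403; ok v404 && (
  let v405 := scale ⟨2199023255552, 0, 0, 0⟩ v404; ok v405 && (
  let v406 := add v247 v33; ok v406 && (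
  let v407 := mul v405 v406; ok v407 && (
  let v408 := inv v389; ok v408 && (
  let v409 := mul v407 v408; ok v409 && (
  let v410 := cst ⟨0, 0, 0, 0⟩; ok v410 && (
  let v411 := mul v385 v352; ok v411 && (
  let v412 := mul v411 v344; ok v412 && (
  let v413 := mul v409 v387; ok v413 && (
  let v414 := mul v412 v413; ok v414 && (
  let v415 := rball v410 v414; ok v415 && (
  let v416 := sub v0 v385; ok v416 && (
  let v417 := mul x3 v416; ok v417 && (
  let v418 := sub v0 v352; ok v418 && (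
  let v419 := mul v418 v387; ok v419 && (
  let v420 := mul v385 v419; ok v420 && (
  let v421 := add v417 v420; ok v421 && (
  let v422 := add v421 v415; ok v422 && (
  isLt v422 1099510579200 && (
  true))))))))))))))))))))))))))))))))))))))))))))))))))))))))))))))))))))))))))))))))))))))))))))))))))))))))))))))))))))))))))))))))))))))))))))))))))))))))))))))))))))))))))))))))))))))))))))))))))))))))))))))))))))))))))))))))))))))))))))))))))))))))))))))))))))))))))))))))))))))))))))))))))))))))))))))))))))))))))))))))))))))))))))))))))))))))))))))))))))))))))))))))))))))))))))))))))))))))))))))))))))))))))))))))))))))))))))))))))))))))))))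
  | _ => false

set_option maxRecDepth 1000000 in
theorem c_Z_0_eq (X : XOps) (m : List X.O.α)
    (h : c_Z_0 X.O.cst X.O.add X.O.sub X.O.mul X.O.scale X.O.neg X.O.inv X.O.exp X.O.log X.O.ok
      X.O.isPos X.O.isLt X.ball X.rball m = true) :
    runX X 3 p_Z_0 m = true := by
  match m, h with
  | [x0, x1, x2, x3], h => exact h

abbrev gZ : List (List Op) := [p_Z_0]

noncomputable abbrev kZ : List (List xE.O.α → Bool) := [c_Z_0 xE.O.cst xE.O.add xE.O.sub xE.O.mul xE.O.scale xE.O.neg xE.O.inv xE.O.exp xE.O.log xE.O.ok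
      xE.O.isPos xE.O.isLt xE.ball xE.rball]

theorem kZ_eq : List.Forall₂ (fun (ops : List Op) (chk : List xE.O.α → Bool) =>
    ∀ m, chk m = true → runX xE 3 ops m = true) gZ kZ :=
  List.Forall₂.cons (c_Z_0_eq xE) List.Forall₂.nil

theorem gZ_eq : gZ = [comp (PS0 tab) ρ4 4] := by decide +kernel

def p_T_0 : List Op := [
  .const ⟨1099511627776, 0, 0, 0⟩,
  .scale ⟨1931567052095488, 0, 0, 0⟩ 1,
  .const ⟨0, 178447438577664, 0, 0⟩,
  .add 1 0,
  .mul 0 4,
  .const ⟨5548026101760, 0, 0, 0⟩,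
  .add 1 0,
  .mul 8 0,
  .const ⟨2199023255552, 0, 0, 0⟩,
  .add 1 0,
  .mul 10 0,
  .scale ⟨2199023255552, 0, 0, 0⟩ 0,
  .exp 1,
  .neg 2,
  .exp 0,
  .mul 2 2,
  .mul 1 1,
  .mul 0 0,
  .add 2 1,
  .scale ⟨549755813888, 0, 0, 0⟩ 0,
  .scale ⟨2199023255552, 0, 0, 0⟩ 10,
  .mul 10 10,
  .lt 0 68719476736,
  .scale ⟨9162596898, 0, 0, 0⟩ 0,
  .const ⟨183251937962, 0, 0, 0⟩,
  .add 1 0,
  .mul 0 3,
  .const ⟨1099511627776, 0, 0, 0⟩,
  .add 1 0,
  .const ⟨65536, 0, 0, 0⟩,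
  .rball 1 0,
  .mul 9 0,
  .add 18 16,
  .scale ⟨549755813888, 0, 0, 0⟩ 0,
  .mul 2 0,
  .mul 3 3,
  .mul 35 0,
  .mul 2 2,
  .mul 37 0,
  .neg 17,
  .exp 0,
  .add 0 39,
  .pos 0,
  .log 0,
  .const ⟨30601641984, 0, 0, 0⟩,
  .sub 43 0,
  .const ⟨3238405341184, 0, 0, 0⟩,
  .sub 35 0,
  .mul 0 0,
  .mul 0 1,
  .mul 4 2,
  .mul 5 5,
  .const ⟨714575183872, 0, 0, 0⟩,
  .scale ⟨0, 0, 1099511627776, 0⟩ 0,
  .scale ⟨549755813888, 0, 0, 0⟩ 0,
  .add 0 52,
  .inv 0,
  .mul 3 0,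
  .scale ⟨238564289238720, 0, 0, 0⟩ 0,
  .const ⟨276138396116672, 0, 0, 0⟩,
  .add 1 0,
  .mul 3 0,
  .const ⟨0, 102360050371136, 0, 0⟩,
  .add 1 0,
  .mul 6 0,
  .const ⟨256982200839680, 0, 0, 0⟩,
  .add 1 0,
  .mul 9 0,
  .const ⟨0, 41863264241280, 0, 0⟩,
  .add 1 0,
  .mul 12 0,
  .const ⟨21442023585920, 0, 0, 0⟩,
  .add 1 0,
  .mul 15 0,
  .scale ⟨3475182744192, 0, 0, 0⟩ 26,
  .scale ⟨1154854475259072, 0, 0, 0⟩ 29,
  .add 1 0,
  .const ⟨13826506603328, 0, 0, 0⟩,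
  .add 1 0,
  .add 5 0,
  .mul 22 0,
  .scale ⟨2329324129408, 0, 0, 0⟩ 33,
  .scale ⟨0, 224014616909504, 0, 0⟩ 36,
  .add 1 0,
  .const ⟨0, 6076074816512, 0, 0⟩,
  .add 1 0,
  .add 5 0,
  .mul 29 0,
  .scale ⟨833285547584, 0, 0, 0⟩ 40,
  .scale ⟨454424979078976, 0, 0, 0⟩ 43,
  .add 1 0,
  .const ⟨1932884460736, 0, 0, 0⟩,
  .add 1 0,
  .add 5 0,
  .mul 36 0,
  .scale ⟨1052665380352, 0, 0, 0⟩ 47,
  .scale ⟨22628889024832, 0, 0, 0⟩ 50,
  .add 1 0,
  .const ⟨456079685184, 0, 0, 0⟩,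
  .add 1 0,
  .add 5 0,
  .mul 43 0,
  .scale ⟨72890060672, 0, 0, 0⟩ 54,
  .scale ⟨22706173166784, 0, 0, 0⟩ 57,
  .add 1 0,
  .const ⟨917152529152, 0, 0, 0⟩,
  .add 1 0,
  .add 5 0,
  .mul 50 0,
  .scale ⟨0, 123410999424, 0, 0⟩ 61,
  .scale ⟨0, 9437078427264, 0, 0⟩ 64,
  .add 1 0,
  .const ⟨3629267093056, 0, 0, 0⟩,
  .add 1 0,
  .add 5 0,
  .mul 57 0,
  .scale ⟨163253794432, 0, 0, 0⟩ 68,
  .scale ⟨1257151104, 0, 0, 0⟩ 68,
  .add 1 0,
  .scale ⟨15028122578304, 0, 0, 0⟩ 73,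
  .add 1 0,
  .scale ⟨5091964182400, 0, 0, 0⟩ 70,
  .add 1 0,
  .scale ⟨0, 38342093167104, 0, 0⟩ 71,
  .add 1 0,
  .const ⟨410123870592, 0, 0, 0⟩,
  .add 1 0,
  .mul 0 115,
  .add 12 0,
  .mul 127 127,
  .scale ⟨5703716569088, 0, 0, 0⟩ 0,
  .const ⟨1726576852992, 0, 0, 0⟩,
  .add 1 0,
  .scale ⟨4398046511104, 0, 0, 0⟩ 121,
  .mul 76 1,
  .scale ⟨4398046511104, 0, 0, 0⟩ 0,
  .add 2 0,
  .scale ⟨0, 12138643456, 0, 0⟩ 89,
  .scale ⟨7588937728, 0, 0, 0⟩ 89,
  .add 1 0,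
  .scale ⟨18969264128, 0, 0, 0⟩ 90,
  .add 1 0,
  .scale ⟨236195741696, 0, 0, 0⟩ 96,
  .add 1 0,
  .scale ⟨4062110416896, 0, 0, 0⟩ 93,
  .add 1 0,
  .const ⟨194506719232, 0, 0, 0⟩,
  .add 1 0,
  .scale ⟨2611340115968, 0, 0, 0⟩ 134,
  .neg 0,
  .exp 0,
  .mul 3 0,
  .mul 0 15,
  .scale ⟨549755813888, 0, 0, 0⟩ 16,
  .add 0 151,
  .pos 0,
  .inv 0,
  .mul 3 0,
  .neg 28,
  .exp 0,
  .add 0 156,
  .pos 0,
  .log 0,
  .mul 4 161,
  .sub 159 0,
  .pos 0,
  .log 0,
  .mul 5 2,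
  .add 0 162,
  .pos 0,
  .log 0,
  .sub 6 0,
  .add 156 124,
  .sub 1 0,
  .mul 0 168,
  .exp 0,
  .sub 5 8,
  .add 0 44,
  .mul 0 172,
  .exp 0,
  .mul 143 143,
  .scale ⟨274877906944, 0, 0, 0⟩ 0,
  .mul 48 0,
  .scale ⟨1649267441664, 0, 0, 0⟩ 0,
  .add 0 177,
  .mul 48 0,
  .mul 129 0,
  .scale ⟨0, 0, 1099511627776, 0⟩ 0,
  .mul 0 0,
  .sub 7 0,
  .mul 14 14,
  .mul 0 1,
  .mul 58 0,
  .scale ⟨4398046511104, 0, 0, 0⟩ 0,
  .sub 187 0,
  .pos 0,
  .log 0,
  .scale ⟨549755813888, 0, 0, 0⟩ 0,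
  .exp 0,
  .mul 192 22,
  .mul 0 11,
  .scale ⟨2199023255552, 0, 0, 0⟩ 0,
  .sub 3 0,
  .pos 0,
  .pos 196,
  .inv 196,
  .const ⟨549755813888, 0, 0, 0⟩,
  .sub 33 39,
  .log 3,
  .mul 0 3,
  .add 2 0,
  .exp 0,
  .sub 5 0,
  .pos 0]

set_option maxRecDepth 1000000 in
noncomputable def c_T_0 {α : Type} (cst : Z → α) (add sub mul : α → α → α) (scale : Z → α → α)
    (neg inv exp log : α → α) (ok : α → Bool) (isPos : Nat → α → Bool) (isLt : α → Nat → Bool)
    (ball : Nat → α → α) (rball : α → α → α) : List α → Bool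
  | [x0, x1, x2] =>
  let v0 := cst ⟨1099511627776, 0, 0, 0⟩; ok v0 && (
  let v1 := scale ⟨1931567052095488, 0, 0, 0⟩ x0; ok v1 && (
  let v2 := cst ⟨0, 178447438577664, 0, 0⟩; ok v2 && (
  let v3 := add v1 v2; ok v3 && (
  let v4 := mul v3 x0; ok v4 && (
  let v5 := cst ⟨5548026101760, 0, 0, 0⟩; ok v5 && (
  let v6 := add v4 v5; ok v6 && (
  let v7 := mul x1 v6; ok v7 && (
  let v8 := cst ⟨2199023255552, 0, 0, 0⟩; ok v8 && (
  let v9 := add v7 v8; ok v9 && (
  let v10 := mul x0 v9; ok v10 && (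
  let v11 := scale ⟨2199023255552, 0, 0, 0⟩ v10; ok v11 && (
  let v12 := exp v10; ok v12 && (
  let v13 := neg v10; ok v13 && (
  let v14 := exp v13; ok v14 && (
  let v15 := mul v12 v12; ok v15 && (
  let v16 := mul v14 v14; ok v16 && (
  let v17 := mul v16 v16; ok v17 && (
  let v18 := add v15 v16; ok v18 && (
  let v19 := scale ⟨549755813888, 0, 0, 0⟩ v18; ok v19 && (
  let v20 := scale ⟨2199023255552, 0, 0, 0⟩ v9; ok v20 && (
  let v21 := mul v10 v10; ok v21 && (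
  isLt v21 68719476736 && (
  let v22 := scale ⟨9162596898, 0, 0, 0⟩ v21; ok v22 && (
  let v23 := cst ⟨183251937962, 0, 0, 0⟩; ok v23 && (
  let v24 := add v22 v23; ok v24 && (
  let v25 := mul v24 v21; ok v25 && (
  let v26 := cst ⟨1099511627776, 0, 0, 0⟩; ok v26 && (
  let v27 := add v25 v26; ok v27 && (
  let v28 := cst ⟨65536, 0, 0, 0⟩; ok v28 && (
  let v29 := rball v27 v28; ok v29 && (
  let v30 := mul v20 v29; ok v30 && (
  let v31 := add v12 v14; ok v31 && (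
  let v32 := scale ⟨549755813888, 0, 0, 0⟩ v31; ok v32 && (
  let v33 := mul v30 v32; ok v33 && (
  let v34 := mul v30 v30; ok v34 && (
  let v35 := mul x0 v34; ok v35 && (
  let v36 := mul v33 v33; ok v36 && (
  let v37 := mul x0 v36; ok v37 && (
  let v38 := neg v20; ok v38 && (
  let v39 := exp v38; ok v39 && (
  let v40 := add v39 v0; ok v40 && (
  isPos 2 v40 && (
  let v41 := log v40; ok v41 && (
  let v42 := cst ⟨30601641984, 0, 0, 0⟩; ok v42 && (
  let v43 := sub x0 v42; ok v43 && (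
  let v44 := cst ⟨3238405341184, 0, 0, 0⟩; ok v44 && (
  let v45 := sub v9 v44; ok v45 && (
  let v46 := mul v45 v45; ok v46 && (
  let v47 := mul v46 v45; ok v47 && (
  let v48 := mul v43 v45; ok v48 && (
  let v49 := mul v43 v43; ok v49 && (
  let v50 := cst ⟨714575183872, 0, 0, 0⟩; ok v50 && (
  let v51 := scale ⟨0, 0, 1099511627776, 0⟩ v50; ok v51 && (
  let v52 := scale ⟨549755813888, 0, 0, 0⟩ v51; ok v52 && (
  let v53 := add v52 v0; ok v53 && (
  let v54 := inv v53; ok v54 && (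
  let v55 := mul v51 v54; ok v55 && (
  let v56 := scale ⟨238564289238720, 0, 0, 0⟩ v55; ok v56 && (
  let v57 := cst ⟨276138396116672, 0, 0, 0⟩; ok v57 && (
  let v58 := add v56 v57; ok v58 && (
  let v59 := mul v55 v58; ok v59 && (
  let v60 := cst ⟨0, 102360050371136, 0, 0⟩; ok v60 && (
  let v61 := add v59 v60; ok v61 && (
  let v62 := mul v55 v61; ok v62 && (
  let v63 := cst ⟨256982200839680, 0, 0, 0⟩; ok v63 && (
  let v64 := add v62 v63; ok v64 && (
  let v65 := mul v55 v64; ok v65 && (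
  let v66 := cst ⟨0, 41863264241280, 0, 0⟩; ok v66 && (
  let v67 := add v65 v66; ok v67 && (
  let v68 := mul v55 v67; ok v68 && (
  let v69 := cst ⟨21442023585920, 0, 0, 0⟩; ok v69 && (
  let v70 := add v68 v69; ok v70 && (
  let v71 := mul v55 v70; ok v71 && (
  let v72 := scale ⟨3475182744192, 0, 0, 0⟩ v45; ok v72 && (
  let v73 := scale ⟨1154854475259072, 0, 0, 0⟩ v43; ok v73 && (
  let v74 := add v72 v73; ok v74 && (
  let v75 := cst ⟨13826506603328, 0, 0, 0⟩; ok v75 && (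
  let v76 := add v74 v75; ok v76 && (
  let v77 := add v71 v76; ok v77 && (
  let v78 := mul v55 v77; ok v78 && (
  let v79 := scale ⟨2329324129408, 0, 0, 0⟩ v45; ok v79 && (
  let v80 := scale ⟨0, 224014616909504, 0, 0⟩ v43; ok v80 && (
  let v81 := add v79 v80; ok v81 && (
  let v82 := cst ⟨0, 6076074816512, 0, 0⟩; ok v82 && (
  let v83 := add v81 v82; ok v83 && (
  let v84 := add v78 v83; ok v84 && (
  let v85 := mul v55 v84; ok v85 && (
  let v86 := scale ⟨833285547584, 0, 0, 0⟩ v45; ok v86 && (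
  let v87 := scale ⟨454424979078976, 0, 0, 0⟩ v43; ok v87 && (
  let v88 := add v86 v87; ok v88 && (
  let v89 := cst ⟨1932884460736, 0, 0, 0⟩; ok v89 && (
  let v90 := add v88 v89; ok v90 && (
  let v91 := add v85 v90; ok v91 && (
  let v92 := mul v55 v91; ok v92 && (
  let v93 := scale ⟨1052665380352, 0, 0, 0⟩ v45; ok v93 && (
  let v94 := scale ⟨22628889024832, 0, 0, 0⟩ v43; ok v94 && (
  let v95 := add v93 v94; ok v95 && (
  let v96 := cst ⟨456079685184, 0, 0, 0⟩; ok v96 && (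
  let v97 := add v95 v96; ok v97 && (
  let v98 := add v92 v97; ok v98 && (
  let v99 := mul v55 v98; ok v99 && (
  let v100 := scale ⟨72890060672, 0, 0, 0⟩ v45; ok v100 && (
  let v101 := scale ⟨22706173166784, 0, 0, 0⟩ v43; ok v101 && (
  let v102 := add v100 v101; ok v102 && (
  let v103 := cst ⟨917152529152, 0, 0, 0⟩; ok v103 && (
  let v104 := add v102 v103; ok v104 && (
  let v105 := add v99 v104; ok v105 && (
  let v106 := mul v55 v105; ok v106 && (
  let v107 := scale ⟨0, 123410999424, 0, 0⟩ v45; ok v107 && (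
  let v108 := scale ⟨0, 9437078427264, 0, 0⟩ v43; ok v108 && (
  let v109 := add v107 v108; ok v109 && (
  let v110 := cst ⟨3629267093056, 0, 0, 0⟩; ok v110 && (
  let v111 := add v109 v110; ok v111 && (
  let v112 := add v106 v111; ok v112 && (
  let v113 := mul v55 v112; ok v113 && (
  let v114 := scale ⟨163253794432, 0, 0, 0⟩ v45; ok v114 && (
  let v115 := scale ⟨1257151104, 0, 0, 0⟩ v46; ok v115 && (
  let v116 := add v114 v115; ok v116 && (
  let v117 := scale ⟨15028122578304, 0, 0, 0⟩ v43; ok v117 && (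
  let v118 := add v116 v117; ok v118 && (
  let v119 := scale ⟨5091964182400, 0, 0, 0⟩ v48; ok v119 && (
  let v120 := add v118 v119; ok v120 && (
  let v121 := scale ⟨0, 38342093167104, 0, 0⟩ v49; ok v121 && (
  let v122 := add v120 v121; ok v122 && (
  let v123 := cst ⟨410123870592, 0, 0, 0⟩; ok v123 && (
  let v124 := add v122 v123; ok v124 && (
  let v125 := mul v124 v9; ok v125 && (
  let v126 := add v113 v125; ok v126 && (
  let v127 := mul x0 x0; ok v127 && (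
  let v128 := scale ⟨5703716569088, 0, 0, 0⟩ v127; ok v128 && (
  let v129 := cst ⟨1726576852992, 0, 0, 0⟩; ok v129 && (
  let v130 := add v128 v129; ok v130 && (
  let v131 := scale ⟨4398046511104, 0, 0, 0⟩ v9; ok v131 && (
  let v132 := mul v55 v130; ok v132 && (
  let v133 := scale ⟨4398046511104, 0, 0, 0⟩ v132; ok v133 && (
  let v134 := add v131 v133; ok v134 && (
  let v135 := scale ⟨0, 12138643456, 0, 0⟩ v45; ok v135 && (
  let v136 := scale ⟨7588937728, 0, 0, 0⟩ v46; ok v136 && (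
  let v137 := add v135 v136; ok v137 && (
  let v138 := scale ⟨18969264128, 0, 0, 0⟩ v47; ok v138 && (
  let v139 := add v137 v138; ok v139 && (
  let v140 := scale ⟨236195741696, 0, 0, 0⟩ v43; ok v140 && (
  let v141 := add v139 v140; ok v141 && (
  let v142 := scale ⟨4062110416896, 0, 0, 0⟩ v48; ok v142 && (
  let v143 := add v141 v142; ok v143 && (
  let v144 := cst ⟨194506719232, 0, 0, 0⟩; ok v144 && (
  let v145 := add v143 v144; ok v145 && (
  let v146 := scale ⟨2611340115968, 0, 0, 0⟩ v11; ok v146 && (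
  let v147 := neg v146; ok v147 && (
  let v148 := exp v147; ok v148 && (
  let v149 := mul v145 v148; ok v149 && (
  let v150 := mul v149 v134; ok v150 && (
  let v151 := scale ⟨549755813888, 0, 0, 0⟩ v134; ok v151 && (
  let v152 := add v151 v0; ok v152 && (
  isPos 2 v152 && (
  let v153 := inv v152; ok v153 && (
  let v154 := mul v150 v153; ok v154 && (
  let v155 := neg v126; ok v155 && (
  let v156 := exp v155; ok v156 && (
  let v157 := add v156 v0; ok v157 && (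
  isPos 2 v157 && (
  let v158 := log v157; ok v158 && (
  let v159 := mul v154 x2; ok v159 && (
  let v160 := sub v0 v159; ok v160 && (
  isPos 2 v160 && (
  let v161 := log v160; ok v161 && (
  let v162 := mul v156 v159; ok v162 && (
  let v163 := add v162 v0; ok v163 && (
  isPos 2 v163 && (
  let v164 := log v163; ok v164 && (
  let v165 := sub v158 v164; ok v165 && (
  let v166 := add v9 v41; ok v166 && (
  let v167 := sub v165 v166; ok v167 && (
  let v168 := mul v167 x0; ok v168 && (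
  let v169 := exp v168; ok v169 && (
  let v170 := sub v164 v161; ok v170 && (
  let v171 := add v170 v126; ok v171 && (
  let v172 := mul v171 x0; ok v172 && (
  let v173 := exp v172; ok v173 && (
  let v174 := mul v30 v30; ok v174 && (
  let v175 := scale ⟨274877906944, 0, 0, 0⟩ v174; ok v175 && (
  let v176 := mul v127 v175; ok v176 && (
  let v177 := scale ⟨1649267441664, 0, 0, 0⟩ v176; ok v177 && (
  let v178 := add v177 v0; ok v178 && (
  let v179 := mul v130 v178; ok v179 && (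
  let v180 := mul v50 v179; ok v180 && (
  let v181 := scale ⟨0, 0, 1099511627776, 0⟩ v180; ok v181 && (
  let v182 := mul v181 v181; ok v182 && (
  let v183 := sub v175 v182; ok v183 && (
  let v184 := mul v169 v169; ok v184 && (
  let v185 := mul v184 v183; ok v185 && (
  let v186 := mul v127 v185; ok v186 && (
  let v187 := scale ⟨4398046511104, 0, 0, 0⟩ v186; ok v187 && (
  let v188 := sub v0 v187; ok v188 && (
  isPos 2 v188 && (
  let v189 := log v188; ok v189 && (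
  let v190 := scale ⟨549755813888, 0, 0, 0⟩ v189; ok v190 && (
  let v191 := exp v190; ok v191 && (
  let v192 := mul x0 v169; ok v192 && (
  let v193 := mul v192 v181; ok v193 && (
  let v194 := scale ⟨2199023255552, 0, 0, 0⟩ v193; ok v194 && (
  let v195 := sub v191 v194; ok v195 && (
  isPos 2 v195 && (
  isPos 2 x0 && (
  let v196 := inv x0; ok v196 && (
  let v197 := cst ⟨549755813888, 0, 0, 0⟩; ok v197 && (
  let v198 := sub v164 v158; ok v198 && (
  let v199 := log v195; ok v199 && (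
  let v200 := mul v199 v196; ok v200 && (
  let v201 := add v198 v200; ok v201 && (
  let v202 := exp v201; ok v202 && (
  let v203 := sub v197 v202; ok v203 && (
  isPos 2 v203 && (
  true))))))))))))))))))))))))))))))))))))))))))))))))))))))))))))))))))))))))))))))))))))))))))))))))))))))))))))))))))))))))))))))))))))))))))))))))))))))))))))))))))))))))))))))))))))))))))))))))))))))))))))))))))))))
  | _ => false

set_option maxRecDepth 1000000 in
theorem c_T_0_eq (X : XOps) (m : List X.O.α)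
    (h : c_T_0 X.O.cst X.O.add X.O.sub X.O.mul X.O.scale X.O.neg X.O.inv X.O.exp X.O.log X.O.ok
      X.O.isPos X.O.isLt X.ball X.rball m = true) :
    runX X 2 p_T_0 m = true := by
  match m, h with
  | [x0, x1, x2], h => exact h

abbrev gT : List (List Op) := [p_T_0]

noncomputable abbrev kT : List (List xE.O.α → Bool) := [c_T_0 xE.O.cst xE.O.add xE.O.sub xE.O.mul xE.O.scale xE.O.neg xE.O.inv xE.O.exp xE.O.log xE.O.ok
      xE.O.isPos xE.O.isLt xE.ball xE.rball]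

theorem kT_eq : List.Forall₂ (fun (ops : List Op) (chk : List xE.O.α → Bool) =>
    ∀ m, chk m = true → runX xE 2 ops m = true) gT kT :=
  List.Forall₂.cons (c_T_0_eq xE) List.Forall₂.nil

theorem gT_eq : gT = [comp (PST tab 714575183872) ρ3 3] := by decide +kernel

def p_S_0 : List Op := [
  .const ⟨1099511627776, 0, 0, 0⟩,
  .scale ⟨1931567052095488, 0, 0, 0⟩ 1,
  .const ⟨0, 178447438577664, 0, 0⟩,
  .add 1 0,
  .mul 0 4,
  .const ⟨5548026101760, 0, 0, 0⟩,
  .add 1 0,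
  .mul 8 0,
  .const ⟨2199023255552, 0, 0, 0⟩,
  .add 1 0,
  .mul 10 0,
  .exp 0,
  .neg 1,
  .exp 0,
  .mul 3 3,
  .lt 0 68719476736,
  .scale ⟨9162596898, 0, 0, 0⟩ 0,
  .const ⟨183251937962, 0, 0, 0⟩,
  .add 1 0,
  .mul 0 3,
  .const ⟨1099511627776, 0, 0, 0⟩,
  .add 1 0,
  .const ⟨65536, 0, 0, 0⟩,
  .rball 1 0,
  .scale ⟨2199023255552, 0, 0, 0⟩ 13,
  .mul 0 1,
  .add 13 11,
  .scale ⟨549755813888, 0, 0, 0⟩ 0,
  .mul 2 0,
  .mul 0 0,
  .const ⟨30601641984, 0, 0, 0⟩,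
  .sub 30 0,
  .const ⟨3238405341184, 0, 0, 0⟩,
  .sub 22 0,
  .mul 0 0,
  .mul 0 1,
  .mul 4 2,
  .scale ⟨0, 15781003264, 0, 0⟩ 3,
  .scale ⟨44905725952, 0, 0, 0⟩ 3,
  .add 1 0,
  .scale ⟨0, 942538752, 0, 0⟩ 4,
  .add 1 0,
  .scale ⟨3633058545664, 0, 0, 0⟩ 10,
  .add 1 0,
  .scale ⟨7676985344000, 0, 0, 0⟩ 7,
  .add 1 0,
  .const ⟨750449852416, 0, 0, 0⟩,
  .add 1 0,
  .pos 0,
  .const ⟨11097121751040, 0, 0, 0⟩,
  .add 19 0,
  .pos 0,
  .const ⟨30601641984, 0, 0, 0⟩,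
  .sub 50 0,
  .const ⟨3238405341184, 0, 0, 0⟩,
  .sub 42 0,
  .mul 0 0,
  .mul 0 1,
  .mul 4 2,
  .mul 42 42,
  .mul 0 0,
  .scale ⟨4398046511104, 0, 0, 0⟩ 47,
  .neg 0,
  .exp 0,
  .scale ⟨0, 15781003264, 0, 0⟩ 8,
  .scale ⟨44905725952, 0, 0, 0⟩ 8,
  .add 1 0,
  .scale ⟨0, 942538752, 0, 0⟩ 9,
  .add 1 0,
  .scale ⟨3633058545664, 0, 0, 0⟩ 15,
  .add 1 0,
  .scale ⟨7676985344000, 0, 0, 0⟩ 12,
  .add 1 0,
  .const ⟨750449852416, 0, 0, 0⟩,
  .add 1 0,
  .mul 72 44,
  .mul 0 1,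
  .add 0 73,
  .mul 14 0,
  .scale ⟨2199023255552, 0, 0, 0⟩ 19,
  .mul 5 16,
  .sub 1 0,
  .pos 0,
  .scale ⟨96610091008, 0, 0, 0⟩ 26,
  .scale ⟨0, 3727949824, 0, 0⟩ 26,
  .add 1 0,
  .scale ⟨0, 4492492800, 0, 0⟩ 27,
  .add 1 0,
  .scale ⟨6635970297856, 0, 0, 0⟩ 33,
  .add 1 0,
  .scale ⟨2000086040576, 0, 0, 0⟩ 30,
  .add 1 0,
  .const ⟨574364254208, 0, 0, 0⟩,
  .add 1 0,
  .pos 0,
  .const ⟨14277545033728, 0, 0, 0⟩,
  .add 62 0,
  .pos 0,
  .const ⟨30601641984, 0, 0, 0⟩,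
  .sub 93 0,
  .const ⟨3238405341184, 0, 0, 0⟩,
  .sub 85 0,
  .mul 0 0,
  .mul 0 1,
  .mul 4 2,
  .mul 85 85,
  .mul 0 0,
  .scale ⟨8796093022208, 0, 0, 0⟩ 90,
  .neg 0,
  .exp 0,
  .scale ⟨80829087744, 0, 0, 0⟩ 8,
  .scale ⟨41177776128, 0, 0, 0⟩ 8,
  .add 1 0,
  .scale ⟨0, 5435031552, 0, 0⟩ 9,
  .add 1 0,
  .scale ⟨10269028843520, 0, 0, 0⟩ 15,
  .add 1 0,
  .scale ⟨9677071384576, 0, 0, 0⟩ 12,
  .add 1 0,
  .const ⟨1324814106624, 0, 0, 0⟩,
  .add 1 0,
  .mul 115 87,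
  .mul 0 1,
  .add 0 116,
  .mul 14 0,
  .scale ⟨1099511627776, 0, 0, 0⟩ 18,
  .add 0 119,
  .mul 21 0,
  .scale ⟨2199023255552, 0, 0, 0⟩ 0,
  .mul 8 19,
  .sub 1 0,
  .pos 0,
  .scale ⟨56805425152, 0, 0, 0⟩ 29,
  .scale ⟨0, 11215634432, 0, 0⟩ 29,
  .add 1 0,
  .scale ⟨0, 372506624, 0, 0⟩ 30,
  .add 1 0,
  .scale ⟨4164179918848, 0, 0, 0⟩ 36,
  .add 1 0,
  .scale ⟨94981324800, 0, 0, 0⟩ 33,
  .add 1 0,
  .const ⟨527373500416, 0, 0, 0⟩,
  .add 1 0,
  .pos 0,
  .const ⟨16193100447744, 0, 0, 0⟩,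
  .add 108 0,
  .pos 0,
  .const ⟨30601641984, 0, 0, 0⟩,
  .sub 139 0,
  .const ⟨3238405341184, 0, 0, 0⟩,
  .sub 131 0,
  .mul 0 0,
  .mul 0 1,
  .mul 4 2,
  .mul 131 131,
  .mul 0 0,
  .scale ⟨13194139533312, 0, 0, 0⟩ 136,
  .neg 0,
  .exp 0,
  .scale ⟨137634512896, 0, 0, 0⟩ 8,
  .scale ⟨29962141696, 0, 0, 0⟩ 8,
  .add 1 0,
  .scale ⟨0, 5807538176, 0, 0⟩ 9,
  .add 1 0,
  .scale ⟨14433208762368, 0, 0, 0⟩ 15,
  .add 1 0,
  .scale ⟨9772052709376, 0, 0, 0⟩ 12,
  .add 1 0,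
  .const ⟨1852187607040, 0, 0, 0⟩,
  .add 1 0,
  .mul 161 133,
  .mul 0 1,
  .add 0 162,
  .mul 14 0,
  .scale ⟨1099511627776, 0, 0, 0⟩ 18,
  .add 0 165,
  .mul 20 0,
  .add 0 167,
  .mul 23 0,
  .scale ⟨2199023255552, 0, 0, 0⟩ 0,
  .mul 10 21,
  .sub 1 0,
  .pos 0,
  .scale ⟨27842379776, 0, 0, 0⟩ 31,
  .scale ⟨0, 11290083328, 0, 0⟩ 31,
  .add 1 0,
  .scale ⟨755564544, 0, 0, 0⟩ 32,
  .add 1 0,
  .scale ⟨2476558516224, 0, 0, 0⟩ 38,
  .add 1 0,
  .scale ⟨0, 1131398823936, 0, 0⟩ 35,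
  .add 1 0,
  .const ⟨506117881856, 0, 0, 0⟩,
  .add 1 0,
  .pos 0,
  .const ⟨17248588660736, 0, 0, 0⟩,
  .add 156 0,
  .pos 0,
  .const ⟨30601641984, 0, 0, 0⟩,
  .sub 187 0,
  .const ⟨3238405341184, 0, 0, 0⟩,
  .sub 179 0,
  .mul 0 0,
  .mul 0 1,
  .mul 4 2,
  .mul 179 179,
  .mul 0 0,
  .scale ⟨17592186044416, 0, 0, 0⟩ 184,
  .neg 0,
  .exp 0,
  .scale ⟨165476892672, 0, 0, 0⟩ 8,
  .scale ⟨18672058368, 0, 0, 0⟩ 8,
  .add 1 0,
  .scale ⟨0, 5051973632, 0, 0⟩ 9,
  .add 1 0,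
  .scale ⟨16909767278592, 0, 0, 0⟩ 15,
  .add 1 0,
  .scale ⟨8640653885440, 0, 0, 0⟩ 12,
  .add 1 0,
  .const ⟨2358305488896, 0, 0, 0⟩,
  .add 1 0,
  .mul 209 181,
  .mul 0 1,
  .add 0 210,
  .mul 14 0,
  .scale ⟨1099511627776, 0, 0, 0⟩ 18,
  .add 0 213,
  .mul 20 0,
  .add 0 215,
  .mul 22 0,
  .add 0 217,
  .mul 25 0,
  .scale ⟨2199023255552, 0, 0, 0⟩ 0,
  .mul 12 23,
  .sub 1 0,
  .pos 0,
  .scale ⟨10387193856, 0, 0, 0⟩ 33,
  .scale ⟨0, 10893656064, 0, 0⟩ 33,
  .add 1 0,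
  .scale ⟨454361088, 0, 0, 0⟩ 34,
  .add 1 0,
  .scale ⟨1453380665344, 0, 0, 0⟩ 40,
  .add 1 0,
  .scale ⟨0, 1398126149632, 0, 0⟩ 37,
  .add 1 0,
  .const ⟨489070657536, 0, 0, 0⟩,
  .add 1 0,
  .pos 0,
  .const ⟨17280800915456, 0, 0, 0⟩,
  .add 206 0,
  .pos 0,
  .const ⟨30601641984, 0, 0, 0⟩,
  .sub 237 0,
  .const ⟨3238405341184, 0, 0, 0⟩,
  .sub 229 0,
  .mul 0 0,
  .mul 0 1,
  .mul 4 2,
  .mul 229 229,
  .mul 0 0,
  .scale ⟨21990232555520, 0, 0, 0⟩ 234,
  .neg 0,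
  .exp 0,
  .scale ⟨175864086528, 0, 0, 0⟩ 8,
  .scale ⟨7778402304, 0, 0, 0⟩ 8,
  .add 1 0,
  .scale ⟨0, 4597612544, 0, 0⟩ 9,
  .add 1 0,
  .scale ⟨18363147943936, 0, 0, 0⟩ 15,
  .add 1 0,
  .scale ⟨7242527735808, 0, 0, 0⟩ 12,
  .add 1 0,
  .const ⟨2847376146432, 0, 0, 0⟩,
  .add 1 0,
  .mul 259 231,
  .mul 0 1,
  .add 0 260,
  .mul 14 0,
  .scale ⟨1099511627776, 0, 0, 0⟩ 18,
  .add 0 263,
  .mul 20 0,
  .add 0 265,
  .mul 22 0,
  .add 0 267,
  .mul 24 0,
  .add 0 269,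
  .mul 27 0,
  .scale ⟨2199023255552, 0, 0, 0⟩ 0,
  .mul 14 25,
  .sub 1 0,
  .pos 0,
  .mul 275 247,
  .mul 0 17,
  .add 0 276,
  .scale ⟨4837850742784, 0, 0, 0⟩ 267,
  .neg 0,
  .exp 0,
  .mul 3 0,
  .lt 0 1099511627520]

set_option maxRecDepth 1000000 in
noncomputable def c_S_0 {α : Type} (cst : Z → α) (add sub mul : α → α → α) (scale : Z → α → α)
    (neg inv exp log : α → α) (ok : α → Bool) (isPos : Nat → α → Bool) (isLt : α → Nat → Bool)
    (ball : Nat → α → α) (rball : α → α → α) : List α → Bool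
  | [x0, x1] =>
  let v0 := cst ⟨1099511627776, 0, 0, 0⟩; ok v0 && (
  let v1 := scale ⟨1931567052095488, 0, 0, 0⟩ x0; ok v1 && (
  let v2 := cst ⟨0, 178447438577664, 0, 0⟩; ok v2 && (
  let v3 := add v1 v2; ok v3 && (
  let v4 := mul v3 x0; ok v4 && (
  let v5 := cst ⟨5548026101760, 0, 0, 0⟩; ok v5 && (
  let v6 := add v4 v5; ok v6 && (
  let v7 := mul x1 v6; ok v7 && (
  let v8 := cst ⟨2199023255552, 0, 0, 0⟩; ok v8 && (
  let v9 := add v7 v8; ok v9 && (
  let v10 := mul x0 v9; ok v10 && (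
  let v11 := exp v10; ok v11 && (
  let v12 := neg v10; ok v12 && (
  let v13 := exp v12; ok v13 && (
  let v14 := mul v10 v10; ok v14 && (
  isLt v14 68719476736 && (
  let v15 := scale ⟨9162596898, 0, 0, 0⟩ v14; ok v15 && (
  let v16 := cst ⟨183251937962, 0, 0, 0⟩; ok v16 && (
  let v17 := add v15 v16; ok v17 && (
  let v18 := mul v17 v14; ok v18 && (
  let v19 := cst ⟨1099511627776, 0, 0, 0⟩; ok v19 && (
  let v20 := add v18 v19; ok v20 && (
  let v21 := cst ⟨65536, 0, 0, 0⟩; ok v21 && (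
  let v22 := rball v20 v21; ok v22 && (
  let v23 := scale ⟨2199023255552, 0, 0, 0⟩ v9; ok v23 && (
  let v24 := mul v23 v22; ok v24 && (
  let v25 := add v11 v13; ok v25 && (
  let v26 := scale ⟨549755813888, 0, 0, 0⟩ v25; ok v26 && (
  let v27 := mul v24 v26; ok v27 && (
  let v28 := mul v27 v27; ok v28 && (
  let v29 := cst ⟨30601641984, 0, 0, 0⟩; ok v29 && (
  let v30 := sub x0 v29; ok v30 && (
  let v31 := cst ⟨3238405341184, 0, 0, 0⟩; ok v31 && (
  let v32 := sub v9 v31; ok v32 && (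
  let v33 := mul v32 v32; ok v33 && (
  let v34 := mul v33 v32; ok v34 && (
  let v35 := mul v30 v32; ok v35 && (
  let v36 := scale ⟨0, 15781003264, 0, 0⟩ v32; ok v36 && (
  let v37 := scale ⟨44905725952, 0, 0, 0⟩ v33; ok v37 && (
  let v38 := add v36 v37; ok v38 && (
  let v39 := scale ⟨0, 942538752, 0, 0⟩ v34; ok v39 && (
  let v40 := add v38 v39; ok v40 && (
  let v41 := scale ⟨3633058545664, 0, 0, 0⟩ v30; ok v41 && (
  let v42 := add v40 v41; ok v42 && (
  let v43 := scale ⟨7676985344000, 0, 0, 0⟩ v35; ok v43 && (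
  let v44 := add v42 v43; ok v44 && (
  let v45 := cst ⟨750449852416, 0, 0, 0⟩; ok v45 && (
  let v46 := add v44 v45; ok v46 && (
  isPos 2 v46 && (
  let v47 := cst ⟨11097121751040, 0, 0, 0⟩; ok v47 && (
  let v48 := add v28 v47; ok v48 && (
  isPos 2 v48 && (
  let v49 := cst ⟨30601641984, 0, 0, 0⟩; ok v49 && (
  let v50 := sub x0 v49; ok v50 && (
  let v51 := cst ⟨3238405341184, 0, 0, 0⟩; ok v51 && (
  let v52 := sub v9 v51; ok v52 && (
  let v53 := mul v52 v52; ok v53 && (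
  let v54 := mul v53 v52; ok v54 && (
  let v55 := mul v50 v52; ok v55 && (
  let v56 := mul v13 v13; ok v56 && (
  let v57 := mul v56 v56; ok v57 && (
  let v58 := scale ⟨4398046511104, 0, 0, 0⟩ v10; ok v58 && (
  let v59 := neg v58; ok v59 && (
  let v60 := exp v59; ok v60 && (
  let v61 := scale ⟨0, 15781003264, 0, 0⟩ v52; ok v61 && (
  let v62 := scale ⟨44905725952, 0, 0, 0⟩ v53; ok v62 && (
  let v63 := add v61 v62; ok v63 && (
  let v64 := scale ⟨0, 942538752, 0, 0⟩ v54; ok v64 && (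
  let v65 := add v63 v64; ok v65 && (
  let v66 := scale ⟨3633058545664, 0, 0, 0⟩ v50; ok v66 && (
  let v67 := add v65 v66; ok v67 && (
  let v68 := scale ⟨7676985344000, 0, 0, 0⟩ v55; ok v68 && (
  let v69 := add v67 v68; ok v69 && (
  let v70 := cst ⟨750449852416, 0, 0, 0⟩; ok v70 && (
  let v71 := add v69 v70; ok v71 && (
  let v72 := mul x0 v27; ok v72 && (
  let v73 := mul v72 v71; ok v73 && (
  let v74 := add v73 v0; ok v74 && (
  let v75 := mul v60 v74; ok v75 && (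
  let v76 := scale ⟨2199023255552, 0, 0, 0⟩ v56; ok v76 && (
  let v77 := mul v71 v60; ok v77 && (
  let v78 := sub v76 v77; ok v78 && (
  isPos 2 v78 && (
  let v79 := scale ⟨96610091008, 0, 0, 0⟩ v52; ok v79 && (
  let v80 := scale ⟨0, 3727949824, 0, 0⟩ v53; ok v80 && (
  let v81 := add v79 v80; ok v81 && (
  let v82 := scale ⟨0, 4492492800, 0, 0⟩ v54; ok v82 && (
  let v83 := add v81 v82; ok v83 && (
  let v84 := scale ⟨6635970297856, 0, 0, 0⟩ v50; ok v84 && (
  let v85 := add v83 v84; ok v85 && (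
  let v86 := scale ⟨2000086040576, 0, 0, 0⟩ v55; ok v86 && (
  let v87 := add v85 v86; ok v87 && (
  let v88 := cst ⟨574364254208, 0, 0, 0⟩; ok v88 && (
  let v89 := add v87 v88; ok v89 && (
  isPos 2 v89 && (
  let v90 := cst ⟨14277545033728, 0, 0, 0⟩; ok v90 && (
  let v91 := add v28 v90; ok v91 && (
  isPos 2 v91 && (
  let v92 := cst ⟨30601641984, 0, 0, 0⟩; ok v92 && (
  let v93 := sub x0 v92; ok v93 && (
  let v94 := cst ⟨3238405341184, 0, 0, 0⟩; ok v94 && (
  let v95 := sub v9 v94; ok v95 && (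
  let v96 := mul v95 v95; ok v96 && (
  let v97 := mul v96 v95; ok v97 && (
  let v98 := mul v93 v95; ok v98 && (
  let v99 := mul v13 v13; ok v99 && (
  let v100 := mul v99 v99; ok v100 && (
  let v101 := scale ⟨8796093022208, 0, 0, 0⟩ v10; ok v101 && (
  let v102 := neg v101; ok v102 && (
  let v103 := exp v102; ok v103 && (
  let v104 := scale ⟨80829087744, 0, 0, 0⟩ v95; ok v104 && (
  let v105 := scale ⟨41177776128, 0, 0, 0⟩ v96; ok v105 && (
  let v106 := add v104 v105; ok v106 && (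
  let v107 := scale ⟨0, 5435031552, 0, 0⟩ v97; ok v107 && (
  let v108 := add v106 v107; ok v108 && (
  let v109 := scale ⟨10269028843520, 0, 0, 0⟩ v93; ok v109 && (
  let v110 := add v108 v109; ok v110 && (
  let v111 := scale ⟨9677071384576, 0, 0, 0⟩ v98; ok v111 && (
  let v112 := add v110 v111; ok v112 && (
  let v113 := cst ⟨1324814106624, 0, 0, 0⟩; ok v113 && (
  let v114 := add v112 v113; ok v114 && (
  let v115 := mul x0 v27; ok v115 && (
  let v116 := mul v115 v114; ok v116 && (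
  let v117 := add v116 v0; ok v117 && (
  let v118 := mul v103 v117; ok v118 && (
  let v119 := scale ⟨1099511627776, 0, 0, 0⟩ v100; ok v119 && (
  let v120 := add v119 v0; ok v120 && (
  let v121 := mul v99 v120; ok v121 && (
  let v122 := scale ⟨2199023255552, 0, 0, 0⟩ v121; ok v122 && (
  let v123 := mul v114 v103; ok v123 && (
  let v124 := sub v122 v123; ok v124 && (
  isPos 2 v124 && (
  let v125 := scale ⟨56805425152, 0, 0, 0⟩ v95; ok v125 && (
  let v126 := scale ⟨0, 11215634432, 0, 0⟩ v96; ok v126 && (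
  let v127 := add v125 v126; ok v127 && (
  let v128 := scale ⟨0, 372506624, 0, 0⟩ v97; ok v128 && (
  let v129 := add v127 v128; ok v129 && (
  let v130 := scale ⟨4164179918848, 0, 0, 0⟩ v93; ok v130 && (
  let v131 := add v129 v130; ok v131 && (
  let v132 := scale ⟨94981324800, 0, 0, 0⟩ v98; ok v132 && (
  let v133 := add v131 v132; ok v133 && (
  let v134 := cst ⟨527373500416, 0, 0, 0⟩; ok v134 && (
  let v135 := add v133 v134; ok v135 && (
  isPos 2 v135 && (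
  let v136 := cst ⟨16193100447744, 0, 0, 0⟩; ok v136 && (
  let v137 := add v28 v136; ok v137 && (
  isPos 2 v137 && (
  let v138 := cst ⟨30601641984, 0, 0, 0⟩; ok v138 && (
  let v139 := sub x0 v138; ok v139 && (
  let v140 := cst ⟨3238405341184, 0, 0, 0⟩; ok v140 && (
  let v141 := sub v9 v140; ok v141 && (
  let v142 := mul v141 v141; ok v142 && (
  let v143 := mul v142 v141; ok v143 && (
  let v144 := mul v139 v141; ok v144 && (
  let v145 := mul v13 v13; ok v145 && (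
  let v146 := mul v145 v145; ok v146 && (
  let v147 := scale ⟨13194139533312, 0, 0, 0⟩ v10; ok v147 && (
  let v148 := neg v147; ok v148 && (
  let v149 := exp v148; ok v149 && (
  let v150 := scale ⟨137634512896, 0, 0, 0⟩ v141; ok v150 && (
  let v151 := scale ⟨29962141696, 0, 0, 0⟩ v142; ok v151 && (
  let v152 := add v150 v151; ok v152 && (
  let v153 := scale ⟨0, 5807538176, 0, 0⟩ v143; ok v153 && (
  let v154 := add v152 v153; ok v154 && (
  let v155 := scale ⟨14433208762368, 0, 0, 0⟩ v139; ok v155 && (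
  let v156 := add v154 v155; ok v156 && (
  let v157 := scale ⟨9772052709376, 0, 0, 0⟩ v144; ok v157 && (
  let v158 := add v156 v157; ok v158 && (
  let v159 := cst ⟨1852187607040, 0, 0, 0⟩; ok v159 && (
  let v160 := add v158 v159; ok v160 && (
  let v161 := mul x0 v27; ok v161 && (
  let v162 := mul v161 v160; ok v162 && (
  let v163 := add v162 v0; ok v163 && (
  let v164 := mul v149 v163; ok v164 && (
  let v165 := scale ⟨1099511627776, 0, 0, 0⟩ v146; ok v165 && (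
  let v166 := add v165 v0; ok v166 && (
  let v167 := mul v146 v166; ok v167 && (
  let v168 := add v167 v0; ok v168 && (
  let v169 := mul v145 v168; ok v169 && (
  let v170 := scale ⟨2199023255552, 0, 0, 0⟩ v169; ok v170 && (
  let v171 := mul v160 v149; ok v171 && (
  let v172 := sub v170 v171; ok v172 && (
  isPos 2 v172 && (
  let v173 := scale ⟨27842379776, 0, 0, 0⟩ v141; ok v173 && (
  let v174 := scale ⟨0, 11290083328, 0, 0⟩ v142; ok v174 && (
  let v175 := add v173 v174; ok v175 && (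
  let v176 := scale ⟨755564544, 0, 0, 0⟩ v143; ok v176 && (
  let v177 := add v175 v176; ok v177 && (
  let v178 := scale ⟨2476558516224, 0, 0, 0⟩ v139; ok v178 && (
  let v179 := add v177 v178; ok v179 && (
  let v180 := scale ⟨0, 1131398823936, 0, 0⟩ v144; ok v180 && (
  let v181 := add v179 v180; ok v181 && (
  let v182 := cst ⟨506117881856, 0, 0, 0⟩; ok v182 && (
  let v183 := add v181 v182; ok v183 && (
  isPos 2 v183 && (
  let v184 := cst ⟨17248588660736, 0, 0, 0⟩; ok v184 && (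
  let v185 := add v28 v184; ok v185 && (
  isPos 2 v185 && (
  let v186 := cst ⟨30601641984, 0, 0, 0⟩; ok v186 && (
  let v187 := sub x0 v186; ok v187 && (
  let v188 := cst ⟨3238405341184, 0, 0, 0⟩; ok v188 && (
  let v189 := sub v9 v188; ok v189 && (
  let v190 := mul v189 v189; ok v190 && (
  let v191 := mul v190 v189; ok v191 && (
  let v192 := mul v187 v189; ok v192 && (
  let v193 := mul v13 v13; ok v193 && (
  let v194 := mul v193 v193; ok v194 && (
  let v195 := scale ⟨17592186044416, 0, 0, 0⟩ v10; ok v195 && (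
  let v196 := neg v195; ok v196 && (
  let v197 := exp v196; ok v197 && (
  let v198 := scale ⟨165476892672, 0, 0, 0⟩ v189; ok v198 && (
  let v199 := scale ⟨18672058368, 0, 0, 0⟩ v190; ok v199 && (
  let v200 := add v198 v199; ok v200 && (
  let v201 := scale ⟨0, 5051973632, 0, 0⟩ v191; ok v201 && (
  let v202 := add v200 v201; ok v202 && (
  let v203 := scale ⟨16909767278592, 0, 0, 0⟩ v187; ok v203 && (
  let v204 := add v202 v203; ok v204 && (
  let v205 := scale ⟨8640653885440, 0, 0, 0⟩ v192; ok v205 && (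
  let v206 := add v204 v205; ok v206 && (
  let v207 := cst ⟨2358305488896, 0, 0, 0⟩; ok v207 && (
  let v208 := add v206 v207; ok v208 && (
  let v209 := mul x0 v27; ok v209 && (
  let v210 := mul v209 v208; ok v210 && (
  let v211 := add v210 v0; ok v211 && (
  let v212 := mul v197 v211; ok v212 && (
  let v213 := scale ⟨1099511627776, 0, 0, 0⟩ v194; ok v213 && (
  let v214 := add v213 v0; ok v214 && (
  let v215 := mul v194 v214; ok v215 && (
  let v216 := add v215 v0; ok v216 && (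
  let v217 := mul v194 v216; ok v217 && (
  let v218 := add v217 v0; ok v218 && (
  let v219 := mul v193 v218; ok v219 && (
  let v220 := scale ⟨2199023255552, 0, 0, 0⟩ v219; ok v220 && (
  let v221 := mul v208 v197; ok v221 && (
  let v222 := sub v220 v221; ok v222 && (
  isPos 2 v222 && (
  let v223 := scale ⟨10387193856, 0, 0, 0⟩ v189; ok v223 && (
  let v224 := scale ⟨0, 10893656064, 0, 0⟩ v190; ok v224 && (
  let v225 := add v223 v224; ok v225 && (
  let v226 := scale ⟨454361088, 0, 0, 0⟩ v191; ok v226 && (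
  let v227 := add v225 v226; ok v227 && (
  let v228 := scale ⟨1453380665344, 0, 0, 0⟩ v187; ok v228 && (
  let v229 := add v227 v228; ok v229 && (
  let v230 := scale ⟨0, 1398126149632, 0, 0⟩ v192; ok v230 && (
  let v231 := add v229 v230; ok v231 && (
  let v232 := cst ⟨489070657536, 0, 0, 0⟩; ok v232 && (
  let v233 := add v231 v232; ok v233 && (
  isPos 2 v233 && (
  let v234 := cst ⟨17280800915456, 0, 0, 0⟩; ok v234 && (
  let v235 := add v28 v234; ok v235 && (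
  isPos 2 v235 && (
  let v236 := cst ⟨30601641984, 0, 0, 0⟩; ok v236 && (
  let v237 := sub x0 v236; ok v237 && (
  let v238 := cst ⟨3238405341184, 0, 0, 0⟩; ok v238 && (
  let v239 := sub v9 v238; ok v239 && (
  let v240 := mul v239 v239; ok v240 && (
  let v241 := mul v240 v239; ok v241 && (
  let v242 := mul v237 v239; ok v242 && (
  let v243 := mul v13 v13; ok v243 && (
  let v244 := mul v243 v243; ok v244 && (
  let v245 := scale ⟨21990232555520, 0, 0, 0⟩ v10; ok v245 && (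
  let v246 := neg v245; ok v246 && (
  let v247 := exp v246; ok v247 && (
  let v248 := scale ⟨175864086528, 0, 0, 0⟩ v239; ok v248 && (
  let v249 := scale ⟨7778402304, 0, 0, 0⟩ v240; ok v249 && (
  let v250 := add v248 v249; ok v250 && (
  let v251 := scale ⟨0, 4597612544, 0, 0⟩ v241; ok v251 && (
  let v252 := add v250 v251; ok v252 && (
  let v253 := scale ⟨18363147943936, 0, 0, 0⟩ v237; ok v253 && (
  let v254 := add v252 v253; ok v254 && (
  let v255 := scale ⟨7242527735808, 0, 0, 0⟩ v242; ok v255 && (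
  let v256 := add v254 v255; ok v256 && (
  let v257 := cst ⟨2847376146432, 0, 0, 0⟩; ok v257 && (
  let v258 := add v256 v257; ok v258 && (
  let v259 := mul x0 v27; ok v259 && (
  let v260 := mul v259 v258; ok v260 && (
  let v261 := add v260 v0; ok v261 && (
  let v262 := mul v247 v261; ok v262 && (
  let v263 := scale ⟨1099511627776, 0, 0, 0⟩ v244; ok v263 && (
  let v264 := add v263 v0; ok v264 && (
  let v265 := mul v244 v264; ok v265 && (
  let v266 := add v265 v0; ok v266 && (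
  let v267 := mul v244 v266; ok v267 && (
  let v268 := add v267 v0; ok v268 && (
  let v269 := mul v244 v268; ok v269 && (
  let v270 := add v269 v0; ok v270 && (
  let v271 := mul v243 v270; ok v271 && (
  let v272 := scale ⟨2199023255552, 0, 0, 0⟩ v271; ok v272 && (
  let v273 := mul v258 v247; ok v273 && (
  let v274 := sub v272 v273; ok v274 && (
  isPos 2 v274 && (
  let v275 := mul x0 v27; ok v275 && (
  let v276 := mul v275 v258; ok v276 && (
  let v277 := add v276 v0; ok v277 && (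
  let v278 := scale ⟨4837850742784, 0, 0, 0⟩ v10; ok v278 && (
  let v279 := neg v278; ok v279 && (
  let v280 := exp v279; ok v280 && (
  let v281 := mul v277 v280; ok v281 && (
  isLt v281 1099511627520 && (
  true)))))))))))))))))))))))))))))))))))))))))))))))))))))))))))))))))))))))))))))))))))))))))))))))))))))))))))))))))))))))))))))))))))))))))))))))))))))))))))))))))))))))))))))))))))))))))))))))))))))))))))))))))))))))))))))))))))))))))))))))))))))))))))))))))))))))))))))))))))))))))))))))))))))))))))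
  | _ => false

set_option maxRecDepth 1000000 in
theorem c_S_0_eq (X : XOps) (m : List X.O.α)
    (h : c_S_0 X.O.cst X.O.add X.O.sub X.O.mul X.O.scale X.O.neg X.O.inv X.O.exp X.O.log X.O.ok
      X.O.isPos X.O.isLt X.ball X.rball m = true) :
    runX X 2 p_S_0 m = true := by
  match m, h with
  | [x0, x1], h => exact h

abbrev gS : List (List Op) := [p_S_0]

noncomputable abbrev kS : List (List xE.O.α → Bool) := [c_S_0 xE.O.cst xE.O.add xE.O.sub xE.O.mul xE.O.scale xE.O.neg xE.O.inv xE.O.exp xE.O.log xE.O.ok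
      xE.O.isPos xE.O.isLt xE.ball xE.rball]

theorem kS_eq : List.Forall₂ (fun (ops : List Op) (chk : List xE.O.α → Bool) =>
    ∀ m, chk m = true → runX xE 2 ops m = true) gS kS :=
  List.Forall₂.cons (c_S_0_eq xE) List.Forall₂.nil

theorem gS_eq : gS = [PSS tab 5] := by decide +kernel

end Pool.Agent.helper14.NS.Q30e
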