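import Pool.Agent.helper14.NS.Cert

/-!
Generated: table Q30e.
-/

namespace Pool.Agent.helper14.NS.Q30e

open Pool.Agent.helper63.NF Pool.Agent.helper4.NS

def tab : TD where
  strip := false
  bm := some (1931567052095488, -178447438577664, 5548026101760, 2199023255552)
  ec := 30601641984
  bc := 3238405341184
  H := [[[33136934016, 14712609536, -68899072, -24440896], [604664106688, -64963541632], [2861906048]], [[-2951279872, -290691712, 71127296], [9005936640, 25968023104]], [[61567552, -114479872, -1242112], [-5675819520]], [[11992128, 11835776], [120670592]], [[-1483520, -375744]], [[61696]], [[-704]]]
  pol := some ⟨-1731945562112, -31112743092224, 5872294035456, 31362867265536, [[-181700100736, -64369071232], [-5430128471936, 0]], [[131946631488, -348998969728], [11253687058304, 0]]⟩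
  a := [[[194506719232, -12138643456, 7588937728, 18969264128], [236195741696, 4062110416896]], [[65432190976, -182059008, 262144, -65536], [-19265617920, -6488326144]], [[66241691648, 92209152, 65536, 0], [9756672000, 3325952000]], [[65700888576, -91422720, 65536, 0], [-9673900032, -3271294976]], [[66513797120, 185139200, 262144, -65536], [19596771328, 6707019776]]]
  j := [2611340115968, 1374389534720, 2886218022912, 4260607557632, 5772436045824]
  c := [549755813888, 989453090816, 769604452352, 549755813888, 439697276928]
  M := [[[[1138795675648, 39986200576, 6602555392], [3908441407488, 2651797716992], [52465028038656]], [[98021736448, 3975938048], [3773030858752]], [[33502527488, -14529658880], [715249614848]], [[-33565573120]], [[-12586254336]], [[-22519218176]]], [[[1142418571264, 22064398336, -3788177408], [2112030965760]], [[16925655040, 421593088], [634369605632]], [[-171376640]], [[5701632]]], [[[1144466767872, 22845652992, -3159883776], [2283665096704]], [[16044523520, 419037184], [603671166976]], [[-46399488]], [[655360]]], [[[1146541441024, 23456120832, -3981967360], [2500274880512]], [[15595405312, 355205120], [574776213504]], [[-1048576]], [[-917504]]], [[[1148156116992, 24268963840, -3827761152], [2450666946560]],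 [[15075704832, 274661376], [582955368448]], [[46202880]], [[-2031616]]]]
  l0 := [[[3629267093056, -123410999424], [-9437078427264]], [[917152529152, 72890060672], [22706173166784]], [[456079685184, 1052665380352], [22628889024832]], [[1932884460736, 833285547584], [454424979078976]], [[-6076074816512, 2329324129408], [-224014616909504]], [[13826506603328, 3475182744192], [1154854475259072]], [[21442023585920]], [[-41863264241280]], [[256982200839680]], [[-102360050371136]], [[276138396116672]], [[238564289238720]]]
  q0 := [[410123870592, 163253794432, 1257151104], [15028122578304, 5091964182400], [-38342093167104]]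
  t := [[[750449852416, -15781003264, 44905725952, -942538752], [3633058545664, 7676985344000]], [[574364254208, 96610091008, -3727949824, -4492492800], [6635970297856, 2000086040576]], [[527373500416, 56805425152, -11215634432, -372506624], [4164179918848, 94981324800]], [[506117881856, 27842379776, -11290083328, 755564544], [2476558516224, -1131398823936]], [[489070657536, 10387193856, -10893656064, 454361088], [1453380665344, -1398126149632]]]
  y := [11097121751040, 14277545033728, 16193100447744, 17248588660736, 17280800915456]
  sc := [0, 0, 0, 0, 0]
  L := [(0, 2), (0, 3), (1, 1), (2, 0)]
  Lt := [(0, 2), (0, 3), (1, 1)]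
  far := 3
  x2 := 10775214161920
  B1 := 1099511627776
  C2 := 1436096814080
  f1 := 0
  f2 := 0
  f3 := 0
  is1 := 8796093022208
  s1 := 137438953472

end Pool.Agent.helper14.NS.Q30e
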